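import Pool.Agent.Lib.MP_b197b4_ntE.EDefs

/-!
# Leaf EA1: evaluation of `f(X, Y)` at `Y = q(X)`
-/

set_option autoImplicit false

noncomputable section

namespace MPb197b4E

open Polynomial

theorem EA1_term {A : Type} [CommRing A] {m D i : ℕ} (hi : i ≤ D) {p q : A[X]}
    (hp : p.natDegree ≤ m * (D - i)) (hq : q.natDegree ≤ m) :
    (p * q ^ i).natDegree ≤ m * D ∧
      (p * q ^ i).coeff (m * D) = p.coeff (m * (D - i)) * q.coeff m ^ i := by
  have h1 : m * D = m * (D - i) + i * m := by
    have : D = (D - i) + i := by omega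
    conv_lhs => rw [this]
    ring
  have h2 : (q ^ i).natDegree ≤ i * m :=
    natDegree_pow_le.trans (Nat.mul_le_mul_left i hq)
  constructor
  · rw [h1]
    exact natDegree_mul_le.trans (Nat.add_le_add hp h2)
  · rw [h1, coeff_mul_add_eq_of_natDegree_le hp h2, coeff_pow_of_natDegree_le hq]

/-- Degree and leading coefficient of `f(X, q(X))`, over any ring. -/
theorem eval_wt {A : Type} [CommRing A] {m D : ℕ} {f : A[X][X]} (hf : Wt m D f) {q : A[X]}
    (hq : q.natDegree ≤ m) :
    (f.eval q).natDegree ≤ m * D ∧ (f.eval q).coeff (m * D) = (topPol m D f).eval (q.coeff m) := by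
  have h0 : f.eval q = ∑ i ∈ Finset.range (D + 1), f.coeff i * q ^ i := by
    rw [eval_eq_sum_range, hf.deg]
  have h1 : ∀ i ∈ Finset.range (D + 1), (f.coeff i * q ^ i).natDegree ≤ m * D ∧
      (f.coeff i * q ^ i).coeff (m * D) = (f.coeff i).coeff (m * (D - i)) * q.coeff m ^ i := by
    intro i hi
    have hi' : i ≤ D := Nat.lt_succ_iff.1 (Finset.mem_range.1 hi)
    exact EA1_term hi' (hf.wt i hi') hq
  constructor
  · rw [h0]
    exact natDegree_sum_le_of_forall_le _ _ fun i hi => (h1 i hi).1
  · rw [h0, finsetSum_coeff, topPol, eval_finsetSum]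
    refine Finset.sum_congr rfl fun i hi => ?_
    rw [(h1 i hi).2, eval_mul, eval_C, eval_pow, eval_X]

theorem EA1_topPol_coeff {A : Type} [CommRing A] (m D : ℕ) (f : A[X][X]) (j : ℕ) (hj : j ≤ D) :
    (topPol m D f).coeff j = (f.coeff j).coeff (m * (D - j)) := by
  rw [topPol, finsetSum_coeff, Finset.sum_eq_single j]
  · rw [coeff_C_mul_X_pow, if_pos rfl]
  · intro i _ hi
    rw [coeff_C_mul_X_pow, if_neg (Ne.symm hi)]
  · intro h
    exact absurd (Finset.mem_range.2 (Nat.lt_succ_of_le hj)) h

theorem EA1_topPol_deg {A : Type} [CommRing A] (m D : ℕ) (f : A[X][X]) :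
    (topPol m D f).natDegree ≤ D := by
  rw [topPol]
  refine natDegree_sum_le_of_forall_le _ _ fun i hi => ?_
  refine (natDegree_C_mul_X_pow_le _ _).trans ?_
  exact Nat.lt_succ_iff.1 (Finset.mem_range.1 hi)

theorem topPol_monic {A : Type} [CommRing A] [Nontrivial A] {m D : ℕ} {f : A[X][X]} (hf : Wt m D f) :
    (topPol m D f).Monic ∧ (topPol m D f).natDegree = D := by
  have h1 : f.coeff D = 1 := by
    have := hf.monic.coeff_natDegree
    rwa [hf.deg] at this
  have h2 : (topPol m D f).coeff D = 1 := by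
    rw [EA1_topPol_coeff m D f D le_rfl, h1, Nat.sub_self, Nat.mul_zero, coeff_one_zero]
  have h3 := EA1_topPol_deg m D f
  refine ⟨monic_of_natDegree_le_of_coeff_eq_one D h3 h2, ?_⟩
  refine natDegree_eq_of_le_of_coeff_ne_zero h3 ?_
  rw [h2]
  exact one_ne_zero

theorem Wt.map {A B : Type} [CommRing A] [CommRing B] [Nontrivial B] {m D : ℕ} {f : A[X][X]}
    (hf : Wt m D f) (φ : A →+* B) :
    Wt m D (f.map (mapRingHom φ)) ∧ topPol m D (f.map (mapRingHom φ)) = (topPol m D f).map φ := by
  refine ⟨⟨hf.monic.map _, ?_, ?_⟩, ?_⟩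
  · rw [hf.monic.natDegree_map, hf.deg]
  · intro i hi
    rw [coeff_map, coe_mapRingHom]
    exact natDegree_map_le.trans (hf.wt i hi)
  · rw [topPol, topPol, Polynomial.map_sum]
    refine Finset.sum_congr rfl fun i _ => ?_
    rw [coeff_map, coe_mapRingHom, coeff_map, Polynomial.map_mul, map_C, Polynomial.map_pow, map_X]

theorem eval_map_map {A B : Type} [CommRing A] [CommRing B] (φ : A →+* B) (f : A[X][X]) (q : A[X]) :
    (f.map (mapRingHom φ)).eval (q.map φ) = (f.eval q).map φ := by
  rw [eval_map, ← coe_mapRingHom, eval₂_hom]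

variable {K : Type} [Field K]

theorem eval_eval_eq (f : K[X][X]) (q : K[X]) (a : K) : (f.eval q).eval a = evalEval a (q.eval a) f := by
  have h1 : (f.eval q).eval a = f.eval₂ (evalRingHom a) (q.eval a) := by
    have := eval₂_at_apply (p := f) (evalRingHom a) q
    rw [coe_evalRingHom] at this
    exact this.symm
  have h2 : evalEval a (q.eval a) f = f.eval₂ (evalRingHom a) (q.eval a) := by
    have := eval₂_at_apply (p := f) (evalRingHom a) (C (q.eval a))
    rw [coe_evalRingHom, eval_C] at this
    exact this.symm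
  rw [h1, h2]

theorem fY_eq (f : K[X][X]) (q : K[X]) (a : K) : fY f a (q.eval a) = ((derivative f).eval q).eval a := by
  rw [eval_eval_eq]
  rfl

/-- The chain rule. Use `Polynomial.binomExpansion` at `C (q.eval a)`. -/
theorem derivative_eval (f : K[X][X]) (q : K[X]) (a : K) :
    (derivative (f.eval q)).eval a =
      fX f a (q.eval a) + fY f a (q.eval a) * (derivative q).eval a := by
  rw [fY_eq]
  unfold fX
  induction f using Polynomial.induction_on' with
  | add p r hp hr =>
    rw [eval_add, derivative_add, eval_add, hp, hr, eval_add, derivative_add, eval_add,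
      derivative_add, eval_add, eval_add]
    ring
  | monomial n p =>
    rw [eval_monomial, eval_monomial, derivative_mul, derivative_mul, derivative_monomial,
      eval_monomial, ← C_pow, derivative_C, derivative_pow]
    simp only [eval_add, eval_mul, eval_pow, eval_C, eval_natCast, mul_zero, add_zero,
      map_natCast]
    ring

theorem fX_map {L : Type} [Field L] (φ : K →+* L) (f : K[X][X]) (a b : K) :
    fX (f.map (mapRingHom φ)) (φ a) (φ b) = φ (fX f a b) := by
  unfold fX
  have h : (C (φ b) : L[X]) = (C b : K[X]).map φ := (map_C φ).symm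
  rw [h, eval_map_map, derivative_map, eval_map, eval₂_at_apply]

theorem fY_map {L : Type} [Field L] (φ : K →+* L) (f : K[X][X]) (a b : K) :
    fY (f.map (mapRingHom φ)) (φ a) (φ b) = φ (fY f a b) := by
  unfold fY evalEval
  have h : (C (φ b) : L[X]) = (C b : K[X]).map φ := (map_C φ).symm
  rw [h, derivative_map, eval_map_map, eval_map, eval₂_at_apply]

end MPb197b4E
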