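import Pool.Agent.Lib.MP_b197b4_ntE.EC2
import Pool.Agent.Lib.MP_b197b4_ntW.WGa

/-!
# Leaf ED: the special member
-/

set_option autoImplicit false

noncomputable section

namespace MPb197b4E

open Polynomial

/-- A polynomial `a + b t`, not zero, has at most one root. -/
theorem ED_card_lin {F : Type} [Field F] [Fintype F] (a b : F) (h : a ≠ 0 ∨ b ≠ 0) (s : Finset F)
    (hs : ∀ t ∈ s, a + t * b = 0) : s.card ≤ 1 := by
  rw [Finset.card_le_one]
  intro t ht t' ht'
  have h1 := hs t ht
  have h2 := hs t' ht'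
  by_cases hb : b = 0
  · rw [hb, mul_zero, add_zero] at h1
    rcases h with h | h
    · exact absurd h1 h
    · exact absurd hb h
  · have h3 : (t - t') * b = 0 := by linear_combination h1 - h2
    rcases mul_eq_zero.1 h3 with h4 | h4
    · exact sub_eq_zero.1 h4
    · exact absurd h4 hb

/-- The good members of one pencil. -/
theorem ED_good {m D : ℕ} {F k : Type} [Field F] [Fintype F] [Field k]
    [Algebra F k] {f : F[X][X]} {x : F} {e : ℕ} {T : Finset F} {q : F[X]}
    (hcard : 2 * (m * D) * D + (T.card + 1) < Fintype.card F) (hf : Wt m D f)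
    (hM : Marked f x e T q) (hq : q.natDegree ≤ m) {c : F}
    (hc : (topPol m D f).eval (q.coeff m) = c) (hc0 : c ≠ 0) (hdeg : e + T.card + 1 < m)
    {v : F[X]} (hv : v.natDegree ≤ 1) (hv0 : ∀ a, a = x ∨ a ∈ T → v.eval a ≠ 0)
    {R : F[X][X]} (hR : IsPencil f q (GG x e T * v) (GG x e T) c R)
    (hsep : ((R.map (mapRingHom (algebraMap F k))).map (algebraMap k[X] (RatFunc k))).Separable) :
    ∃ (t : F) (S : F[X]), f.eval (q + GG x e T * (C t * v)) = GG x e T * S ∧ S.Separable ∧
      ∀ a, a = x ∨ a ∈ T → S.eval a ≠ 0 := by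
  classical
  set G := GG x e T with hG
  obtain ⟨hGm, hGd⟩ := GG_monic x e T
  rw [← hG] at hGm hGd
  have hG0 : G ≠ 0 := hGm.ne_zero
  have hh : (G * v).natDegree < m := by
    refine lt_of_le_of_lt natDegree_mul_le ?_
    omega
  obtain ⟨hRm, hRd⟩ := IsPencil.monic hf hR hq hh hGm hc hc0
  obtain ⟨S₀, hS₀⟩ := hM.dvd
  rw [← hG] at hS₀
  set φ : F →+* k := algebraMap F k with hφ
  -- the members that are not separable
  set B₁ : Finset F := Finset.univ.filter fun t => ¬ (R.map (evalRingHom t)).Separable with hB₁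
  have hB₁c : B₁.card ≤ 2 * (m * D) * D := by
    have h1 := MPb197b4W.bad_points (N := R.natDegree) (D := D) (R := R.map (mapRingHom φ))
      (hRm.map _) (hRm.natDegree_map _) (fun j => by
        rw [coeff_map]
        exact (natDegree_map_le).trans (IsPencil.deg_le hf.deg.le hR hG0 hc0 j)) hsep
      (B₁.map ⟨φ, φ.injective⟩) (by
        intro t ht
        obtain ⟨t₀, ht₀, rfl⟩ := Finset.mem_map.1 ht
        intro hs
        have h2 : MPb197b4W.spec (R.map (mapRingHom φ)) (φ t₀) = (R.map (evalRingHom t₀)).map φ := by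
          unfold MPb197b4W.spec
          rw [map_map, map_map]
          congr 1
          ext a
          · simp
          · simp
        have h3 : ((R.map (evalRingHom t₀)).map φ).Separable := h2 ▸ hs
        rw [separable_map] at h3
        exact (Finset.mem_filter.1 ht₀).2 h3)
    rw [Finset.card_map] at h1
    refine h1.trans ?_
    refine Nat.mul_le_mul_right _ (Nat.mul_le_mul_left _ ?_)
    omega
  -- the members with zeros at the marked points
  have key : ∀ a, a = x ∨ a ∈ T → ((Finset.univ.filter fun t : F =>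
      (R.map (evalRingHom t)).eval a = 0).card ≤ 1) := by
    intro a ha
    have hGa : (G * v).eval a = 0 := by
      rw [eval_mul, (GG_eval x e T hM.one a).2 ha, zero_mul]
    have hb := IsPencil.eval_base hR hG0 hS₀ hGa
    refine ED_card_lin (S₀.eval a) (v.eval a * fY f a (q.eval a)) ?_ _ ?_
    · rcases ha with ha' | ha'
      · refine Or.inr (mul_ne_zero (hv0 a (Or.inl ha')) ?_)
        rw [ha']
        exact hM.ram
      · rcases hM.residual hS₀ ha' with h1 | h1
        · exact Or.inl h1
        · exact Or.inr (mul_ne_zero (hv0 a (Or.inr ha')) h1)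
    · intro t ht
      have ht' := (Finset.mem_filter.1 ht).2
      have h1 := congrArg (eval t) hb
      rw [eval_mul, eval_C, eval_add, eval_C, eval_mul, eval_X, eval_C] at h1
      rw [← h1]
      have h2 : (R.eval (C a)).eval t = (R.map (evalRingHom t)).eval a := by
        have h3 := Polynomial.hom_eval₂ R (RingHom.id F[X]) (evalRingHom t) (C a)
        rw [RingHom.comp_id, coe_evalRingHom, eval_C] at h3
        rw [eval_map]
        exact h3
      rw [h2, ht', mul_zero]
  set B₂ : Finset F := (insert x T).biUnion fun a => Finset.univ.filter fun t : F =>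
      (R.map (evalRingHom t)).eval a = 0 with hB₂
  have hB₂c : B₂.card ≤ T.card + 1 := by
    refine Finset.card_biUnion_le.trans ?_
    refine (Finset.sum_le_sum fun a ha => key a (Finset.mem_insert.1 ha)).trans ?_
    rw [Finset.sum_const, smul_eq_mul, mul_one]
    exact Finset.card_insert_le x T
  have h1 : (B₁ ∪ B₂).card < Fintype.card F := by
    refine (Finset.card_union_le _ _).trans_lt ?_
    omega
  obtain ⟨t, ht⟩ : ∃ t, t ∉ B₁ ∪ B₂ := by
    by_contra hcon
    push Not at hcon
    have h2 : B₁ ∪ B₂ = Finset.univ := Finset.eq_univ_iff_forall.2 hcon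
    rw [h2, Finset.card_univ] at h1
    exact lt_irrefl _ h1
  rw [Finset.mem_union, not_or] at ht
  have hts : (R.map (evalRingHom t)).Separable := by
    by_contra hcon
    exact ht.1 (Finset.mem_filter.2 ⟨Finset.mem_univ _, hcon⟩)
  refine ⟨t, C c * R.map (evalRingHom t), ?_, ?_, ?_⟩
  · have h2 := hR.spec t
    have h3 : q + G * (C t * v) = q + C t * (G * v) := by ring
    rw [h3, h2]
    ring
  · have h4 : IsUnit (C c : F[X]) := isUnit_C.2 (IsUnit.mk0 c hc0)
    exact hts.unit_mul h4
  · intro a ha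
    rw [eval_mul, eval_C]
    refine mul_ne_zero hc0 fun h0 => ht.2 ?_
    exact Finset.mem_biUnion.2 ⟨a, Finset.mem_insert.2 ha,
      Finset.mem_filter.2 ⟨Finset.mem_univ _, h0⟩⟩

/-- The generic member: the residual divisor is simple and disjoint from the marked divisor. -/
theorem generic_member (m D : ℕ) : ∃ c₀ : ℕ, ∀ (F k : Type) [Field F] [Fintype F] [Field k]
    [IsAlgClosed k] [Algebra F k] (f : F[X][X]) (x : F) (e : ℕ) (T : Finset F) (q : F[X]),
    c₀ < Fintype.card F →
    Wt m D f → Irreducible (f.map (mapRingHom (algebraMap F k))) → Marked f x e T q → q.natDegree ≤ m →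
    (topPol m D f).eval (q.coeff m) ≠ 0 → e + T.card + 2 ≤ m →
    ∃ w S : F[X], w.natDegree ≤ 1 ∧ f.eval (q + GG x e T * w) = GG x e T * S ∧ S.Separable ∧
      ∀ a, a = x ∨ a ∈ T → S.eval a ≠ 0 := by
  refine ⟨2 * (m * D) * D + (m + 1) + m * D, ?_⟩
  intro F k _ _ _ _ _ f x e T q hcard hf hfi hM hq hc0 hdeg
  classical
  set φ : F →+* k := algebraMap F k with hφ
  set c : F := (topPol m D f).eval (q.coeff m) with hc
  set G := GG x e T with hG
  obtain ⟨hGm, hGd⟩ := GG_monic x e T
  rw [← hG] at hGm hGd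
  have hG0 : G ≠ 0 := hGm.ne_zero
  -- a point `ξ`
  obtain ⟨hwt, hcoeff⟩ := eval_wt hf hq
  have hfq : f.eval q ≠ 0 := by
    intro h0
    rw [h0, coeff_zero] at hcoeff
    exact hc0 (hc.trans hcoeff.symm)
  obtain ⟨ξ, hξ⟩ : ∃ ξ : F, (f.eval q).eval ξ ≠ 0 := by
    by_contra hcon
    push Not at hcon
    have h1 : Fintype.card F ≤ (f.eval q).natDegree := by
      rw [← Finset.card_univ]
      refine (Finset.card_le_card (t := (f.eval q).roots.toFinset) ?_).trans
        ((Multiset.toFinset_card_le _).trans (card_roots' _))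
      intro a _
      rw [Multiset.mem_toFinset, mem_roots hfq]
      exact hcon a
    omega
  have hξG : ∀ a, a = x ∨ a ∈ T → (X - C ξ : F[X]).eval a ≠ 0 := by
    intro a ha
    rw [eval_sub, eval_X, eval_C, sub_ne_zero]
    rintro rfl
    apply hξ
    obtain ⟨S₀, hS₀⟩ := hM.dvd
    rw [hS₀, eval_mul, (GG_eval x e T hM.one a).2 ha, zero_mul]
  -- the two pencils
  obtain ⟨R₁, hR₁⟩ := exists_pencil (f := f) (q := q) (h := G * 1) (G := G) (c := c) hM.dvd
    (Dvd.intro _ rfl) hc0
  obtain ⟨R₂, hR₂⟩ := exists_pencil (f := f) (q := q) (h := G * (X - C ξ)) (G := G) (c := c) hM.dvd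
    (Dvd.intro _ rfl) hc0
  have hT : (T.map ⟨φ, φ.injective⟩).card = T.card := Finset.card_map _
  obtain ⟨hfk, htop⟩ := hf.map φ
  have hMk := hM.map φ
  have hGk : G.map φ = GG (φ x) e (T.map ⟨φ, φ.injective⟩) := GG_map φ x e T
  have h1k := hR₁.map φ
  have h2k := hR₂.map φ
  rw [Polynomial.map_mul, Polynomial.map_one, hGk] at h1k
  rw [Polynomial.map_mul, Polynomial.map_sub, map_X, map_C, hGk] at h2k
  have hck : (topPol m D (f.map (mapRingHom φ))).eval ((q.map φ).coeff m) = φ c := by
    rw [htop, coeff_map, eval_map, eval₂_hom]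
  have hξk : ((f.map (mapRingHom φ)).eval (q.map φ)).eval (φ ξ) ≠ 0 := by
    rw [eval_map_map, eval_map, eval₂_hom]
    exact (map_ne_zero φ).2 hξ
  have hline := generic_line hfk hfi hMk (natDegree_map_le.trans hq) hck ((map_ne_zero φ).2 hc0) hξk
    (by rw [hT]; omega) h1k h2k
  have hTm : T.card ≤ m := by omega
  have hcard' : 2 * (m * D) * D + (T.card + 1) < Fintype.card F := by omega
  rcases hline with hs | hs
  · obtain ⟨t, S, h1, h2, h3⟩ := ED_good (k := k) hcard' hf hM hq hc.symm hc0 (by omega)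
      (v := 1) (by rw [natDegree_one]; omega) (fun a _ => by rw [eval_one]; exact one_ne_zero) hR₁ hs
    refine ⟨C t * 1, S, ?_, h1, h2, h3⟩
    rw [mul_one, natDegree_C]
    omega
  · obtain ⟨t, S, h1, h2, h3⟩ := ED_good (k := k) hcard' hf hM hq hc.symm hc0 (by omega)
      (v := X - C ξ) (by rw [natDegree_X_sub_C]) hξG hR₂ hs
    refine ⟨C t * (X - C ξ), S, ?_, h1, h2, h3⟩
    refine (natDegree_C_mul_le _ _).trans ?_
    rw [natDegree_X_sub_C]

/-- The special member: contact `e + 2` at the marked point over `x`, the rest of the residual divisor is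
simple. Proof: `newton_two` gives `q' = q + G w'` with contact `e + 2`; `generic_line` (over `k`, for
`q'`, the divisor `GG x (e + 2) T` and a `ξ` in `F` with `f(ξ, q'(ξ)) ≠ 0`), the pencils exist over `F`
(`exists_pencil`, `IsPencil.map`); `MPb197b4W.bad_points`: all but `2 N D` values of `t` in `F` are good;
`R_t(x) = 0` for at most one `t` (`IsPencil.eval_base`). -/
theorem special (m D : ℕ) : ∃ c₀ : ℕ, ∀ (F k : Type) [Field F] [Fintype F] [Field k] [IsAlgClosed k]
    [Algebra F k] (f : F[X][X]) (x : F) (e : ℕ) (T : Finset F) (q : F[X]), c₀ < Fintype.card F →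
    Wt m D f → Irreducible (f.map (mapRingHom (algebraMap F k))) → Marked f x e T q → q.natDegree ≤ m →
    (topPol m D f).eval (q.coeff m) ≠ 0 → e + T.card + 4 ≤ m →
    ∃ w S : F[X], w.natDegree ≤ 3 ∧
      f.eval (q + GG x e T * w) = GG x e T * ((X - C x) ^ 2 * S) ∧ S.Separable ∧ S.eval x ≠ 0 := by
  obtain ⟨c₀, hc₀⟩ := generic_member m D
  refine ⟨c₀, ?_⟩
  intro F k _ _ _ _ _ f x e T q hcard hf hfi hM hq hc0 hdeg
  obtain ⟨w₁, hw₁, hM₁⟩ := newton_two hM
  obtain ⟨hGm, hGd⟩ := GG_monic x e T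
  have hlt : (GG x e T * w₁).natDegree < m := by
    refine lt_of_le_of_lt natDegree_mul_le ?_
    omega
  have hq₁ : (q + GG x e T * w₁).natDegree ≤ m :=
    (natDegree_add_le _ _).trans (max_le hq hlt.le)
  have hcoeff : (q + GG x e T * w₁).coeff m = q.coeff m := by
    rw [coeff_add, coeff_eq_zero_of_natDegree_lt hlt, add_zero]
  obtain ⟨w₂, S, hw₂, h1, h2, h3⟩ := hc₀ F k f x (e + 2) T _ hcard hf hfi hM₁ hq₁
    (by rw [hcoeff]; exact hc0) (by omega)
  refine ⟨w₁ + (X - C x) ^ 2 * w₂, S, ?_, ?_, h2, h3 x (Or.inl rfl)⟩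
  · refine (natDegree_add_le _ _).trans (max_le (by omega) ?_)
    refine natDegree_mul_le.trans ?_
    have h4 : ((X - C x : F[X]) ^ 2).natDegree ≤ 2 := by
      refine natDegree_pow_le.trans ?_
      rw [natDegree_X_sub_C]
    omega
  · rw [GG_add] at h1
    have h5 : q + GG x e T * (w₁ + (X - C x) ^ 2 * w₂) =
        q + GG x e T * w₁ + GG x e T * (X - C x) ^ 2 * w₂ := by ring
    rw [h5, h1, mul_assoc]

end MPb197b4E
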