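import Pool.Agent.Lib.MP_b197b4_ntE.EDefs

/-!
# Leaf EE1: counting polynomials over a finite field
-/

set_option autoImplicit false

noncomputable section

namespace MPb197b4E

open Polynomial Finset

variable {F : Type} [Field F] [Fintype F]

theorem EE1_coeff {r : ℕ} (c : Fin r → F) (j : ℕ) :
    (∑ i : Fin r, C (c i) * X ^ (i : ℕ) : F[X]).coeff j = if h : j < r then c ⟨j, h⟩ else 0 := by
  rw [Polynomial.finsetSum_coeff]
  split_ifs with h
  · rw [Finset.sum_eq_single (⟨j, h⟩ : Fin r)]
    · rw [Polynomial.coeff_C_mul_X_pow, if_pos rfl]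
    · intro i _ hi
      rw [Polynomial.coeff_C_mul_X_pow, if_neg]
      intro h1
      exact hi (Fin.ext h1.symm)
    · intro h1
      exact absurd (Finset.mem_univ _) h1
  · refine Finset.sum_eq_zero fun i _ => ?_
    rw [Polynomial.coeff_C_mul_X_pow, if_neg]
    intro h1
    exact h (h1 ▸ i.isLt)

theorem mem_pol {r : ℕ} {w : F[X]} : w ∈ pol F r ↔ w.degree < r := by
  classical
  unfold pol
  rw [Finset.mem_image, Polynomial.degree_lt_iff_coeff_zero]
  constructor
  · rintro ⟨c, -, rfl⟩ j hj
    rw [EE1_coeff, dif_neg (not_lt.2 hj)]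
  · intro h
    refine ⟨fun i => w.coeff i, Finset.mem_univ _, ?_⟩
    ext j
    rw [EE1_coeff]
    split_ifs with hj
    · rfl
    · exact (h j (not_lt.1 hj)).symm

theorem card_pol (r : ℕ) : (pol F r).card = Fintype.card F ^ r := by
  classical
  unfold pol
  rw [Finset.card_image_of_injective, Finset.card_univ, Fintype.card_fun, Fintype.card_fin]
  intro c d h
  funext i
  have h1 := congrArg (fun p : F[X] => p.coeff i) h
  simp only [EE1_coeff] at h1
  rw [dif_pos i.isLt, dif_pos i.isLt] at h1
  exact h1

open Classical in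
theorem card_eval {r : ℕ} (a b : F) :
    ((pol F (r + 1)).filter fun w => w.eval a = b).card = Fintype.card F ^ r := by
  have h1 : ((pol F (r + 1)).filter fun w => w.eval a = b) =
      (pol F r).image fun v => C b + (X - C a) * v := by
    ext w
    rw [Finset.mem_filter, Finset.mem_image]
    constructor
    · rintro ⟨hw, he⟩
      have h2 : (X - C a) ∣ w - C b := by
        rw [Polynomial.dvd_iff_isRoot, Polynomial.IsRoot, Polynomial.eval_sub, Polynomial.eval_C, he,
          sub_self]
      obtain ⟨v, hv⟩ := h2
      refine ⟨v, ?_, ?_⟩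
      · rw [mem_pol] at hw ⊢
        by_cases hv0 : v = 0
        · rw [hv0, Polynomial.degree_zero]
          exact WithBot.bot_lt_coe r
        · have h3 : (w - C b).degree < ((r + 1 : ℕ) : WithBot ℕ) := by
            refine lt_of_le_of_lt (Polynomial.degree_sub_le _ _) (max_lt hw ?_)
            refine lt_of_le_of_lt Polynomial.degree_C_le ?_
            exact_mod_cast Nat.succ_pos r
          rw [hv, Polynomial.degree_mul, Polynomial.degree_X_sub_C,
            Polynomial.degree_eq_natDegree hv0] at h3
          rw [Polynomial.degree_eq_natDegree hv0]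
          have h4 : 1 + v.natDegree < r + 1 := by exact_mod_cast h3
          have h5 : v.natDegree < r := by omega
          exact_mod_cast h5
      · rw [← hv]
        ring
    · rintro ⟨v, hv, rfl⟩
      rw [mem_pol] at hv
      refine ⟨?_, ?_⟩
      · rw [mem_pol]
        refine lt_of_le_of_lt (Polynomial.degree_add_le _ _) (max_lt ?_ ?_)
        · refine lt_of_le_of_lt Polynomial.degree_C_le ?_
          exact_mod_cast Nat.succ_pos r
        · by_cases hv0 : v = 0
          · rw [hv0, mul_zero, Polynomial.degree_zero]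
            exact WithBot.bot_lt_coe _
          · rw [Polynomial.degree_mul, Polynomial.degree_X_sub_C, Polynomial.degree_eq_natDegree hv0]
            rw [Polynomial.degree_eq_natDegree hv0] at hv
            have h4 : v.natDegree < r := by exact_mod_cast hv
            have h5 : 1 + v.natDegree < r + 1 := by omega
            exact_mod_cast h5
      · simp
  rw [h1, Finset.card_image_of_injective, card_pol]
  intro v v' h
  have h2 : (X - C a) * v = (X - C a) * v' := add_left_cancel h
  exact mul_left_cancel₀ (Polynomial.X_sub_C_ne_zero a) h2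

/-- Interpolation (`Lagrange.interpolate`). -/
theorem exists_interp (M : Finset (F × F)) (hM : ∀ b ∈ M, ∀ b' ∈ M, b.1 = b'.1 → b = b') :
    ∃ q : F[X], q.degree < M.card ∧ ∀ b ∈ M, q.eval b.1 = b.2 := by
  classical
  have hinj : Set.InjOn (Prod.fst : F × F → F) (M : Set (F × F)) := fun b hb b' hb' h => hM b hb b' hb' h
  exact ⟨Lagrange.interpolate M Prod.fst Prod.snd, Lagrange.degree_interpolate_lt _ hinj,
    fun b hb => Lagrange.eval_interpolate_at_node _ hinj hb⟩

/-- Primes in an arithmetic progression (`Nat.forall_exists_prime_gt_and_eq_mod`): a prime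
`p = m * D - (D + 1)`. -/
theorem exists_m (D N : ℕ) (hD : 1 ≤ D) : ∃ m, N ≤ m ∧ (m * D - (D + 1)).Prime := by
  haveI : NeZero D := ⟨by omega⟩
  obtain ⟨p, hp1, hp2, hp3⟩ := Nat.forall_exists_prime_gt_and_eq_mod (q := D) (a := (-1 : ZMod D))
    isUnit_one.neg (N * D)
  have h1 : ((p + 1 : ℕ) : ZMod D) = 0 := by
    rw [Nat.cast_add, hp3, Nat.cast_one]
    ring
  rw [ZMod.natCast_eq_zero_iff] at h1
  obtain ⟨c, hc⟩ := h1
  refine ⟨c + 1, ?_, ?_⟩
  · have h2 : N * D < D * c := by omega
    rw [mul_comm D c] at h2
    have h3 := lt_of_mul_lt_mul_right h2 (Nat.zero_le D)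
    omega
  · have h2 : (c + 1) * D - (D + 1) = p := by
      have h3 : (c + 1) * D = D * c + D := by ring
      omega
    rw [h2]
    exact hp2

end MPb197b4E
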