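import Pool.Agent.Lib.MP_b197b4_ntE.EA2
import Pool.Agent.Lib.MP_b197b4_ntE.EE1

/-!
# Leaf EG1: the residual polynomial and the marked points
-/

set_option autoImplicit false

noncomputable section

namespace MPb197b4E

open Polynomial Finset

variable {F : Type} [Field F] [Fintype F] [DecidableEq F]

omit [Fintype F] [DecidableEq F] in
/-- `f(X, q + G w) = G S'`. -/
theorem EG1_mul {f : F[X][X]} {x : F} {e : ℕ} {T : Finset F} {q : F[X]} (h : Marked f x e T q)
    (w : F[X]) : f.eval (q + GG x e T * w) =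
      GG x e T * (f.eval (q + GG x e T * w) /ₘ GG x e T) := by
  have h1 := (h.add w).dvd
  have h2 := modByMonic_add_div (f.eval (q + GG x e T * w)) (GG x e T)
  rw [(modByMonic_eq_zero_iff_dvd (GG_monic x e T).1).2 h1, zero_add] at h2
  exact h2.symm

open Classical in
/-- The members whose residual divisor contains the marked point over `a` (`residual_eval`,
`Marked.residual`): the value `w(a)` is prescribed or there is none. -/
theorem card_meet {f : F[X][X]} {x : F} {e : ℕ} {T : Finset F} {q : F[X]} (h : Marked f x e T q) {r : ℕ}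
    {a : F} (ha : a = x ∨ a ∈ T) :
    ((pol F (r + 1)).filter fun w =>
      (f.eval (q + GG x e T * w) /ₘ GG x e T).eval a = 0).card ≤ Fintype.card F ^ r := by
  have hG0 : GG x e T ≠ 0 := (GG_monic x e T).1.ne_zero
  have hGa : (GG x e T).eval a = 0 := (GG_eval x e T h.one a).2 ha
  set S := f.eval (q + GG x e T * 0) /ₘ GG x e T with hSdef
  have hS : f.eval q = GG x e T * S := by
    have h1 := EG1_mul h 0
    rw [← hSdef] at h1
    rw [mul_zero, add_zero] at h1
    exact h1
  have hev : ∀ w : F[X], (f.eval (q + GG x e T * w) /ₘ GG x e T).eval a =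
      S.eval a + w.eval a * fY f a (q.eval a) := fun w =>
    residual_eval hS hG0 (EG1_mul h w) hGa
  by_cases hY : fY f a (q.eval a) = 0
  · have hSa : S.eval a ≠ 0 := by
      rcases ha with rfl | ha
      · exact absurd hY h.ram
      · rcases h.residual hS ha with h1 | h1
        · exact h1
        · exact absurd hY h1
    have h2 : ((pol F (r + 1)).filter fun w =>
        (f.eval (q + GG x e T * w) /ₘ GG x e T).eval a = 0) = ∅ := by
      refine Finset.filter_eq_empty_iff.2 fun w _ h3 => hSa ?_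
      rw [hev w, hY, mul_zero, add_zero] at h3
      exact h3
    rw [h2, Finset.card_empty]
    exact Nat.zero_le _
  · refine le_trans (Finset.card_le_card ?_) (card_eval (r := r) a
      (-S.eval a / fY f a (q.eval a))).le
    intro w hw
    simp only [Finset.mem_filter] at hw ⊢
    refine ⟨hw.1, ?_⟩
    have h3 := hw.2
    rw [hev w] at h3
    rw [eq_div_iff hY]
    linear_combination h3

omit [Fintype F] in
theorem EG1_roots_GG {x : F} {T : Finset F} : (GG x 1 T).roots.toFinset = insert x T := by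
  ext a
  rw [Multiset.mem_toFinset, mem_roots (GG_monic x 1 T).1.ne_zero, IsRoot.def,
    GG_eval x 1 T le_rfl a, Finset.mem_insert]

omit [Fintype F] in
/-- The same for two polynomials `P = GG x 1 T * S`. -/
theorem EG1_split_aux {x : F} {T : Finset F} (hx : x ∉ T) {P S : F[X]} (hP : P = GG x 1 T * S)
    {n : ℕ} (hn : 1 + T.card ≤ n) (hdeg : P.natDegree ≤ n) :
    Split n P ↔ Split (n - (1 + T.card)) S ∧ ∀ a, a = x ∨ a ∈ T → S.eval a ≠ 0 := by
  have hc : (insert x T).card = 1 + T.card := by
    rw [Finset.card_insert_of_notMem hx, add_comm]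
  by_cases hS0 : S = 0
  · subst hS0
    rw [mul_zero] at hP
    subst hP
    constructor
    · intro h
      unfold Split at h
      rw [roots_zero, Multiset.toFinset_zero, Finset.card_empty] at h
      omega
    · rintro ⟨-, h⟩
      exact absurd eval_zero (h x (Or.inl rfl))
  · have hG0 : GG x 1 T ≠ 0 := (GG_monic x 1 T).1.ne_zero
    have hP0 : GG x 1 T * S ≠ 0 := mul_ne_zero hG0 hS0
    have hroots : P.roots.toFinset = insert x T ∪ S.roots.toFinset := by
      rw [hP, roots_mul hP0, Multiset.toFinset_add, EG1_roots_GG]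
    have hdS : S.natDegree ≤ n - (1 + T.card) := by
      have h1 : P.natDegree = (1 + T.card) + S.natDegree := by
        rw [hP, natDegree_mul hG0 hS0, (GG_monic x 1 T).2]
      omega
    have hcS : S.roots.toFinset.card ≤ n - (1 + T.card) :=
      ((Multiset.toFinset_card_le _).trans (card_roots' S)).trans hdS
    unfold Split
    rw [hroots]
    have h2 := Finset.card_union_add_card_inter (insert x T) S.roots.toFinset
    rw [hc] at h2
    have h3 : (∀ a, a = x ∨ a ∈ T → S.eval a ≠ 0) ↔ (insert x T ∩ S.roots.toFinset).card = 0 := by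
      rw [Finset.card_eq_zero, Finset.eq_empty_iff_forall_notMem]
      constructor
      · intro h a ha
        rw [Finset.mem_inter, Finset.mem_insert, Multiset.mem_toFinset, mem_roots hS0] at ha
        exact h a ha.1 ha.2
      · intro h a ha h0
        refine h a ?_
        rw [Finset.mem_inter, Finset.mem_insert, Multiset.mem_toFinset, mem_roots hS0]
        exact ⟨ha, h0⟩
    rw [h3]
    omega

/-- For `e = 1`: all the `n` roots are simple roots in `F` iff this is true for the residual polynomial and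
it is not zero at the marked points. -/
theorem split_iff {f : F[X][X]} {x : F} {T : Finset F} {q w : F[X]} {n : ℕ} (h : Marked f x 1 T q)
    (hn : 1 + T.card ≤ n) (hdeg : (f.eval (q + GG x 1 T * w)).natDegree ≤ n) :
    Split n (f.eval (q + GG x 1 T * w)) ↔
      Split (n - (1 + T.card)) (f.eval (q + GG x 1 T * w) /ₘ GG x 1 T) ∧
        ∀ a, a = x ∨ a ∈ T → (f.eval (q + GG x 1 T * w) /ₘ GG x 1 T).eval a ≠ 0 :=
  EG1_split_aux h.not_mem (EG1_mul h w) hn hdeg

/-- A root of a split `f(X, q(X))` gives a regular point (`derivative_eval`; a polynomial of degree `≤ n`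
with `n` different roots has simple roots only). -/
theorem Split.regular {f : F[X][X]} {q : F[X]} {n : ℕ} (hn : 0 < n) (hs : Split n (f.eval q))
    (hdeg : (f.eval q).natDegree ≤ n) {a : F} (ha : (f.eval q).eval a = 0) :
    fX f a (q.eval a) ≠ 0 ∨ fY f a (q.eval a) ≠ 0 := by
  have hP0 : f.eval q ≠ 0 := by
    intro h0
    unfold Split at hs
    rw [h0, roots_zero, Multiset.toFinset_zero, Finset.card_empty] at hs
    omega
  have hnd : (f.eval q).roots.Nodup := by
    rw [← Multiset.toFinset_card_eq_card_iff_nodup]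
    have h1 := Multiset.toFinset_card_le (f.eval q).roots
    have h2 := card_roots' (f.eval q)
    unfold Split at hs
    omega
  have hd : (derivative (f.eval q)).eval a ≠ 0 := by
    intro h1
    have h2 : 1 < (f.eval q).rootMultiplicity a :=
      (one_lt_rootMultiplicity_iff_isRoot hP0).2 ⟨ha, h1⟩
    rw [← count_roots] at h2
    have h3 := Multiset.nodup_iff_count_le_one.1 hnd a
    omega
  by_contra h
  push Not at h
  rw [derivative_eval, h.1, h.2, zero_mul, add_zero] at hd
  exact hd rfl

omit [Fintype F] in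
theorem EG1_prod {x : F} {T : Finset F} (hx : x ∉ T) :
    GG x 1 T = ∏ a ∈ insert x T, (X - C a) := by
  rw [GG, pow_one, Finset.prod_insert hx]

omit [Fintype F] in
theorem EG1_dvd {x : F} {T : Finset F} (hx : x ∉ T) (P : F[X]) :
    GG x 1 T ∣ P ↔ ∀ a, a = x ∨ a ∈ T → P.eval a = 0 := by
  rw [EG1_prod hx]
  constructor
  · intro h a ha
    have h1 : (X - C a) ∣ P :=
      (Finset.dvd_prod_of_mem (fun b : F => X - C b) (Finset.mem_insert.2 ha)).trans h
    exact dvd_iff_isRoot.1 h1
  · intro h
    refine Finset.prod_dvd_of_coprime ?_ fun a ha =>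
      dvd_iff_isRoot.2 (h a (Finset.mem_insert.1 ha))
    intro a _ b _ hab
    exact pairwise_coprime_X_sub_C Function.injective_id hab

/-- The marked data for a set `M` of marked points: `q₀` interpolates, `x` is the unramified point. -/
theorem Base.marked {f : F[X][X]} {M : Finset (F × F)} (hM : Base f M) :
    ∃ (x : F) (T : Finset F) (q₀ : F[X]), Marked f x 1 T q₀ ∧ 1 + T.card = M.card ∧
      q₀.degree < M.card ∧ (∀ b ∈ M, q₀.eval b.1 = b.2) ∧ (∀ a, a = x ∨ a ∈ T ↔ ∃ b ∈ M, b.1 = a) ∧
      ∀ q : F[X], (∀ b ∈ M, q.eval b.1 = b.2) ↔ GG x 1 T ∣ q - q₀ := by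
  obtain ⟨b₀, hb₀, hram⟩ := hM.ram
  obtain ⟨q₀, hq1, hq2⟩ := exists_interp M hM.inj
  set T := (M.erase b₀).image Prod.fst with hT
  have hx : b₀.1 ∉ T := by
    intro h
    rw [hT, Finset.mem_image] at h
    obtain ⟨b, hb, hbe⟩ := h
    rw [Finset.mem_erase] at hb
    exact hb.1 (hM.inj b hb.2 b₀ hb₀ hbe)
  have hmem : ∀ a, a = b₀.1 ∨ a ∈ T ↔ ∃ b ∈ M, b.1 = a := by
    intro a
    rw [hT, Finset.mem_image]
    constructor
    · rintro (h | ⟨b, hb, rfl⟩)
      · exact ⟨b₀, hb₀, h.symm⟩
      · exact ⟨b, Finset.mem_of_mem_erase hb, rfl⟩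
    · rintro ⟨b, hb, rfl⟩
      by_cases h : b = b₀
      · exact Or.inl (by rw [h])
      · exact Or.inr ⟨b, Finset.mem_erase.2 ⟨h, hb⟩, rfl⟩
  have hTM : ∀ b ∈ M, ∀ a, b.1 = a → q₀.eval a = b.2 := by
    rintro b hb a rfl
    exact hq2 b hb
  have hcard : 1 + T.card = M.card := by
    have h1 : T.card = (M.erase b₀).card := by
      rw [hT]
      refine Finset.card_image_of_injOn ?_
      intro b hb b' hb' hbb
      exact hM.inj b (Finset.mem_of_mem_erase hb) b' (Finset.mem_of_mem_erase hb') hbb
    rw [h1, Finset.card_erase_of_mem hb₀]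
    have h2 : 0 < M.card := Finset.card_pos.2 ⟨b₀, hb₀⟩
    omega
  have hiff : ∀ q : F[X], (∀ b ∈ M, q.eval b.1 = b.2) ↔ GG b₀.1 1 T ∣ q - q₀ := by
    intro q
    rw [EG1_dvd hx]
    constructor
    · intro h a ha
      obtain ⟨b, hb, rfl⟩ := (hmem a).1 ha
      rw [eval_sub, h b hb, hq2 b hb, sub_self]
    · intro h b hb
      have h1 := h b.1 ((hmem b.1).2 ⟨b, hb, rfl⟩)
      rw [eval_sub, hq2 b hb] at h1
      exact sub_eq_zero.1 h1
  refine ⟨b₀.1, T, q₀, ⟨le_rfl, hx, ?_, ?_, ?_⟩, hcard, hq1, hq2, hmem, hiff⟩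
  · rw [EG1_dvd hx]
    intro a ha
    obtain ⟨b, hb, rfl⟩ := (hmem a).1 ha
    rw [eval_eval_eq, hq2 b hb]
    exact hM.on b hb
  · rw [hq2 b₀ hb₀]
    exact hram
  · intro a ha
    obtain ⟨b, hb, rfl⟩ := (hmem a).1 (Or.inr ha)
    rw [hq2 b hb]
    exact hM.reg b hb

end MPb197b4E
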