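import Pool.Agent.Lib.MP_b197b4_ntE.EF2
import Pool.Agent.Lib.MP_b197b4_ntE.EG1

/-!
# Leaf EH: the number of the points
-/

set_option autoImplicit false

noncomputable section

namespace MPb197b4E

open Polynomial Finset

variable {F : Type} [Field F] [Fintype F] [DecidableEq F]

theorem EH_mem_pts {f : F[X][X]} {B : Finset (F × F)} {y : F × F} : y ∈ pts f B ↔
    evalEval y.1 y.2 f = 0 ∧ (fX f y.1 y.2 ≠ 0 ∨ fY f y.1 y.2 ≠ 0) ∧ ∀ b ∈ B, b.1 ≠ y.1 := by
  unfold pts
  rw [Finset.mem_filter]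
  exact and_iff_right (mem_univ _)

/-- At most `D` points over every `x`. -/
theorem card_pts_le {m D : ℕ} {f : F[X][X]} (hf : Wt m D f) (B : Finset (F × F)) :
    (pts f B).card ≤ D * Fintype.card F := by
  classical
  have h1 : ∀ x : F, ((pts f B).filter fun y => y.1 = x).card ≤ D := by
    intro x
    have hg : (f.map (evalRingHom x)).Monic := hf.monic.map _
    have hd : (f.map (evalRingHom x)).natDegree = D := by
      rw [hf.monic.natDegree_map, hf.deg]
    refine le_trans ?_ (le_trans (Multiset.toFinset_card_le _)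
      (le_trans (card_roots' (f.map (evalRingHom x))) hd.le))
    refine Finset.card_le_card_of_injOn (fun y => y.2) ?_ ?_
    · intro y hy
      obtain ⟨h2, h3⟩ := Finset.mem_filter.1 hy
      rw [mem_coe, Multiset.mem_toFinset, mem_roots hg.ne_zero, IsRoot.def,
        map_evalRingHom_eval, ← h3]
      exact (EH_mem_pts.1 h2).1
    · intro y hy y' hy' h
      obtain ⟨_, h3⟩ := Finset.mem_filter.1 hy
      obtain ⟨_, h5⟩ := Finset.mem_filter.1 hy'
      exact Prod.ext (h3.trans h5.symm) h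
  have h2 := Finset.card_eq_sum_card_fiberwise (f := Prod.fst) (s := pts f B) (t := univ)
    (fun y _ => mem_univ _)
  rw [h2]
  calc ∑ x : F, ((pts f B).filter fun y => y.1 = x).card ≤ ∑ _x : F, D :=
        sum_le_sum fun x _ => h1 x
    _ = D * Fintype.card F := by
        rw [sum_const, card_univ, smul_eq_mul, mul_comm]

omit [Fintype F] in
/-- All the roots are simple. -/
theorem EH_simple {S : F[X]} {n : ℕ} (hd : S.natDegree ≤ n) (hS : Split n S) {a : F}
    (ha : a ∈ S.roots) : (derivative S).eval a ≠ 0 := by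
  have h0 : S ≠ 0 := (mem_roots'.1 ha).1
  intro h1
  have h2 : 1 < S.rootMultiplicity a :=
    (one_lt_rootMultiplicity_iff_isRoot h0).2 ⟨(mem_roots'.1 ha).2, h1⟩
  have h3 : S.roots.toFinset.card = S.roots.card :=
    le_antisymm (Multiset.toFinset_card_le _)
      ((card_roots' S).trans (hd.trans (le_of_eq (show n = _ from hS.symm))))
  have h4 : S.roots.Nodup := Multiset.toFinset_card_eq_card_iff_nodup.1 h3
  have h5 := Multiset.nodup_iff_count_le_one.1 h4 a
  rw [count_roots] at h5
  omega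

/-- A member whose residual polynomial has many roots has a point which is not marked. -/
theorem EH_point {m D : ℕ} {f : F[X][X]} (hf : Wt m D f) {B : Finset (F × F)} {x : F} {e : ℕ}
    {T : Finset F} {u : F[X]} (h : Marked f x e T u) (hdeg : u.natDegree ≤ m)
    (hB : ∀ b ∈ B, b.1 = x ∨ b.1 ∈ T) (hs : 1 + T.card < m * D - (e + T.card))
    (hS : Split (m * D - (e + T.card)) (f.eval u /ₘ GG x e T)) :
    ∃ y ∈ pts f B, u.eval y.1 = y.2 ∧ (GG x e T).eval y.1 ≠ 0 := by
  obtain ⟨hG, hGd⟩ := GG_monic x e T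
  have h1 : f.eval u = GG x e T * (f.eval u /ₘ GG x e T) := by
    have h2 := modByMonic_add_div (f.eval u) (GG x e T)
    rw [(modByMonic_eq_zero_iff_dvd hG).2 h.dvd, zero_add] at h2
    exact h2.symm
  have hSd : (f.eval u /ₘ GG x e T).natDegree ≤ m * D - (e + T.card) := by
    rw [natDegree_divByMonic _ hG, hGd]
    exact Nat.sub_le_sub_right (eval_wt hf hdeg).1 _
  have hc : (insert x T).card < (f.eval u /ₘ GG x e T).roots.toFinset.card := by
    rw [show (f.eval u /ₘ GG x e T).roots.toFinset.card = _ from hS, card_insert_of_notMem h.not_mem]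
    omega
  obtain ⟨a, ha, ha'⟩ := Finset.exists_mem_notMem_of_card_lt_card hc
  rw [Multiset.mem_toFinset] at ha
  rw [Finset.mem_insert] at ha'
  have hGa : (GG x e T).eval a ≠ 0 := fun h3 => ha' ((GG_eval x e T h.one a).1 h3)
  have hSa : (f.eval u /ₘ GG x e T).eval a = 0 := (mem_roots'.1 ha).2
  have hS' := EH_simple hSd hS ha
  refine ⟨(a, u.eval a), EH_mem_pts.2 ⟨?_, ?_, ?_⟩, rfl, hGa⟩
  · rw [← eval_eval_eq, h1, eval_mul, hSa, mul_zero]
  · by_contra h4
    push Not at h4
    have h5 := derivative_eval f u a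
    rw [h4.1, h4.2, zero_mul, add_zero, h1, derivative_mul, eval_add, eval_mul, eval_mul, hSa,
      mul_zero, zero_add] at h5
    exact mul_ne_zero hGa hS' h5
  · intro b hb h6
    have h7 := hB b hb
    rw [h6] at h7
    exact ha' h7

open Classical in
/-- Double counting. -/
theorem EH_count {m D : ℕ} {f : F[X][X]} (hf : Wt m D f) {B : Finset (F × F)} {x : F} {e : ℕ}
    {T : Finset F} {q : F[X]} (h : Marked f x e T q) (hq : q.natDegree ≤ m)
    (hB : ∀ b ∈ B, b.1 = x ∨ b.1 ∈ T) {r : ℕ} (hr : e + T.card + (r + 1) ≤ m)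
    (hs : 1 + T.card < m * D - (e + T.card)) :
    resCount f q (GG x e T) (r + 1) (m * D - (e + T.card)) ≤
      (pts f B).card * Fintype.card F ^ r := by
  obtain ⟨hG, hGd⟩ := GG_monic x e T
  have h1 : ∀ y : F × F, (GG x e T).eval y.1 ≠ 0 →
      ((pol F (r + 1)).filter fun w => (q + GG x e T * w).eval y.1 = y.2).card ≤
        Fintype.card F ^ r := by
    intro y hy
    have h0 : ((pol F (r + 1)).filter fun w =>
        w.eval y.1 = (y.2 - q.eval y.1) / (GG x e T).eval y.1).card = Fintype.card F ^ r := by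
      rw [← card_eval (r := r) y.1 ((y.2 - q.eval y.1) / (GG x e T).eval y.1)]
      congr
    refine le_trans (Finset.card_le_card fun w hw => ?_) h0.le
    obtain ⟨h2, h3⟩ := Finset.mem_filter.1 hw
    refine Finset.mem_filter.2 ⟨h2, ?_⟩
    rw [eval_add, eval_mul] at h3
    rw [eq_div_iff hy]
    linear_combination h3
  have h2 : ((pol F (r + 1)).filter fun w => Split (m * D - (e + T.card))
      (f.eval (q + GG x e T * w) /ₘ GG x e T)) ⊆
      ((pts f B).filter fun y => (GG x e T).eval y.1 ≠ 0).biUnion fun y =>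
        (pol F (r + 1)).filter fun w => (q + GG x e T * w).eval y.1 = y.2 := by
    intro w hw
    obtain ⟨hw1, hw2⟩ := Finset.mem_filter.1 hw
    have hwd : w.degree < (r + 1 : ℕ) := mem_pol.1 hw1
    have hwn : w.natDegree ≤ r := by
      by_cases hw0 : w = 0
      · rw [hw0, natDegree_zero]
        exact Nat.zero_le _
      · have := (natDegree_lt_iff_degree_lt hw0).2 hwd
        omega
    have hdeg : (q + GG x e T * w).natDegree ≤ m := by
      refine (natDegree_add_le _ _).trans (max_le hq ?_)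
      refine (natDegree_mul_le).trans ?_
      rw [hGd]
      omega
    obtain ⟨y, hy1, hy2, hy3⟩ := EH_point hf (h.add w) hdeg hB hs hw2
    exact Finset.mem_biUnion.2 ⟨y, Finset.mem_filter.2 ⟨hy1, hy3⟩,
      Finset.mem_filter.2 ⟨hw1, hy2⟩⟩
  have h3 : resCount f q (GG x e T) (r + 1) (m * D - (e + T.card)) =
      ((pol F (r + 1)).filter fun w => Split (m * D - (e + T.card))
      (f.eval (q + GG x e T * w) /ₘ GG x e T)).card := by
    unfold resCount
    rfl
  rw [h3]
  refine (Finset.card_le_card h2).trans (Finset.card_biUnion_le.trans ?_)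
  refine (Finset.sum_le_sum fun y hy => h1 y (Finset.mem_filter.1 hy).2).trans ?_
  rw [sum_const, smul_eq_mul]
  exact Nat.mul_le_mul_right _ (Finset.card_le_card (Finset.filter_subset _ _))

omit [DecidableEq F] in
theorem EH_inst (i j : DecidableEq F) (f : F[X][X]) (q G : F[X]) (r s : ℕ) :
    @resCount F _ _ i f q G r s = @resCount F _ _ j f q G r s := by
  rw [Subsingleton.elim i j]

/-- Many points: `Base.marked` for `B`, `newton_two` at the unramified point `x`: `Marked f x 3 T q'`,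
`3 + #T = D + 1`; a leading coefficient `μ₀` with `f_top(μ₀) ≠ 0`: `pencil_count` gives at least
`Q ^ r / (2 s!)` members, `r = m - (D + 1)`, whose residual polynomial has `s > D` different roots in `F`;
at least one of them is not marked, it is a regular point; every point which is not over a marked point is
on at most `Q ^ (r - 1)` members (`card_eval`). -/
theorem card_pts_ge (m D : ℕ) (hD : 2 ≤ D) (hm : D + 5 ≤ m) (hs : (m * D - (D + 1)).Prime) : ∃ c₀ : ℕ,
    ∀ (p μ : ℕ) [Fact p.Prime] (F k : Type) [Field F] [Fintype F] [DecidableEq F] [Field k] [CharP k p]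
    [IsAlgClosed k] [Algebra F k] (f : F[X][X]) (B : Finset (F × F)), Fintype.card F = p ^ (2 * μ) →
    c₀ < Fintype.card F → Wt m D f → Irreducible (f.map (mapRingHom (algebraMap F k))) → Base f B →
    B.card + 1 = D →
    Fintype.card F ≤ 4 * (m * D - (D + 1)).factorial * (pts f B).card := by
  obtain ⟨c, hc0, hc⟩ := pencil_count m D
  refine ⟨D + ⌈(2 * c) ^ 2⌉₊, fun p μ _ F k _ _ hdec _ _ _ _ f B hF hQ hf hfi hB hBD => ?_⟩
  obtain ⟨x, T, q₀, hM, hT, hq₀, -, hx, -⟩ := hB.marked
  obtain ⟨w, hw, hM3⟩ := newton_two hM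
  have hT' : 3 + T.card = D + 1 := by omega
  obtain ⟨hG, hGd⟩ := GG_monic x 3 T
  obtain ⟨-, hGd1⟩ := GG_monic x 1 T
  -- the leading coefficient
  obtain ⟨htm, htd⟩ := topPol_monic hf
  obtain ⟨μ₀, hμ₀⟩ : ∃ μ₀ : F, (topPol m D f).eval μ₀ ≠ 0 := by
    by_contra h1
    push Not at h1
    have h2 : (topPol m D f).natDegree < Fintype.card F := by omega
    exact htm.ne_zero (eq_zero_of_natDegree_lt_card_of_eval_eq_zero (topPol m D f)
      Function.injective_id (fun a => h1 a) h2)
  have hq₀' : q₀.natDegree ≤ D := by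
    by_cases h0 : q₀ = 0
    · rw [h0, natDegree_zero]
      exact Nat.zero_le _
    · have := (natDegree_lt_iff_degree_lt h0).2 hq₀
      omega
  set q' := q₀ + GG x 1 T * w with hq'
  have hq'd : q'.natDegree ≤ D := by
    refine (natDegree_add_le _ _).trans (max_le hq₀' ?_)
    refine (natDegree_mul_le).trans ?_
    rw [hGd1]
    omega
  set q := q' + GG x 3 T * (C μ₀ * X ^ (m - (D + 1))) with hqdef
  have hMq : Marked f x 3 T q := Marked.add (e := 3) hM3 _
  have hqd : q.natDegree ≤ m := by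
    refine (natDegree_add_le _ _).trans (max_le (by omega) ?_)
    refine (natDegree_mul_le).trans ?_
    have h1 := natDegree_C_mul_X_pow_le μ₀ (m - (D + 1))
    rw [hGd]
    omega
  have hqm : q.coeff m = μ₀ := by
    have h1 : GG x 3 T * (C μ₀ * X ^ (m - (D + 1))) = C μ₀ * (GG x 3 T * X ^ (m - (D + 1))) := by
      ring
    have h2 : (GG x 3 T).coeff (D + 1) = 1 := by
      have := hG.coeff_natDegree
      rwa [hGd, hT'] at this
    have h3 : (GG x 3 T * X ^ (m - (D + 1))).coeff (D + 1 + (m - (D + 1))) = 1 := by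
      rw [coeff_mul_X_pow, h2]
    rw [show D + 1 + (m - (D + 1)) = m by omega] at h3
    rw [hqdef, coeff_add, h1, coeff_C_mul, h3, mul_one,
      coeff_eq_zero_of_natDegree_lt (by omega : q'.natDegree < m), zero_add]
  have hmD : 2 * D + 9 ≤ m * D := by nlinarith
  have hcount := hc p μ F k f x 3 T q hF hf hfi hMq hqd (by rw [hqm]; exact hμ₀) (by omega)
    (by rw [hT']; exact hs) (by omega)
  rw [EH_inst _ hdec] at hcount
  have hB' : ∀ b ∈ B, b.1 = x ∨ b.1 ∈ T := fun b hb => (hx b.1).2 ⟨b, hb, rfl⟩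
  have hupper := EH_count hf hMq hqd hB' (r := m - (D + 1) - 1) (by omega) (by omega)
  rw [hT'] at hcount hupper
  obtain ⟨r, hr⟩ : ∃ r, m - (D + 1) = r + 1 := ⟨m - (D + 1) - 1, by omega⟩
  rw [hr] at hcount
  rw [hr, Nat.add_sub_cancel] at hupper
  set s := m * D - (D + 1) with hsdef
  -- the numbers
  have hP : (Fintype.card F : ℝ) = ((p : ℝ) ^ μ) ^ 2 := by
    rw [hF, Nat.cast_pow, ← pow_mul, mul_comm]
  have hPpos : (0 : ℝ) < (p : ℝ) ^ μ := pow_pos (Nat.cast_pos.2 (Fact.out : p.Prime).pos) _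
  have hP2 : 2 * c ≤ (p : ℝ) ^ μ := by
    have h1 : (2 * c) ^ 2 ≤ ((p : ℝ) ^ μ) ^ 2 := by
      rw [← hP]
      refine (Nat.le_ceil _).trans ?_
      exact_mod_cast (show ⌈(2 * c) ^ 2⌉₊ ≤ Fintype.card F by omega)
    exact (abs_le_abs_of_nonneg (by positivity) (by
      rwa [sq_le_sq₀ (by positivity) hPpos.le] at h1)).trans (le_of_eq (abs_of_pos hPpos)) |>.trans'
        (le_abs_self _)
  have hQr : (p : ℝ) ^ (2 * μ * (r + 1)) = (Fintype.card F : ℝ) ^ (r + 1) := by
    rw [hP, ← pow_mul, ← pow_mul]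
    ring_nf
  rw [hQr] at hcount
  have hQpos : (0 : ℝ) < (Fintype.card F : ℝ) := by
    exact_mod_cast Fintype.card_pos
  set R := resCount f q (GG x 3 T) (r + 1) s with hR
  have h1 : (Fintype.card F : ℝ) ^ (r + 1) ≤ 2 * ((s.factorial : ℝ) * R) := by
    have h2 : (Fintype.card F : ℝ) ^ (r + 1) - (s.factorial : ℝ) * R ≤
        |(s.factorial : ℝ) * R - (Fintype.card F : ℝ) ^ (r + 1)| := by
      rw [abs_sub_comm]
      exact le_abs_self _
    have h3 : (p : ℝ) ^ μ * ((Fintype.card F : ℝ) ^ (r + 1) - (s.factorial : ℝ) * R) ≤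
        c * (Fintype.card F : ℝ) ^ (r + 1) :=
      (mul_le_mul_of_nonneg_left h2 hPpos.le).trans hcount
    have h4 : 2 * (c * (Fintype.card F : ℝ) ^ (r + 1)) ≤
        (p : ℝ) ^ μ * (Fintype.card F : ℝ) ^ (r + 1) := by
      rw [← mul_assoc]
      exact mul_le_mul_of_nonneg_right hP2 (by positivity)
    have h5 : (p : ℝ) ^ μ * (2 * ((Fintype.card F : ℝ) ^ (r + 1) - (s.factorial : ℝ) * R)) ≤
        (p : ℝ) ^ μ * (Fintype.card F : ℝ) ^ (r + 1) := by
      linarith
    have h6 := le_of_mul_le_mul_left h5 hPpos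
    linarith
  have h2 : (R : ℝ) ≤ ((pts f B).card : ℝ) * (Fintype.card F : ℝ) ^ r := by
    exact_mod_cast hupper
  have h3 : (Fintype.card F : ℝ) ^ r * (Fintype.card F : ℝ) ≤
      (Fintype.card F : ℝ) ^ r * (4 * (s.factorial : ℝ) * ((pts f B).card : ℝ)) := by
    have h4 : (s.factorial : ℝ) * R ≤ (s.factorial : ℝ) *
        (((pts f B).card : ℝ) * (Fintype.card F : ℝ) ^ r) :=
      mul_le_mul_of_nonneg_left h2 (Nat.cast_nonneg _)
    rw [pow_succ] at h1
    have h5 : (0 : ℝ) ≤ (s.factorial : ℝ) * (((pts f B).card : ℝ) * (Fintype.card F : ℝ) ^ r) := by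
      positivity
    nlinarith
  have h4 := le_of_mul_le_mul_left h3 (pow_pos hQpos _)
  exact_mod_cast h4

end MPb197b4E
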