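import Pool.Agent.Lib.MP_b197b4_ntE.EG2
import Pool.Agent.Lib.MP_b197b4_ntE.EH

/-!
# Leaf EI: equidistribution
-/

set_option autoImplicit false

noncomputable section

namespace MPb197b4E

open Polynomial Finset

/-- the points of `pts f B` on a split member through `y` and the base points -/
theorem EI_card_pts {F : Type} [Field F] [Fintype F] [DecidableEq F] {m D : ℕ} (hD : 2 ≤ D)
    (hm : D + 5 ≤ m) {f : F[X][X]} (hf : Wt m D f) {B : Finset (F × F)} (hB : Base f B)
    (hBD : B.card + 1 = D) {y : F × F} (hy : y ∈ pts f B) {q : F[X]} (hq : q.natDegree ≤ m)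
    (hqM : ∀ b ∈ insert y B, q.eval b.1 = b.2) (hqs : Split (m * D) (f.eval q)) :
    (((pts f B).erase y).filter fun y' => q.eval y'.1 = y'.2).card = m * D - D := by
  classical
  have hdeg : (f.eval q).natDegree ≤ m * D := (eval_wt hf hq).1
  have hn : 0 < m * D := Nat.mul_pos (by omega) (by omega)
  have hy' : evalEval y.1 y.2 f = 0 ∧ (fX f y.1 y.2 ≠ 0 ∨ fY f y.1 y.2 ≠ 0) ∧
      ∀ b ∈ B, b.1 ≠ y.1 := by
    have h1 := hy
    unfold pts at h1
    exact (Finset.mem_filter.1 h1).2
  have hne : f.eval q ≠ 0 := by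
    intro h0
    unfold Split at hqs
    rw [h0, roots_zero, Multiset.toFinset_zero, Finset.card_empty] at hqs
    omega
  have hroot : ∀ a, a ∈ (f.eval q).roots.toFinset ↔ (f.eval q).eval a = 0 := by
    intro a
    rw [Multiset.mem_toFinset, mem_roots hne]
    rfl
  -- the marked points
  have hMon : ∀ b ∈ insert y B, evalEval b.1 b.2 f = 0 := by
    intro b hb
    rcases Finset.mem_insert.1 hb with h | h
    · rw [h]
      exact hy'.1
    · exact hB.on b h
  have hinj : Set.InjOn Prod.fst (↑(insert y B) : Set (F × F)) := by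
    intro b hb b' hb' h
    rw [Finset.mem_coe] at hb hb'
    rcases Finset.mem_insert.1 hb with h1 | h1 <;> rcases Finset.mem_insert.1 hb' with h2 | h2
    · rw [h1, h2]
    · exact absurd (by rw [← h, h1]) (hy'.2.2 b' h2)
    · exact absurd (by rw [h, h2]) (hy'.2.2 b h1)
    · exact hB.inj b h1 b' h2 h
  have hyB : y ∉ B := fun h => hy'.2.2 y h rfl
  have hcardM : ((insert y B).image Prod.fst).card = D := by
    rw [Finset.card_image_of_injOn hinj, Finset.card_insert_of_notMem hyB, hBD]
  have hsub : (insert y B).image Prod.fst ⊆ (f.eval q).roots.toFinset := by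
    intro a ha
    obtain ⟨b, hb, rfl⟩ := Finset.mem_image.1 ha
    rw [hroot, eval_eval_eq, hqM b hb]
    exact hMon b hb
  have himg : ((pts f B).erase y).filter (fun y' => q.eval y'.1 = y'.2) =
      ((f.eval q).roots.toFinset \ (insert y B).image Prod.fst).image fun a => (a, q.eval a) := by
    ext z
    rw [Finset.mem_filter, Finset.mem_erase, Finset.mem_image]
    constructor
    · rintro ⟨⟨hzy, hz⟩, hzq⟩
      unfold pts at hz
      obtain ⟨-, hz1, -, hz3⟩ := Finset.mem_filter.1 hz
      refine ⟨z.1, ?_, ?_⟩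
      · rw [Finset.mem_sdiff]
        refine ⟨?_, ?_⟩
        · rw [hroot, eval_eval_eq, hzq]
          exact hz1
        · intro hz4
          obtain ⟨b, hb, hb1⟩ := Finset.mem_image.1 hz4
          rcases Finset.mem_insert.1 hb with h | h
          · refine hzy (Prod.ext ?_ ?_)
            · rw [← hb1, h]
            · rw [← hzq, ← hb1, h]
              exact hqM y (Finset.mem_insert_self y B)
          · exact hz3 b h hb1
      · rw [hzq]
    · rintro ⟨a, ha, rfl⟩
      rw [Finset.mem_sdiff] at ha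
      obtain ⟨ha1, ha2⟩ := ha
      have ha0 := (hroot a).1 ha1
      refine ⟨⟨?_, ?_⟩, rfl⟩
      · intro h
        refine ha2 (Finset.mem_image.2 ⟨y, Finset.mem_insert_self y B, ?_⟩)
        rw [← h]
      · unfold pts
        refine Finset.mem_filter.2 ⟨Finset.mem_univ _, ?_, ?_, ?_⟩
        · rw [← eval_eval_eq]
          exact ha0
        · exact Split.regular hn hqs hdeg ha0
        · intro b hb h
          exact ha2 (Finset.mem_image.2 ⟨b, Finset.mem_insert_of_mem hb, h⟩)
  have hi : Function.Injective fun a : F => (a, q.eval a) := fun a a' h => (Prod.ext_iff.1 h).1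
  rw [himg, Finset.card_image_of_injective _ hi, Finset.card_sdiff_of_subset hsub, hcardM]
  unfold Split at hqs
  rw [hqs]

/-- `(s + 1) N1(y) = ∑ N2(y, y')`: the members through `y` and the base points have `s + 1` other points,
all of them in `pts f B` (`Split.regular`). -/
theorem sum_cnt {F : Type} [Field F] [Fintype F] [DecidableEq F] {m D : ℕ} (hD : 2 ≤ D)
    (hm : D + 5 ≤ m) {f : F[X][X]} (hf : Wt m D f) {B : Finset (F × F)} (hB : Base f B)
    (hBD : B.card + 1 = D) {y : F × F} (hy : y ∈ pts f B) :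
    ∑ y' ∈ (pts f B).erase y, cnt m D f (insert y' (insert y B)) =
      (m * D - D) * cnt m D f (insert y B) := by
  classical
  have h1 : ∀ y' : F × F, cnt m D f (insert y' (insert y B)) =
      ∑ q ∈ (pol F (m + 1)).filter fun q => (∀ b ∈ insert y B, q.eval b.1 = b.2) ∧
        Split (m * D) (f.eval q), if q.eval y'.1 = y'.2 then 1 else 0 := by
    intro y'
    unfold cnt
    rw [← Finset.card_filter, Finset.filter_filter]
    congr 1
    ext q
    rw [Finset.mem_filter, Finset.mem_filter, Finset.forall_mem_insert]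
    tauto
  have h2 : (m * D - D) * cnt m D f (insert y B) =
      ∑ q ∈ (pol F (m + 1)).filter fun q => (∀ b ∈ insert y B, q.eval b.1 = b.2) ∧
        Split (m * D) (f.eval q), (m * D - D) := by
    unfold cnt
    rw [Finset.sum_const, smul_eq_mul, mul_comm]
  rw [h2, Finset.sum_congr rfl fun y' _ => h1 y', Finset.sum_comm]
  refine Finset.sum_congr rfl fun q hq => ?_
  rw [Finset.mem_filter] at hq
  obtain ⟨hq1, hq2, hq3⟩ := hq
  rw [← Finset.card_filter]
  refine EI_card_pts hD hm hf hB hBD hy ?_ hq2 hq3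
  rw [mem_pol] at hq1
  by_cases h0 : q = 0
  · rw [h0, natDegree_zero]
    omega
  · exact Nat.lt_succ_iff.1 ((natDegree_lt_iff_degree_lt h0).2 hq1)

/-- the points over one `x` -/
theorem EI_fibre {F : Type} [Field F] [Fintype F] [DecidableEq F] {m D : ℕ} {f : F[X][X]}
    (hf : Wt m D f) (B : Finset (F × F)) (x : F) :
    ((pts f B).filter fun y => y.1 = x).card ≤ D := by
  classical
  have hmon : (f.map (evalRingHom x)).Monic := hf.monic.map _
  have hdeg : (f.map (evalRingHom x)).natDegree = D := by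
    rw [hf.monic.natDegree_map, hf.deg]
  have h1 : ((pts f B).filter fun y => y.1 = x).card ≤ (f.map (evalRingHom x)).roots.toFinset.card := by
    refine Finset.card_le_card_of_injOn Prod.snd ?_ ?_
    · intro y hy
      rw [Finset.mem_coe, Finset.mem_filter] at hy
      obtain ⟨hy1, hy2⟩ := hy
      unfold pts at hy1
      have hy3 := (Finset.mem_filter.1 hy1).2.1
      rw [Finset.mem_coe, Multiset.mem_toFinset, mem_roots hmon.ne_zero, IsRoot, ← hy2]
      rw [map_evalRingHom_eval]
      exact hy3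
    · intro y hy z hz h
      rw [Finset.mem_coe, Finset.mem_filter] at hy hz
      exact Prod.ext (by rw [hy.2, hz.2]) h
  refine h1.trans ?_
  refine (Multiset.toFinset_card_le _).trans ?_
  rw [← hdeg]
  exact card_roots' _

/-- no member contains two points over the same `x` -/
theorem EI_cnt_zero {F : Type} [Field F] [Fintype F] [DecidableEq F] (m D : ℕ) (f : F[X][X])
    (B : Finset (F × F)) {y y' : F × F} (hne : y' ≠ y) (hx : y'.1 = y.1) :
    cnt m D f (insert y' (insert y B)) = 0 := by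
  classical
  unfold cnt
  rw [Finset.card_eq_zero, Finset.filter_eq_empty_iff]
  rintro q - ⟨h, -⟩
  refine hne (Prod.ext hx ?_)
  have h1 := h y' (Finset.mem_insert_self _ _)
  have h2 := h y (Finset.mem_insert_of_mem (Finset.mem_insert_self _ _))
  rw [← h1, ← h2, hx]

/-- two points over different `x` and the base points -/
theorem EI_base {F : Type} [Field F] [Fintype F] [DecidableEq F] {f : F[X][X]} {B : Finset (F × F)}
    (hB : Base f B) {y y' : F × F} (hy : y ∈ pts f B) (hy' : y' ∈ pts f B) (hx : y'.1 ≠ y.1) :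
    Base f (insert y' (insert y B)) ∧ (insert y' (insert y B)).card = B.card + 2 := by
  classical
  have h1 : evalEval y.1 y.2 f = 0 ∧ (fX f y.1 y.2 ≠ 0 ∨ fY f y.1 y.2 ≠ 0) ∧
      ∀ b ∈ B, b.1 ≠ y.1 := by
    unfold pts at hy
    exact (Finset.mem_filter.1 hy).2
  have h2 : evalEval y'.1 y'.2 f = 0 ∧ (fX f y'.1 y'.2 ≠ 0 ∨ fY f y'.1 y'.2 ≠ 0) ∧
      ∀ b ∈ B, b.1 ≠ y'.1 := by
    unfold pts at hy'
    exact (Finset.mem_filter.1 hy').2
  have hyB : y ∉ B := fun h => h1.2.2 y h rfl
  have hy'B : y' ∉ B := fun h => h2.2.2 y' h rfl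
  have hyy : y' ∉ insert y B := by
    intro h
    rcases Finset.mem_insert.1 h with h3 | h3
    · exact hx (by rw [h3])
    · exact hy'B h3
  refine ⟨⟨?_, ?_, ?_, ?_⟩, ?_⟩
  · intro b hb b' hb' h
    rcases Finset.mem_insert.1 hb with h3 | h3
    · rcases Finset.mem_insert.1 hb' with h4 | h4
      · rw [h3, h4]
      · rcases Finset.mem_insert.1 h4 with h5 | h5
        · exact absurd (by rw [← h3, h, h5]) hx
        · exact absurd (by rw [← h, h3]) (h2.2.2 b' h5)
    · rcases Finset.mem_insert.1 h3 with h5 | h5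
      · rcases Finset.mem_insert.1 hb' with h4 | h4
        · exact absurd (by rw [← h4, ← h, h5]) hx
        · rcases Finset.mem_insert.1 h4 with h6 | h6
          · rw [h5, h6]
          · exact absurd (by rw [← h, h5]) (h1.2.2 b' h6)
      · rcases Finset.mem_insert.1 hb' with h4 | h4
        · exact absurd (by rw [h, h4]) (h2.2.2 b h5)
        · rcases Finset.mem_insert.1 h4 with h6 | h6
          · exact absurd (by rw [h, h6]) (h1.2.2 b h5)
          · exact hB.inj b h5 b' h6 h
  · intro b hb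
    rcases Finset.mem_insert.1 hb with h3 | h3
    · rw [h3]; exact h2.1
    · rcases Finset.mem_insert.1 h3 with h5 | h5
      · rw [h5]; exact h1.1
      · exact hB.on b h5
  · intro b hb
    rcases Finset.mem_insert.1 hb with h3 | h3
    · rw [h3]; exact h2.2.1
    · rcases Finset.mem_insert.1 h3 with h5 | h5
      · rw [h5]; exact h1.2.1
      · exact hB.reg b h5
  · obtain ⟨b, hb, hb1⟩ := hB.ram
    exact ⟨b, Finset.mem_insert_of_mem (Finset.mem_insert_of_mem hb), hb1⟩
  · rw [Finset.card_insert_of_notMem hyy, Finset.card_insert_of_notMem hyB]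

/-- **Equidistribution.** `N1(y) ≥ a Q ^ (m + 1 - D)`; the sum over `y'` of `|s! N2(y, y') - Q ^ (m - D)|`
is at most `c Q ^ (m + 1 - D) / √Q`. For `y'` over the same `x` as `y` (at most `D`) `N2 = 0`. -/
theorem equidist (m D : ℕ) (hD : 2 ≤ D) (hm : D + 5 ≤ m) (hs : (m * D - (D + 1)).Prime) :
    ∃ (a c : ℝ) (Q₀ : ℕ), 0 < a ∧ 0 ≤ c ∧
    ∀ (p μ : ℕ) [Fact p.Prime] (F k : Type) [Field F] [Fintype F] [DecidableEq F] [Field k] [CharP k p]
    [IsAlgClosed k] [Algebra F k] (f : F[X][X]) (B : Finset (F × F)), Fintype.card F = p ^ (2 * μ) →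
    Q₀ < Fintype.card F → Wt m D f → Irreducible (f.map (mapRingHom (algebraMap F k))) → Base f B →
    B.card + 1 = D → ∀ y ∈ pts f B,
    a * (p : ℝ) ^ (2 * μ * (m + 1 - D)) ≤ (cnt m D f (insert y B) : ℝ) ∧
    (p : ℝ) ^ μ * ∑ y' ∈ (pts f B).erase y, |((m * D - (D + 1)).factorial : ℝ) *
      (cnt m D f (insert y' (insert y B)) : ℝ) - (p : ℝ) ^ (2 * μ * (m - D))| ≤
        c * (p : ℝ) ^ (2 * μ * (m + 1 - D)) := by
  classical
  obtain ⟨c₁, hc₁, hcnt⟩ := cnt_two m D hm hs
  obtain ⟨c₀, hge⟩ := card_pts_ge m D hD hm hs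
  set S : ℝ := ((m * D - (D + 1)).factorial : ℝ) with hS
  have hS1 : (1 : ℝ) ≤ S := by
    rw [hS]
    exact_mod_cast Nat.one_le_iff_ne_zero.2 (Nat.factorial_ne_zero _)
  set c : ℝ := c₁ * D + D with hc
  have hc0 : 0 ≤ c := by positivity
  set e : ℝ := ((m * D - D : ℕ) : ℝ) with he
  have hmD : 0 < m * D - D := by
    have : D * 2 ≤ m * D := by
      rw [mul_comm m D]
      exact Nat.mul_le_mul_left D (by omega)
    omega
  have he0 : 0 < e := by
    rw [he]
    exact_mod_cast hmD
  refine ⟨1 / (8 * S * S * e), c, max c₀ (max ⌈16 * S⌉₊ ⌈(16 * S * c) ^ 2⌉₊), by positivity, hc0, ?_⟩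
  intro p μ _ F k _ _ _ _ _ _ _ f B hcard hQ hf hirr hB hBD y hy
  set P : ℝ := (p : ℝ) ^ μ with hP
  have hp1 : (1 : ℝ) ≤ (p : ℝ) := by
    exact_mod_cast (Fact.out : p.Prime).one_lt.le
  have hP1 : 1 ≤ P := one_le_pow₀ hp1
  have hP0 : 0 < P := lt_of_lt_of_le one_pos hP1
  have hQP : ((Fintype.card F : ℕ) : ℝ) = P ^ 2 := by
    rw [hcard, hP]
    push_cast
    rw [← pow_mul, mul_comm]
  set R : ℝ := (p : ℝ) ^ (2 * μ * (m - D)) with hR
  have hR0 : 0 < R := by
    rw [hR]
    exact pow_pos (lt_of_lt_of_le one_pos hp1) _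
  have hR1 : (p : ℝ) ^ (2 * μ * (m + 1 - D)) = P ^ 2 * R := by
    rw [hP, hR, ← pow_mul, ← pow_add]
    congr 1
    have : m + 1 - D = m - D + 1 := by omega
    rw [this]
    ring
  -- the upper bound
  have hterm : ∀ y' ∈ (pts f B).erase y, P * |S * (cnt m D f (insert y' (insert y B)) : ℝ) - R| ≤
      c₁ * R + if y'.1 = y.1 then P * R else 0 := by
    intro y' hy'
    obtain ⟨hne, hy'1⟩ := Finset.mem_erase.1 hy'
    by_cases hx : y'.1 = y.1
    · rw [if_pos hx, EI_cnt_zero m D f B hne hx, Nat.cast_zero, mul_zero, zero_sub, abs_neg,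
        abs_of_pos hR0]
      have : 0 ≤ c₁ * R := by positivity
      linarith
    · rw [if_neg hx, add_zero]
      obtain ⟨h1, h2⟩ := EI_base hB hy hy'1 hx
      exact hcnt p μ F k f _ hcard hf hirr h1 (by rw [h2, ← hBD])
  have hup : P * ∑ y' ∈ (pts f B).erase y, |S * (cnt m D f (insert y' (insert y B)) : ℝ) - R| ≤
      c * (P ^ 2 * R) := by
    rw [Finset.mul_sum]
    refine (Finset.sum_le_sum hterm).trans ?_
    rw [Finset.sum_add_distrib, Finset.sum_const, nsmul_eq_mul, ← Finset.sum_filter, Finset.sum_const,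
      nsmul_eq_mul]
    have h1 : (((pts f B).erase y).card : ℝ) ≤ D * P ^ 2 := by
      rw [← hQP]
      exact_mod_cast (Finset.card_le_card (Finset.erase_subset _ _)).trans (card_pts_le hf B)
    have h2 : ((((pts f B).erase y).filter fun y' => y'.1 = y.1).card : ℝ) ≤ D := by
      exact_mod_cast (Finset.card_le_card
        (Finset.filter_subset_filter _ (Finset.erase_subset _ _))).trans (EI_fibre hf B y.1)
    have h3 : (((pts f B).erase y).card : ℝ) * (c₁ * R) ≤ D * P ^ 2 * (c₁ * R) :=
      mul_le_mul_of_nonneg_right h1 (by positivity)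
    have h4 : ((((pts f B).erase y).filter fun y' => y'.1 = y.1).card : ℝ) * (P * R) ≤
        D * (P ^ 2 * R) := by
      refine (mul_le_mul_of_nonneg_right h2 (by positivity)).trans ?_
      refine mul_le_mul_of_nonneg_left ?_ (by positivity)
      refine mul_le_mul_of_nonneg_right ?_ hR0.le
      rw [pow_two]
      exact le_mul_of_one_le_left hP0.le hP1
    have h5 : c * (P ^ 2 * R) = D * P ^ 2 * (c₁ * R) + D * (P ^ 2 * R) := by
      rw [hc]
      ring
    rw [h5]
    exact add_le_add h3 h4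
  refine ⟨?_, by rw [hR1]; exact hup⟩
  -- the lower bound
  rw [hR1]
  have hsum := sum_cnt hD hm hf hB hBD hy
  have hsumR : ∑ y' ∈ (pts f B).erase y, (cnt m D f (insert y' (insert y B)) : ℝ) =
      e * (cnt m D f (insert y B) : ℝ) := by
    rw [he]
    exact_mod_cast hsum
  have hlow : (((pts f B).erase y).card : ℝ) * R - S * (e * (cnt m D f (insert y B) : ℝ)) ≤
      ∑ y' ∈ (pts f B).erase y, |S * (cnt m D f (insert y' (insert y B)) : ℝ) - R| := by
    rw [← hsumR, Finset.mul_sum, ← nsmul_eq_mul, ← Finset.sum_const, ← Finset.sum_sub_distrib]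
    refine Finset.sum_le_sum fun y' _ => ?_
    rw [abs_sub_comm]
    exact le_abs_self _
  have hQ1 : c₀ < Fintype.card F := lt_of_le_of_lt (le_max_left _ _) hQ
  have hQ2 : 16 * S ≤ P ^ 2 := by
    rw [← hQP]
    refine (Nat.le_ceil _).trans ?_
    exact_mod_cast ((le_max_left _ _).trans (le_max_right c₀ _)).trans hQ.le
  have hQ3 : 16 * S * c ≤ P := by
    have h1 : (16 * S * c) ^ 2 ≤ P ^ 2 := by
      rw [← hQP]
      refine (Nat.le_ceil _).trans ?_
      exact_mod_cast ((le_max_right _ _).trans (le_max_right c₀ _)).trans hQ.le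
    exact (pow_le_pow_iff_left₀ (by positivity) hP0.le two_ne_zero).1 h1
  have hpts : P ^ 2 ≤ 4 * S * ((pts f B).card : ℝ) := by
    rw [← hQP, hS]
    exact_mod_cast hge p μ F k f B hcard hQ1 hf hirr hB hBD
  have hcerase : (((pts f B).erase y).card : ℝ) = ((pts f B).card : ℝ) - 1 := by
    have h1 := Finset.card_erase_add_one hy
    have h2 : (((pts f B).erase y).card : ℝ) + 1 = ((pts f B).card : ℝ) := by exact_mod_cast h1
    linarith
  rw [hcerase] at hlow
  -- arithmetic
  set N : ℝ := (cnt m D f (insert y B) : ℝ) with hN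
  set n : ℝ := ((pts f B).card : ℝ) with hn
  set E : ℝ := ∑ y' ∈ (pts f B).erase y, |S * (cnt m D f (insert y' (insert y B)) : ℝ) - R| with hE
  have hS0 : 0 < S := by linarith
  have hE1 : 16 * S * E ≤ P ^ 2 * R := by
    by_cases hc' : c = 0
    · rw [hc', zero_mul] at hup
      have : E ≤ 0 := by
        by_contra h
        have := mul_pos hP0 (not_le.1 h)
        linarith
      have h1 : 16 * S * E ≤ 0 := mul_nonpos_of_nonneg_of_nonpos (by positivity) this
      exact h1.trans (by positivity)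
    · have hE0 : 0 ≤ E := by
        rw [hE]
        exact Finset.sum_nonneg fun _ _ => abs_nonneg _
      have h1 : 16 * S * c * E ≤ P * E := mul_le_mul_of_nonneg_right hQ3 hE0
      have h2 : 16 * S * c * E ≤ c * (P ^ 2 * R) := h1.trans hup
      have hcp : 0 < c := lt_of_le_of_ne hc0 (Ne.symm hc')
      have h3 : c * (16 * S * E) ≤ c * (P ^ 2 * R) := by
        calc c * (16 * S * E) = 16 * S * c * E := by ring
          _ ≤ _ := h2
      exact le_of_mul_le_mul_left h3 hcp
  have h1 : (n - 1) * R - S * (e * N) ≤ E := hlow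
  have h2 : P ^ 2 * R ≤ 4 * S * n * R := mul_le_mul_of_nonneg_right hpts hR0.le
  have h3 : 16 * S * R ≤ P ^ 2 * R := mul_le_mul_of_nonneg_right hQ2 hR0.le
  have h4 : P ^ 2 * R ≤ 8 * S * S * e * N := by
    have h5 : 16 * S * ((n - 1) * R - S * (e * N)) ≤ 16 * S * E :=
      mul_le_mul_of_nonneg_left h1 (by positivity)
    nlinarith
  rw [div_mul_eq_mul_div, one_mul, div_le_iff₀ (by positivity)]
  calc P ^ 2 * R ≤ 8 * S * S * e * N := h4
    _ = N * (8 * S * S * e) := by ring

end MPb197b4E
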