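import Pool.Agent.Lib.MP_b197b4_ntP.Graph
import Pool.Agent.Lib.MP_b197b4_ntE.EI

/-!
# Leaf EJ: the second moment argument for the graph family, with the equidistribution plugged in
-/

set_option autoImplicit false

noncomputable section

namespace MPb197b4E

open Polynomial Finset MPb197b4P

section Count

variable {F : Type} [Field F] [Fintype F] [DecidableEq F] {m : ℕ}

open Classical in
/-- the blocks in the curve `h` through given points correspond to the polynomials `q` -/
theorem card_block (h : degreeLT F (m + 1) × F) (n : ℕ) (f : F[X][X]) (M : Finset (F × F))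
    (s : Finset (degreeLT F (m + 1) × degreeLT F (m + 1)))
    (hs : ∀ l, l ∈ s ↔ Inc l h ∧ (∀ b ∈ M, (l.1 : F[X]).eval b.1 = b.2) ∧
      Split n (f.eval (l.1 : F[X]))) :
    s.card = ((pol F (m + 1)).filter fun q => (∀ b ∈ M, q.eval b.1 = b.2) ∧
      Split n (f.eval q)).card := by
  refine card_bij (fun l _ => (l.1 : F[X])) ?_ ?_ ?_
  · intro l hl
    obtain ⟨-, h2, h3⟩ := (hs l).mp hl
    exact mem_filter.mpr ⟨mem_pol.mpr (mem_degreeLT.mp l.1.2), h2, h3⟩
  · intro l hl l' hl' he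
    obtain ⟨h1, -⟩ := (hs l).mp hl
    obtain ⟨h2, -⟩ := (hs l').mp hl'
    have e3 : l.1 = l'.1 := Subtype.ext he
    have e1 : l.2 = h.1 + h.2 • l.1 := h1
    have e2 : l'.2 = h.1 + h.2 • l'.1 := h2
    exact Prod.ext e3 (by rw [e1, e2, e3])
  · intro q hq
    obtain ⟨h1, h2, h3⟩ := mem_filter.mp hq
    let q' : degreeLT F (m + 1) := ⟨q, mem_degreeLT.mpr (mem_pol.mp h1)⟩
    exact ⟨(q', h.1 + h.2 • q'), (hs _).mpr ⟨rfl, h2, h3⟩, rfl⟩

end Count

/-- the projections of the base points -/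
def baseSet {F : Type} [DecidableEq F] {j : ℕ} (base : Fin j → F × F × F) : Finset (F × F) :=
  univ.image fun i => ((base i).1, (base i).2.1)

open Classical in
/-- **The second moment argument with the equidistribution plugged in.** -/
theorem bridge (m D : ℕ) (hD : 2 ≤ D) (hm : D + 5 ≤ m) (hs : (m * D - (D + 1)).Prime) (C₀ : ℝ) :
    ∃ Q₁ : ℕ, ∀ (p μ : ℕ) [Fact p.Prime] (F k : Type) [Field F] [Fintype F] [DecidableEq F]
    [Field k] [CharP k p] [IsAlgClosed k] [Algebra F k], Fintype.card F = p ^ (2 * μ) →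
    Q₁ < Fintype.card F →
    ∀ (base : Fin (D - 1) → F × F × F) (_ : Function.Injective fun i => (base i).1)
      (S : F × F × F → Prop) (_ : ∀ p, S p → ∀ i, p.1 ≠ (base i).1)
      (good : degreeLT F (m + 1) × F → Prop) (f : degreeLT F (m + 1) × F → F[X][X])
      (_ : ∀ h, good h → (∀ i, OnC (base i) h) ∧ Wt m D (f h) ∧
        Irreducible ((f h).map (mapRingHom (algebraMap F k))) ∧ Base (f h) (baseSet base))
      (reg : F × F × F → degreeLT F (m + 1) × F → Prop)
      (_ : ∀ h p, good h → OnC p h → (S p ∧ reg p h ↔ (p.1, p.2.1) ∈ pts (f h) (baseSet base)))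
      (spl : Finset (degreeLT F (m + 1) × degreeLT F (m + 1)))
      (_ : ∀ l ∈ spl, ∀ i, OnB (base i) l)
      (_ : ∀ h l, good h → Inc l h →
        (l ∈ spl ↔ (∀ i, OnB (base i) l) ∧ Split (m * D) ((f h).eval (l.1 : F[X]))))
      (_ : ∀ l ∈ spl, ∀ h p, good h → Inc l h → S p → OnB p l → reg p h)
      (_ : ∀ l ∈ spl, ((univ.filter fun p => S p ∧ OnB p l).card : ℝ) ≤ (m * D : ℕ))
      (_ : ∀ l ∈ spl, ∀ h, good h → Inc l h →
        (Fintype.card F : ℝ) - C₀ ≤ ((univ.filter fun h => good h ∧ Inc l h).card : ℝ))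
      (g : degreeLT F (m + 1) × F → F × F × F → ℝ)
      (_ : ∀ l ∈ spl, ∀ h h', good h → good h' → Inc l h → Inc l h' →
        ∑ p ∈ univ.filter (fun p => S p ∧ OnB p l), g h p =
          ∑ p ∈ univ.filter (fun p => S p ∧ OnB p l), g h' p),
    ∃ hh : F × F × F → ℝ, ∀ h p, good h → S p → OnC p h → reg p h → g h p = hh p := by
  obtain ⟨a, c, Q₀, ha, hc, hE⟩ := equidist m D hD hm hs
  set X₀ : ℝ := 4 * (1 + c) / a + 2 * |C₀| + 4 * (m * D + 1) / a + 1 with hX₀
  obtain ⟨Q₁, hQ₁⟩ := exists_nat_ge (X₀ ^ 2)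
  refine ⟨max Q₀ Q₁, ?_⟩
  intro p μ hp F k iF iT iD ik iC iA iAl hcard hbig base hb S hS good f hgood reg hpt spl hsb hspl
    hreg h4 h5 g hR
  have hQ0 : Q₀ < Fintype.card F := lt_of_le_of_lt (le_max_left _ _) hbig
  have hQ1 : Q₁ < Fintype.card F := lt_of_le_of_lt (le_max_right _ _) hbig
  -- the real number `x = √Q`
  set x : ℝ := (p : ℝ) ^ μ with hx
  have hQx : (Fintype.card F : ℝ) = x ^ 2 := by
    rw [hcard, hx, ← pow_mul, mul_comm 2 μ]
    push_cast
    ring
  have hppow : ∀ e : ℕ, (p : ℝ) ^ (2 * μ * e) = x ^ (2 * e) := by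
    intro e
    rw [hx, ← pow_mul]
    congr 1
    ring
  have hX₀1 : 1 ≤ X₀ := by
    have h1 : 0 ≤ 4 * (1 + c) / a := by positivity
    have h2 : 0 ≤ 4 * ((m : ℝ) * D + 1) / a := by positivity
    have h3 := abs_nonneg C₀
    rw [hX₀]
    linarith
  have hx0 : 0 ≤ x := by positivity
  have hxX : X₀ < x := by
    have h1 : X₀ ^ 2 < x ^ 2 := by
      rw [← hQx]
      exact lt_of_le_of_lt hQ₁ (by exact_mod_cast hQ1)
    exact lt_of_pow_lt_pow_left₀ 2 hx0 h1
  have hx1 : 1 < x := lt_of_le_of_lt hX₀1 hxX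
  have hBcard : (baseSet base).card + 1 = D := by
    have h1 : (baseSet base).card = D - 1 := by
      rw [baseSet, card_image_of_injective]
      · simp
      · intro i i' hii
        exact hb (Prod.mk.inj hii).1
    omega
  set s : ℕ := m * D - (D + 1) with hsdef
  have hsf : (1 : ℝ) ≤ (s.factorial : ℝ) := by exact_mod_cast Nat.factorial_pos s
  have hsf0 : (0 : ℝ) < (s.factorial : ℝ) := by linarith
  have hB0 : 0 ≤ x ^ (2 * (m - D)) / (s.factorial : ℝ) := by positivity
  -- the counts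
  have hcnt : ∀ h, good h → ∀ M : Finset (F × F),
      ∀ t : Finset (degreeLT F (m + 1) × degreeLT F (m + 1)),
      (∀ l, l ∈ t ↔ l ∈ spl ∧ Inc l h ∧ ∀ b ∈ M, (l.1 : F[X]).eval b.1 = b.2) →
      t.card = cnt m D (f h) (M ∪ baseSet base) := by
    intro h gh M t ht
    have e1 : cnt m D (f h) (M ∪ baseSet base) = ((pol F (m + 1)).filter fun q =>
        (∀ b ∈ M ∪ baseSet base, q.eval b.1 = b.2) ∧ Split (m * D) ((f h).eval q)).card := rfl
    rw [e1]
    refine card_block h (m * D) (f h) (M ∪ baseSet base) t fun l => ?_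
    rw [ht]
    constructor
    · rintro ⟨h1, h2, h3⟩
      obtain ⟨h6, h7⟩ := (hspl h l gh h2).mp h1
      refine ⟨h2, fun b hb' => ?_, h7⟩
      rcases mem_union.mp hb' with hb' | hb'
      · exact h3 b hb'
      · obtain ⟨i, -, rfl⟩ := mem_image.mp hb'
        exact (h6 i).1
    · rintro ⟨h1, h2, h3⟩
      refine ⟨(hspl h l gh h1).mpr ⟨fun i => ?_, h3⟩, h1, fun b hb' =>
        h2 b (mem_union_left _ hb')⟩
      exact h1.onB ((hgood h gh).1 i)
        (h2 ((base i).1, (base i).2.1) (mem_union_right _ (mem_image.mpr ⟨i, mem_univ _, rfl⟩)))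
  refine graph_rigid (m := m) (j := D - 1) (by omega) base hb S hS good
    (fun h gh => (hgood h gh).1) reg spl hsb hreg g
    (A := a * x ^ (2 * (m + 1 - D))) (B := x ^ (2 * (m - D)) / (s.factorial : ℝ))
    (E := c * x ^ (2 * (m + 1 - D)) / x) (M := (Fintype.card F : ℝ) - C₀) (n := (m * D : ℕ))
    ?_ (Nat.cast_nonneg _) hB0 ?_ ?_ ?_ ?_ ?_ ?_
  · -- `0 < M`
    rw [hQx]
    have h1 := le_abs_self C₀
    have h2 : 2 * |C₀| ≤ X₀ := by
      have h1 : 0 ≤ 4 * (1 + c) / a := by positivity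
      have h2 : 0 ≤ 4 * ((m : ℝ) * D + 1) / a := by positivity
      rw [hX₀]
      linarith
    nlinarith [abs_nonneg C₀]
  · intro l hl
    exact h4 l hl
  · intro l hl h gh hi
    exact h5 l hl h gh hi
  · intro l hl h h' g1 g2 i1 i2
    exact hR l hl h h' g1 g2 i1 i2
  · -- N1
    intro h gh q s1 o1 r1
    obtain ⟨w1, w2, w3, w4⟩ := hgood h gh
    have hy := (hpt h q gh o1).mp ⟨s1, r1⟩
    obtain ⟨e1, -⟩ := hE p μ F k (f h) (baseSet base) hcard hQ0 w2 w3 w4 hBcard _ hy
    rw [hppow] at e1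
    refine e1.trans (le_of_eq ?_)
    rw [Nat.cast_inj, insert_eq]
    symm
    refine hcnt h gh _ _ fun l => ?_
    rw [mem_filter]
    refine and_congr_right fun hl => and_congr_right fun hi => ?_
    constructor
    · intro hb' b hb2
      rw [mem_singleton] at hb2
      rw [hb2]
      exact hb'.1
    · intro hb'
      exact hi.onB o1 (hb' (q.1, q.2.1) (mem_singleton_self _))
  · -- N2
    intro h gh q s1 o1 r1
    obtain ⟨w1, w2, w3, w4⟩ := hgood h gh
    have hy := (hpt h q gh o1).mp ⟨s1, r1⟩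
    obtain ⟨-, e2⟩ := hE p μ F k (f h) (baseSet base) hcard hQ0 w2 w3 w4 hBcard _ hy
    rw [hppow, hppow] at e2
    -- the sum over the points of the curve
    have e3 : ∑ p' ∈ univ.filter (fun p' => (S p' ∧ OnC p' h ∧ reg p' h) ∧ p' ≠ q),
        |((spl.filter fun l => Inc l h ∧ OnB q l ∧ OnB p' l).card : ℝ) -
          x ^ (2 * (m - D)) / (s.factorial : ℝ)| =
        ∑ y' ∈ (pts (f h) (baseSet base)).erase (q.1, q.2.1),
          |(cnt m D (f h) (insert y' (insert (q.1, q.2.1) (baseSet base))) : ℝ) -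
            x ^ (2 * (m - D)) / (s.factorial : ℝ)| := by
      refine sum_bij (fun p' _ => (p'.1, p'.2.1)) ?_ ?_ ?_ ?_
      · intro p' hp'
        obtain ⟨-, ⟨s2, o2, r2⟩, hne⟩ := mem_filter.mp hp'
        refine mem_erase.mpr ⟨fun he => hne ?_, (hpt h p' gh o2).mp ⟨s2, r2⟩⟩
        have he1 : p'.1 = q.1 := (Prod.mk.inj he).1
        have he2 : p'.2.1 = q.2.1 := (Prod.mk.inj he).2
        refine Prod.ext he1 (Prod.ext he2 ?_)
        rw [show p'.2.2 = _ from o2, show q.2.2 = _ from o1, he1, he2]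
      · intro p' hp' p'' hp'' he
        obtain ⟨-, ⟨-, o2, -⟩, -⟩ := mem_filter.mp hp'
        obtain ⟨-, ⟨-, o3, -⟩, -⟩ := mem_filter.mp hp''
        have he1 : p'.1 = p''.1 := (Prod.mk.inj he).1
        have he2 : p'.2.1 = p''.2.1 := (Prod.mk.inj he).2
        refine Prod.ext he1 (Prod.ext he2 ?_)
        rw [show p'.2.2 = _ from o2, show p''.2.2 = _ from o3, he1, he2]
      · rintro ⟨u, v⟩ huv
        obtain ⟨hne, hmem⟩ := mem_erase.mp huv
        have o2 : OnC (u, v, (h.1 : F[X]).eval u + h.2 * v) h := rfl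
        obtain ⟨s2, r2⟩ := (hpt h _ gh o2).mpr hmem
        refine ⟨(u, v, (h.1 : F[X]).eval u + h.2 * v), mem_filter.mpr
          ⟨mem_univ _, ⟨s2, o2, r2⟩, fun he => hne ?_⟩, rfl⟩
        rw [← he]
      · intro p' hp'
        obtain ⟨-, ⟨s2, o2, r2⟩, hne⟩ := mem_filter.mp hp'
        congr 2
        rw [Nat.cast_inj, insert_eq, insert_eq (q.1, q.2.1), ← union_assoc]
        refine hcnt h gh _ _ fun l => ?_
        rw [mem_filter]
        refine and_congr_right fun hl => and_congr_right fun hi => ?_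
        constructor
        · rintro ⟨b1, b2⟩ b hb2
          rcases mem_union.mp hb2 with hb2 | hb2
          · rw [mem_singleton] at hb2
            rw [hb2]
            exact b2.1
          · rw [mem_singleton] at hb2
            rw [hb2]
            exact b1.1
        · intro hb'
          exact ⟨hi.onB o1 (hb' (q.1, q.2.1) (mem_union_right _ (mem_singleton_self _))),
            hi.onB o2 (hb' (p'.1, p'.2.1) (mem_union_left _ (mem_singleton_self _)))⟩
    have e4 : ∑ y' ∈ (pts (f h) (baseSet base)).erase (q.1, q.2.1),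
        |(cnt m D (f h) (insert y' (insert (q.1, q.2.1) (baseSet base))) : ℝ) -
          x ^ (2 * (m - D)) / (s.factorial : ℝ)| ≤
        ∑ y' ∈ (pts (f h) (baseSet base)).erase (q.1, q.2.1), |(s.factorial : ℝ) *
          (cnt m D (f h) (insert y' (insert (q.1, q.2.1) (baseSet base))) : ℝ) -
          x ^ (2 * (m - D))| := by
      refine sum_le_sum fun y' _ => ?_
      have e5 : (s.factorial : ℝ) *
          (cnt m D (f h) (insert y' (insert (q.1, q.2.1) (baseSet base))) : ℝ) -
          x ^ (2 * (m - D)) = (s.factorial : ℝ) *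
          ((cnt m D (f h) (insert y' (insert (q.1, q.2.1) (baseSet base))) : ℝ) -
          x ^ (2 * (m - D)) / (s.factorial : ℝ)) := by
        field_simp
      rw [e5, abs_mul, abs_of_pos hsf0]
      exact le_mul_of_one_le_left (abs_nonneg _) hsf
    rw [le_div_iff₀ (by linarith)]
    have e6 := e3.le.trans e4
    exact (mul_le_mul_of_nonneg_right e6 hx0).trans (le_trans (le_of_eq (mul_comm _ _)) e2)
  · -- the inequality
    have hD1 : m - (D - 1) = m + 1 - D := by omega
    rw [hD1, hQx]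
    set e : ℕ := m - D with he
    have he1 : m + 1 - D = e + 1 := by omega
    rw [he1, ← pow_mul]
    have hw : 0 < x ^ (2 * e) := by positivity
    have hxx : x ^ (2 * (e + 1)) = x ^ (2 * e) * x ^ 2 := by rw [mul_add, pow_add, mul_one]
    have hxpos : 0 < x := by linarith
    have h1 : x ^ (2 * e) / (s.factorial : ℝ) ≤ x ^ (2 * e) := div_le_self hw.le hsf
    have h2 : c * x ^ (2 * (e + 1)) / x = c * x * x ^ (2 * e) := by
      rw [hxx]
      field_simp
    rw [h2, hxx]
    have h1a : 0 ≤ 4 * (1 + c) / a := by positivity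
    have h2a : 0 ≤ 4 * ((m : ℝ) * D + 1) / a := by positivity
    have h3a := abs_nonneg C₀
    have h3 : 4 * (1 + c) / a ≤ x := by
      refine le_trans ?_ hxX.le
      rw [hX₀]
      linarith
    have h4' : 4 * ((m : ℝ) * D + 1) / a ≤ x := by
      refine le_trans ?_ hxX.le
      rw [hX₀]
      linarith
    have h5' : 2 * |C₀| ≤ x := by
      refine le_trans ?_ hxX.le
      rw [hX₀]
      linarith
    rw [div_le_iff₀ ha] at h3 h4'
    -- lower bound for the first factor
    have h6 : a / 2 * x ^ 2 * x ^ (2 * e) ≤ a * (x ^ (2 * e) * x ^ 2) -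
        x ^ (2 * e) / (s.factorial : ℝ) - c * x * x ^ (2 * e) := by
      have h7 : 1 + c * x ≤ a / 2 * x ^ 2 := by nlinarith
      nlinarith [mul_le_mul_of_nonneg_right h7 hw.le]
    have h8 : x ^ 2 / 2 ≤ x ^ 2 - C₀ := by
      have := le_abs_self C₀
      nlinarith
    have h9 : (((m * D : ℕ) : ℝ)) < a / 2 * (x ^ 2 / 2) := by
      push_cast
      nlinarith
    calc ((m * D : ℕ) : ℝ) * (x ^ (2 * e) * x ^ 2) = ((m * D : ℕ) : ℝ) * (x ^ 2 * x ^ (2 * e)) := by
          ring
      _ < a / 2 * (x ^ 2 / 2) * (x ^ 2 * x ^ (2 * e)) :=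
          mul_lt_mul_of_pos_right h9 (by positivity)
      _ = (a / 2 * x ^ 2 * x ^ (2 * e)) * (x ^ 2 / 2) := by ring
      _ ≤ _ := mul_le_mul h6 h8 (by positivity) (by
          refine le_trans ?_ h6
          positivity)

end MPb197b4E
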