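import Pool.Agent.Lib.MP_b197b4_ntE.SJ0
import Pool.Agent.Lib.MP_b197b4_ntE.EJ

/-!
# Leaf SJ1: step A over one finite field
-/

set_option autoImplicit false

noncomputable section

namespace MPb197b4E.SJ

open Polynomial Finset MPb197b4P

theorem mem_filt {ι : Type} {P : ι → Prop} (D : DecidablePred P) {s : Finset ι} {a : ι} :
    a ∈ @Finset.filter ι P D s ↔ a ∈ s ∧ P a := mem_filter

/-- the curves used, over a finite field `F` in the closed field `k` -/
structure GoodF {F : Type} [Field F] (k : Type) [Field k] [Algebra F k] (f : F[X][X][X]) (r e : ℕ)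
    (A : Set (F × F[X])) (κ : F) (α : F[X]) : Prop where
  deg : α.natDegree ≤ e
  lead : α.coeff e ≠ 0 ∨ (κ, α) ∈ A
  irr : Irreducible ((fib f κ α).map (mapRingHom (algebraMap F k)))
  top : (fib f κ α).natDegree = r
  sep : derivative (fib f κ α) ≠ 0

section Aux

variable {F : Type} [Field F] [Fintype F] [DecidableEq F]

omit [Fintype F] [DecidableEq F] in
theorem mem_degreeLT_succ {m : ℕ} {q : F[X]} : q ∈ degreeLT F (m + 1) ↔ q.natDegree ≤ m := by
  rw [mem_degreeLT, natDegree_le_iff_degree_le]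
  constructor
  · intro h
    rw [degree_le_iff_coeff_zero]
    intro j hj
    have hj' : m < j := by exact_mod_cast hj
    exact coeff_eq_zero_of_degree_lt (h.trans_le (by exact_mod_cast hj'))
  · intro h
    exact lt_of_le_of_lt h (by exact_mod_cast Nat.lt_succ_self m)

omit [Fintype F] [DecidableEq F] in
theorem incl_eq {m : ℕ} {l : degreeLT F (m + 1) × degreeLT F (m + 1)} {h : degreeLT F (m + 1) × F}
    (hi : Inc l h) : (l.2 : F[X]) = h.1 + C h.2 * (l.1 : F[X]) := by
  rw [hi]
  simp [smul_eq_C_mul]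

omit [Fintype F] [DecidableEq F] in
theorem incl_of_eq {m : ℕ} {l : degreeLT F (m + 1) × degreeLT F (m + 1)}
    {h : degreeLT F (m + 1) × F} (hi : (l.2 : F[X]) = h.1 + C h.2 * (l.1 : F[X])) : Inc l h := by
  refine Subtype.ext ?_
  rw [hi]
  simp [smul_eq_C_mul]

end Aux

/-- **Step A over one finite field.** -/
theorem stepF (r d e : ℕ) (hr : 2 ≤ r) (hd : 0 < d) (hde : d < e) (he : r + 5 ≤ e)
    (hs : (e * r - (r + 1)).Prime) : ∃ Q₁ : ℕ, ∀ (p μ : ℕ) [Fact p.Prime] (F k : Type) [Field F]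
    [Fintype F] [DecidableEq F] [Field k] [CharP k p] [IsAlgClosed k] [Algebra F k],
    Fintype.card F = p ^ (2 * μ) → Q₁ < Fintype.card F →
    ∀ (f : F[X][X][X]) (_ : f.Monic) (_ : f.natDegree = r)
      (_ : ∀ i j, (f.coeff j).coeff i ≠ 0 →
        ((f.coeff j).coeff i).natDegree + d * (i + j) ≤ d * r)
      (_ : Irreducible (f.map (mapRingHom (mapRingHom (algebraMap F k)))))
      (A : Set (F × F[X])) (G : F[X] → F[X] → ℝ) (g : F → F[X] → F × F → ℝ)
      (_ : ∀ κ α γ, GoodF k f r e A κ α → γ.natDegree ≤ e → Split (e * r) (cut f κ α γ) →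
        G γ (α + C κ * γ) = ∑ a ∈ (cut f κ α γ).roots.toFinset, g κ α (a, γ.eval a))
      (κ : F) (α : F[X]) (κ' : F) (α' : F[X]) (γ : F[X]), GoodF k f r e A κ α →
      GoodF k f r e A κ' α' → α + C κ * γ = α' + C κ' * γ → γ.natDegree ≤ e →
      Split (e * r) (cut f κ α γ) → ∀ u x y : F, (cut f κ α γ).eval u = 0 →
      (cut f κ α γ).eval x = 0 → (cut f κ α γ).eval y = 0 → x ≠ u → y ≠ u →
      fY (fib f κ α) u (γ.eval u) ≠ 0 → fY (fib f κ' α') u (γ.eval u) ≠ 0 →
      g κ α (x, γ.eval x) - g κ' α' (x, γ.eval x) = g κ α (y, γ.eval y) - g κ' α' (y, γ.eval y) := by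
  classical
  obtain ⟨Q₁, hQ⟩ := bridge e r hr he hs ((2 ^ (r * e) * (2 * r) + r + 2 : ℕ) : ℝ)
  refine ⟨Q₁, ?_⟩
  intro p μ hp F k iF iT iD ik iC iA iAl hcard hbig f hmon hdeg hwt hirr A G g hyp κ α κ' α' γ
    g1 g2 hγ hγe hsp u x y hu hx hy hxu hyu hr1 hr2
  set φ := algebraMap F k with hφ
  have hφi : Function.Injective φ := φ.injective
  have hn0 : 0 < e * r := Nat.mul_pos (by omega) (by omega)
  have hW : Bert.Wt3 e r f := Bert.Wt3_of_wt hd hde.le hwt
  have hr0 : 0 < r := by omega
  -- cut in terms of the block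
  have hcutB : ∀ (q δ : F[X]) (κ : F) (α : F[X]), δ = α + C κ * q →
      cut f κ α q = (f.eval (C δ)).eval q := by
    intro q δ κ α h
    rw [cut, fib_eval, h]
  -- the base
  set R : Finset F := (cut f κ α γ).roots.toFinset with hR
  have hcut0 : cut f κ α γ ≠ 0 := by
    intro h0
    have h1 : (cut f κ α γ).roots.toFinset.card = e * r := hsp
    rw [h0, roots_zero, Multiset.toFinset_zero, card_empty] at h1
    omega
  have hRmem : ∀ a, a ∈ R ↔ (cut f κ α γ).eval a = 0 := by
    intro a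
    rw [hR, Multiset.mem_toFinset, mem_roots hcut0]
    rfl
  have hRcard : R.card = e * r := hsp
  have huR := (hRmem u).mpr hu
  have hxR := (hRmem x).mpr hx
  have hyR := (hRmem y).mpr hy
  obtain ⟨T, hT1, hT2, hT3⟩ : ∃ T : Finset F, u ∈ T ∧ T ⊆ R ∧ T.card = r - 1 ∧ x ∉ T ∧ y ∉ T := by
    have h1 : ({u} : Finset F) ⊆ (R.erase x).erase y := by
      intro a ha
      rw [mem_singleton] at ha
      rw [ha]
      exact mem_erase.mpr ⟨hyu.symm, mem_erase.mpr ⟨hxu.symm, huR⟩⟩
    have h2 : r - 1 ≤ ((R.erase x).erase y).card := by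
      have h3 : e * r ≤ ((R.erase x).erase y).card + 2 := by
        have h4 := card_erase_of_mem hxR
        have h5 : (R.erase x).card ≤ ((R.erase x).erase y).card + 1 := by
          exact Nat.sub_le_iff_le_add.mp (pred_card_le_card_erase (s := R.erase x) (a := y))
        omega
      have h6 : 7 * r ≤ e * r := Nat.mul_le_mul_right r (by omega)
      omega
    obtain ⟨T, h3, h4, h5⟩ := exists_subsuperset_card_eq h1 (by rw [card_singleton]; omega) h2
    refine ⟨T, h3 (mem_singleton_self u), fun a ha => ?_, h5, fun h => ?_, fun h => ?_⟩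
    · exact mem_of_mem_erase (mem_of_mem_erase (h4 ha))
    · exact (mem_erase.mp (mem_erase.mp (h4 h)).2).1 rfl
    · exact (mem_erase.mp (h4 h)).1 rfl
  obtain ⟨hTc, hxT, hyT⟩ := hT3
  set δ : F[X] := α + C κ * γ with hδ
  have hδe : δ.natDegree ≤ e := by
    refine (natDegree_add_le _ _).trans (max_le g1.deg ?_)
    exact (natDegree_C_mul_le _ _).trans hγe
  let eT : Fin (r - 1) ≃ T := (equivFinOfCardEq hTc).symm
  set base : Fin (r - 1) → F × F × F := fun i => ((eT i : F), γ.eval (eT i : F), δ.eval (eT i : F))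
    with hbase
  have hb : Function.Injective fun i => (base i).1 := by
    intro i i' h
    exact eT.injective (Subtype.ext h)
  have hbT : ∀ a, a ∈ T ↔ ∃ i, (base i).1 = a := by
    intro a
    constructor
    · intro ha
      exact ⟨eT.symm ⟨a, ha⟩, by simp [hbase]⟩
    · rintro ⟨i, rfl⟩
      exact (eT i).2
  have hbB : ∀ b, b ∈ baseSet base ↔ b.1 ∈ T ∧ b.2 = γ.eval b.1 := by
    intro b
    rw [baseSet, mem_image]
    constructor
    · rintro ⟨i, -, rfl⟩
      exact ⟨(eT i).2, rfl⟩
    · rintro ⟨h1, h2⟩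
      obtain ⟨i, hi⟩ := (hbT b.1).mp h1
      refine ⟨i, mem_univ _, Prod.ext hi ?_⟩
      rw [h2, ← hi]
  -- the data
  set S : F × F × F → Prop := fun p => ev3 f p.1 p.2.1 p.2.2 = 0 ∧ ∀ i, p.1 ≠ (base i).1 with hS
  set ff : degreeLT F (e + 1) × F → F[X][X] := fun h => nfib f r h.2 h.1 with hff
  set good : degreeLT F (e + 1) × F → Prop := fun h => GoodF k f r e A h.2 h.1 ∧
    (∀ i, OnC (base i) h) ∧ Base (ff h) (baseSet base) with hgood
  set reg : F × F × F → degreeLT F (e + 1) × F → Prop := fun p h =>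
    fX (ff h) p.1 p.2.1 ≠ 0 ∨ fY (ff h) p.1 p.2.1 ≠ 0 with hreg
  set spl : Finset (degreeLT F (e + 1) × degreeLT F (e + 1)) := univ.filter fun l =>
    (∀ i, OnB (base i) l) ∧ Split (e * r) ((f.eval (C (l.2 : F[X]))).eval (l.1 : F[X])) with hspl
  have hspl' : ∀ l, l ∈ spl ↔ (∀ i, OnB (base i) l) ∧
      Split (e * r) ((f.eval (C (l.2 : F[X]))).eval (l.1 : F[X])) := by
    intro l
    rw [hspl, mem_filter]
    exact ⟨fun h => h.2, fun h => ⟨mem_univ _, h⟩⟩
  -- scalars
  have hc0 : ∀ h : degreeLT F (e + 1) × F, GoodF k f r e A h.2 h.1 →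
      (((fib f h.2 h.1).coeff r).coeff 0)⁻¹ ≠ 0 := fun h hg =>
    inv_ne_zero (lead_fib hdeg hW hr0 hg.top).1
  have hffeval : ∀ (h : degreeLT F (e + 1) × F) (l : degreeLT F (e + 1) × degreeLT F (e + 1)),
      Inc l h → (ff h).eval (l.1 : F[X]) = C ((((fib f h.2 h.1).coeff r).coeff 0)⁻¹) *
        ((f.eval (C (l.2 : F[X]))).eval (l.1 : F[X])) := by
    intro h l hi
    rw [hff]
    simp only
    rw [nfib, eval_mul, eval_C, ← hcutB _ _ h.2 h.1 (incl_eq hi), cut]
  have hsplitff : ∀ h : degreeLT F (e + 1) × F, GoodF k f r e A h.2 h.1 →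
      ∀ l : degreeLT F (e + 1) × degreeLT F (e + 1), Inc l h →
      (Split (e * r) ((ff h).eval (l.1 : F[X])) ↔
        Split (e * r) ((f.eval (C (l.2 : F[X]))).eval (l.1 : F[X]))) := by
    intro h hg l hi
    rw [hffeval h l hi]
    exact split_scale (hc0 h hg) _
  have hffwt : ∀ h : degreeLT F (e + 1) × F, GoodF k f r e A h.2 h.1 → Wt e r (ff h) :=
    fun h hg => nfib_wt hdeg hW hr0 hg.deg hg.top
  -- points on the surface
  have hevl : ∀ (l : degreeLT F (e + 1) × degreeLT F (e + 1)) (a : F),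
      ((f.eval (C (l.2 : F[X]))).eval (l.1 : F[X])).eval a =
        ev3 f a ((l.1 : F[X]).eval a) ((l.2 : F[X]).eval a) := by
    intro l a
    have h1 := fib_evalEval f 0 (l.2 : F[X]) a ((l.1 : F[X]).eval a)
    rw [zero_mul, add_zero, ← eval_eval_eq, fib_eval, C_0, zero_mul, add_zero] at h1
    exact h1
  have hevc : ∀ (h : degreeLT F (e + 1) × F) (p : F × F × F), OnC p h →
      evalEval p.1 p.2.1 (fib f h.2 h.1) = ev3 f p.1 p.2.1 p.2.2 := by
    intro h p hp
    rw [fib_evalEval, ← show p.2.2 = _ from hp]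
  -- regularity at the points of a split block
  have hregl : ∀ h : degreeLT F (e + 1) × F, GoodF k f r e A h.2 h.1 →
      ∀ l : degreeLT F (e + 1) × degreeLT F (e + 1), Inc l h →
      Split (e * r) ((f.eval (C (l.2 : F[X]))).eval (l.1 : F[X])) → ∀ a : F,
      ((f.eval (C (l.2 : F[X]))).eval (l.1 : F[X])).eval a = 0 →
      fX (ff h) a ((l.1 : F[X]).eval a) ≠ 0 ∨ fY (ff h) a ((l.1 : F[X]).eval a) ≠ 0 := by
    intro h hg l hi hl a ha
    have h1 := (hsplitff h hg l hi).mpr hl
    refine Split.regular hn0 h1 (eval_wt (hffwt h hg) (mem_degreeLT_succ.mp l.1.2)).1 ?_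
    rw [hffeval h l hi, eval_mul, ha, mul_zero]
  have hbaseroot : ∀ l : degreeLT F (e + 1) × degreeLT F (e + 1), (∀ i, OnB (base i) l) →
      ∀ i, ((f.eval (C (l.2 : F[X]))).eval (l.1 : F[X])).eval (base i).1 = 0 := by
    intro l hl i
    rw [hevl, (hl i).1, (hl i).2]
    have h1 : (cut f κ α γ).eval (base i).1 = 0 := (hRmem _).mp (hT2 (eT i).2)
    rw [cut, eval_eval_eq, fib_evalEval] at h1
    have h2 : (base i).2.1 = γ.eval (base i).1 := rfl
    have h3 : (base i).2.2 = α.eval (base i).1 + κ * γ.eval (base i).1 := by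
      show δ.eval _ = _
      rw [hδ]
      simp [hbase]
    rw [h2, h3]
    exact h1
  -- building good members
  have hmk : ∀ h : degreeLT F (e + 1) × F, GoodF k f r e A h.2 h.1 → (∀ i, OnC (base i) h) →
      ∀ l : degreeLT F (e + 1) × degreeLT F (e + 1), Inc l h → (∀ i, OnB (base i) l) →
      Split (e * r) ((f.eval (C (l.2 : F[X]))).eval (l.1 : F[X])) →
      (∃ i, fY (fib f h.2 h.1) (base i).1 (base i).2.1 ≠ 0) → good h := by
    rintro h hg hon l hi hbl hl ⟨i₀, hi₀⟩
    refine ⟨hg, hon, ?_, ?_, ?_, ?_⟩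
    · intro b hb1 b' hb2 hbb
      obtain ⟨-, h3⟩ := (hbB b).mp hb1
      obtain ⟨-, h4⟩ := (hbB b').mp hb2
      exact Prod.ext hbb (by rw [h3, h4, hbb])
    · intro b hb1
      obtain ⟨i, -, rfl⟩ := mem_image.mp hb1
      rw [hff]
      simp only
      rw [nfib, evalEval_scale, hevc h (base i) (hon i)]
      have h5 := hbaseroot l hbl i
      rw [hevl, (hbl i).1, (hbl i).2] at h5
      rw [h5, mul_zero]
    · intro b hb1
      obtain ⟨i, -, rfl⟩ := mem_image.mp hb1
      have h5 := hregl h hg l hi hl (base i).1 (hbaseroot l hbl i)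
      rw [(hbl i).1] at h5
      exact h5
    · refine ⟨((base i₀).1, (base i₀).2.1), mem_image.mpr ⟨i₀, mem_univ _, rfl⟩, ?_⟩
      rw [hff]
      simp only
      rw [nfib, fY_scale]
      exact mul_ne_zero (hc0 h hg) hi₀
  -- the points of a split block: a bijection with the roots which are not over the base
  have hptl : ∀ l ∈ spl, ∀ w : F × F × F → ℝ, ∑ p ∈ univ.filter (fun p => S p ∧ OnB p l), w p =
      ∑ a ∈ ((f.eval (C (l.2 : F[X]))).eval (l.1 : F[X])).roots.toFinset \ T,
        w (a, (l.1 : F[X]).eval a, (l.2 : F[X]).eval a) := by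
    intro l hl w
    obtain ⟨hl1, hl2⟩ := (hspl' l).mp hl
    have hne : (f.eval (C (l.2 : F[X]))).eval (l.1 : F[X]) ≠ 0 := by
      intro h0
      have h1 : ((f.eval (C (l.2 : F[X]))).eval (l.1 : F[X])).roots.toFinset.card = e * r := hl2
      rw [h0, roots_zero, Multiset.toFinset_zero, card_empty] at h1
      omega
    refine sum_bij (fun p _ => p.1) ?_ ?_ ?_ ?_
    · intro p hp
      obtain ⟨-, ⟨s1, s2⟩, b1, b2⟩ := mem_filter.mp hp
      refine mem_sdiff.mpr ⟨?_, fun hmem => ?_⟩
      · rw [Multiset.mem_toFinset, mem_roots hne, IsRoot.def, hevl, b1, b2]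
        exact s1
      · obtain ⟨i, hi⟩ := (hbT p.1).mp hmem
        exact s2 i hi.symm
    · intro p hp p' hp' hpp
      obtain ⟨-, -, b1, b2⟩ := mem_filter.mp hp
      obtain ⟨-, -, b3, b4⟩ := mem_filter.mp hp'
      have hpp' : p.1 = p'.1 := hpp
      exact Prod.ext hpp' (Prod.ext (by rw [← b1, ← b3, hpp']) (by rw [← b2, ← b4, hpp']))
    · intro a ha
      obtain ⟨h1, h2⟩ := mem_sdiff.mp ha
      rw [Multiset.mem_toFinset, mem_roots hne, IsRoot.def, hevl] at h1
      refine ⟨(a, (l.1 : F[X]).eval a, (l.2 : F[X]).eval a), mem_filter.mpr ⟨mem_univ _,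
        ⟨h1, fun i hi => h2 ((hbT a).mpr ⟨i, hi.symm⟩)⟩, rfl, rfl⟩, rfl⟩
    · intro p hp
      obtain ⟨-, -, b1, b2⟩ := mem_filter.mp hp
      rw [b1, b2]
  have hTsub : ∀ l ∈ spl, T ⊆ ((f.eval (C (l.2 : F[X]))).eval (l.1 : F[X])).roots.toFinset := by
    intro l hl a ha
    obtain ⟨hl1, hl2⟩ := (hspl' l).mp hl
    have hne : (f.eval (C (l.2 : F[X]))).eval (l.1 : F[X]) ≠ 0 := by
      intro h0
      have h1 : ((f.eval (C (l.2 : F[X]))).eval (l.1 : F[X])).roots.toFinset.card = e * r := hl2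
      rw [h0, roots_zero, Multiset.toFinset_zero, card_empty] at h1
      omega
    obtain ⟨i, rfl⟩ := (hbT a).mp ha
    rw [Multiset.mem_toFinset, mem_roots hne, IsRoot.def]
    exact hbaseroot l hl1 i
  -- the function with the base points absorbed
  set N₀ : ℝ := ((e * r - (r - 1) : ℕ) : ℝ) with hN₀
  have hN0pos : 0 < N₀ := by
    rw [hN₀]
    have h6 : 7 * r ≤ e * r := Nat.mul_le_mul_right r (by omega)
    exact_mod_cast (show 0 < e * r - (r - 1) by omega)
  set cc : degreeLT F (e + 1) × F → ℝ := fun h =>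
    (∑ i, g h.2 h.1 ((base i).1, (base i).2.1)) / N₀ with hcc
  set gg : degreeLT F (e + 1) × F → F × F × F → ℝ := fun h p => g h.2 h.1 (p.1, p.2.1) + cc h
    with hgg
  have hsumgg : ∀ l ∈ spl, ∀ h, good h → Inc l h →
      ∑ p ∈ univ.filter (fun p => S p ∧ OnB p l), gg h p = G l.1 l.2 := by
    intro l hl h hg hi
    obtain ⟨hl1, hl2⟩ := (hspl' l).mp hl
    have e1 := hyp h.2 h.1 l.1 hg.1 (mem_degreeLT_succ.mp l.1.2) (by
      rw [hcutB _ _ h.2 h.1 (incl_eq hi)]
      exact hl2)
    rw [hcutB _ _ h.2 h.1 (incl_eq hi), ← incl_eq hi] at e1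
    rw [e1, hptl l hl]
    have e2 : ∀ a, gg h (a, (l.1 : F[X]).eval a, (l.2 : F[X]).eval a) =
        g h.2 h.1 (a, (l.1 : F[X]).eval a) + cc h := fun a => rfl
    rw [sum_congr rfl fun a _ => e2 a, sum_add_distrib, sum_const, card_sdiff_of_subset (hTsub l hl),
      hTc]
    have e3 : ((f.eval (C (l.2 : F[X]))).eval (l.1 : F[X])).roots.toFinset.card = e * r := hl2
    rw [e3, nsmul_eq_mul, ← hN₀]
    have e4 : N₀ * cc h = ∑ i, g h.2 h.1 ((base i).1, (base i).2.1) := by
      rw [hcc]
      simp only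
      rw [mul_div_cancel₀ _ hN0pos.ne']
    have e5 : ∑ i, g h.2 h.1 ((base i).1, (base i).2.1) =
        ∑ a ∈ T, g h.2 h.1 (a, (l.1 : F[X]).eval a) := by
      rw [← sum_coe_sort T]
      refine Fintype.sum_equiv eT _ _ fun i => ?_
      rw [← (hl1 i).1]
    rw [e4, e5, ← sum_sdiff (hTsub l hl)]
  -- the second moment argument
  obtain ⟨hh, hhh⟩ := hQ p μ F k hcard hbig base hb S (fun p hp => hp.2) good ff
    (by
      intro h hg
      refine ⟨hg.2.1, hffwt h hg.1, ?_, hg.2.2⟩
      rw [hff]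
      simp only
      rw [nfib, Polynomial.map_mul, map_C]
      have h1 : IsUnit (C ((mapRingHom (algebraMap F k))
          (C ((((fib f h.2 h.1).coeff r).coeff 0)⁻¹))) : k[X][X]) := by
        refine isUnit_C.mpr ?_
        rw [coe_mapRingHom, map_C]
        refine isUnit_C.mpr ?_
        exact (isUnit_iff_ne_zero.mpr (hc0 h hg.1)).map _
      rw [irreducible_isUnit_mul h1]
      exact hg.1.irr)
    reg
    (by
      intro h p hg hp
      rw [pts]
      simp only [mem_filter, mem_univ, true_and]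
      have e1 : evalEval p.1 p.2.1 (ff h) = 0 ↔ ev3 f p.1 p.2.1 p.2.2 = 0 := by
        rw [hff]
        simp only
        rw [nfib, evalEval_scale, hevc h p hp, mul_eq_zero]
        exact ⟨fun h1 => h1.resolve_left (hc0 h hg.1), fun h1 => Or.inr h1⟩
      constructor
      · rintro ⟨⟨s1, s2⟩, r1⟩
        refine ⟨e1.mpr s1, r1, fun b hb1 => ?_⟩
        obtain ⟨i, -, rfl⟩ := mem_image.mp hb1
        exact (s2 i).symm
      · rintro ⟨s1, r1, s2⟩
        exact ⟨⟨e1.mp s1, fun i => (s2 _ (mem_image.mpr ⟨i, mem_univ _, rfl⟩)).symm⟩, r1⟩)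
    spl (fun l hl => ((hspl' l).mp hl).1)
    (by
      intro h l hg hi
      rw [hspl', hsplitff h hg.1 l hi])
    (by
      intro l hl h p hg hi hp hpl
      obtain ⟨hl1, hl2⟩ := (hspl' l).mp hl
      have h1 := hregl h hg.1 l hi hl2 p.1 (by rw [hevl, hpl.1, hpl.2]; exact hp.1)
      rw [hpl.1] at h1
      exact h1)
    (by
      intro l hl
      obtain ⟨hl1, hl2⟩ := (hspl' l).mp hl
      have h1 := hptl l hl fun _ => 1
      rw [sum_const, nsmul_eq_mul, mul_one, sum_const, nsmul_eq_mul, mul_one] at h1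
      have h2 := card_le_card (sdiff_subset
        (s := ((f.eval (C (l.2 : F[X]))).eval (l.1 : F[X])).roots.toFinset) (t := T))
      rw [show ((f.eval (C (l.2 : F[X]))).eval (l.1 : F[X])).roots.toFinset.card = e * r from hl2]
        at h2
      have h3 : ((univ.filter fun p => S p ∧ OnB p l).card : ℝ) ≤ ((e * r : ℕ) : ℝ) := by
        rw [h1]
        exact Nat.cast_le.mpr h2
      refine le_trans (Nat.cast_le.mpr (card_le_card fun p hp => ?_)) h3
      exact (mem_filt _).mpr ((mem_filt _).mp hp))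
    (by
      -- Bertini
      intro l hl h₀ hg₀ hi₀
      obtain ⟨hl1, hl2⟩ := (hspl' l).mp hl
      set N : F[X] := (f.eval (C (l.2 : F[X]))).eval (l.1 : F[X]) with hN
      have hNc : N.roots.toFinset.card = e * r := hl2
      have hN0 : N ≠ 0 := by
        intro h0
        rw [h0, roots_zero, Multiset.toFinset_zero, card_empty] at hNc
        omega
      -- over the closed field
      set fk : k[X][X][X] := f.map (mapRingHom (mapRingHom φ)) with hfk
      have hfkc : ∀ i j, (fk.coeff j).coeff i = ((f.coeff j).coeff i).map φ := by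
        intro i j
        rw [hfk, coeff_map, coe_mapRingHom, coeff_map, coe_mapRingHom]
      have hmapN : ((fk.eval (C ((l.2 : F[X]).map φ))).eval ((l.1 : F[X]).map φ)) = N.map φ := by
        have h1 := fib_map φ f 0 (l.2 : F[X])
        have h2 := eval_map_map φ (fib f 0 (l.2 : F[X])) (l.1 : F[X])
        rw [h1, fib_eval, fib_eval, map_zero, C_0, C_0, zero_mul, zero_mul, add_zero, add_zero]
          at h2
        exact h2
      obtain ⟨Bad, hBad, hgoodk⟩ := Bert.good_pencil (f := fk) (r := r) (d := d) (e := e)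
        (γ := (l.1 : F[X]).map φ) (ρ := (l.2 : F[X]).map φ)
        (hmon.map _) (by rw [hfk, hmon.natDegree_map, hdeg]) hirr (by omega) hd hde
        (by
          intro i j hij
          rw [hfkc] at hij ⊢
          have h1 : (f.coeff j).coeff i ≠ 0 := fun h0 => hij (by rw [h0, Polynomial.map_zero])
          rw [natDegree_map_eq_of_injective hφi]
          exact hwt i j h1)
        (by
          rw [natDegree_map_eq_of_injective hφi]
          exact mem_degreeLT_succ.mp l.1.2)
        (by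
          rw [natDegree_map_eq_of_injective hφi]
          exact mem_degreeLT_succ.mp l.2.2)
        (by
          have hcr : N.roots.toFinset.card = r * e := by rw [hNc, mul_comm]
          let E : Fin (r * e) ≃ N.roots.toFinset := (equivFinOfCardEq hcr).symm
          refine ⟨fun i => φ (E i : F), fun i i' hii => E.injective (Subtype.ext (hφi hii)),
            fun i => ?_⟩
          rw [hmapN, eval_map_algebraMap, aeval_algebraMap_apply]
          have h1 := (E i).2
          rw [Multiset.mem_toFinset, mem_roots hN0] at h1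
          rw [coe_aeval_eq_eval, show eval (E i : F) N = 0 from h1, map_zero])
        (by
          rw [hmapN]
          exact (Polynomial.map_ne_zero_iff hφi).mpr hN0)
      -- the unramified base point
      obtain ⟨b, hbm, hbr⟩ := hg₀.2.2.ram
      obtain ⟨i₀, -, hib⟩ := mem_image.mp hbm
      have hram0 : fY (fib f h₀.2 h₀.1) (base i₀).1 (base i₀).2.1 ≠ 0 := by
        rw [← hib, hff] at hbr
        simp only at hbr
        rw [nfib, fY_scale] at hbr
        exact right_ne_zero_of_mul hbr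
      obtain ⟨κ₀, hκ₀⟩ := Bert.unramified_fib f (a := (base i₀).1) (b := (base i₀).2.1)
        (c := (base i₀).2.2) (by
          by_contra hcon
          push Not at hcon
          have h1 := Bert.dY_fib f h₀.2 h₀.1 (base i₀).1 (base i₀).2.1 (base i₀).2.2
            (hg₀.2.1 i₀)
          rw [hcon.1, hcon.2, mul_zero, add_zero] at h1
          exact hram0 h1)
      -- counting
      set K : Finset F := (univ : Finset F).filter fun z => φ z ∉ Bad ∧ z ≠ κ₀ with hK
      have hKcard : (Fintype.card F : ℝ) - ((2 ^ (r * e) * (2 * r) + r + 2 : ℕ) : ℝ) ≤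
          (K.card : ℝ) := by
        have h1 : (univ : Finset F) ⊆ K ∪ (Bad.preimage φ hφi.injOn ∪ {κ₀}) := by
          intro z _
          by_cases hz : φ z ∉ Bad ∧ z ≠ κ₀
          · exact mem_union_left _ (mem_filter.mpr ⟨mem_univ _, hz⟩)
          · refine mem_union_right _ ?_
            by_cases hz1 : φ z ∈ Bad
            · exact mem_union_left _ (mem_preimage.mpr hz1)
            · refine mem_union_right _ (mem_singleton.mpr ?_)
              by_contra hz2
              exact hz ⟨hz1, hz2⟩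
        have h2 := card_le_card h1
        rw [card_univ] at h2
        have h3 := card_union_le K (Bad.preimage φ hφi.injOn ∪ {κ₀})
        have h4 := card_union_le (Bad.preimage φ hφi.injOn) {κ₀}
        have h5 : (Bad.preimage φ hφi.injOn).card ≤ Bad.card := by
          refine card_le_card_of_injOn φ (fun z hz => ?_) hφi.injOn
          exact mem_coe.mpr (mem_preimage.mp (mem_coe.mp hz))
        rw [card_singleton] at h4
        have h6 : Fintype.card F ≤ K.card + (2 ^ (r * e) * (2 * r) + r + 2) := by omega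
        have h7 : (Fintype.card F : ℝ) ≤ (K.card : ℝ) +
            ((2 ^ (r * e) * (2 * r) + r + 2 : ℕ) : ℝ) := by exact_mod_cast h6
        linarith
      refine hKcard.trans (Nat.cast_le.mpr ?_)
      let mk : F → degreeLT F (e + 1) × F := fun z => (l.2 - z • l.1, z)
      refine card_le_card_of_injOn mk ?_ fun z _ z' _ hz => congrArg Prod.snd hz
      intro z hz
      obtain ⟨-, hz1, hz2⟩ := mem_filter.mp (mem_coe.mp hz)
      have hinc : Inc l (mk z) := by
        show l.2 = l.2 - z • l.1 + z • l.1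
        rw [sub_add_cancel]
      have hmk1 : ((mk z).1 : F[X]) = (l.2 : F[X]) - C z * (l.1 : F[X]) := by
        show ((l.2 - z • l.1 : degreeLT F (e + 1)) : F[X]) = _
        simp [smul_eq_C_mul]
      have hon : ∀ i, OnC (base i) (mk z) := fun i => hinc.onC (hl1 i)
      obtain ⟨c1, c2, c3⟩ := hgoodk (φ z) hz1
      have hfibk : (fib f z ((mk z).1 : F[X])).map (mapRingHom φ) =
          fk.eval (C (C (φ z)) * X + C ((l.2 : F[X]).map φ - C (φ z) * (l.1 : F[X]).map φ)) := by
        rw [fib_map, fib, hmk1]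
        congr 3
        rw [Polynomial.map_sub, Polynomial.map_mul, map_C]
      have hram : fY (fib f z ((mk z).1 : F[X])) (base i₀).1 (base i₀).2.1 ≠ 0 := by
        exact hκ₀ z hz2 _ (hon i₀)
      have hgd : GoodF k f r e A (mk z).2 (mk z).1 := by
        refine ⟨mem_degreeLT_succ.mp (mk z).1.2, Or.inl ?_, ?_, ?_, ?_⟩
        · intro h0
          refine c3 ?_
          rw [← map_C φ, ← Polynomial.map_mul, ← Polynomial.map_sub, ← hmk1, coeff_map, h0,
            map_zero]
        · show Irreducible ((fib f z ((mk z).1 : F[X])).map (mapRingHom φ))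
          rw [hfibk]
          exact c1
        · show (fib f z ((mk z).1 : F[X])).natDegree = r
          rw [← hfibk, natDegree_map_eq_of_injective (f := mapRingHom φ) (map_injective φ hφi)] at c2
          exact c2
        · intro h0
          refine hram ?_
          show evalEval _ _ (derivative (fib f z ((mk z).1 : F[X]))) = 0
          have h0' : derivative (fib f z ((mk z).1 : F[X])) = 0 := h0
          rw [h0', evalEval_zero]
      exact mem_coe.mpr ((mem_filt _).mpr ⟨mem_univ _,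
        hmk (mk z) hgd hon l hinc hl1 hl2 ⟨i₀, hram⟩, hinc⟩))
    gg
    (by
      intro l hl h h' hg hg' hi hi'
      refine ((sum_congr (Finset.ext fun p => ?_) fun _ _ => rfl).trans
        (hsumgg l hl h hg hi)).trans ((sum_congr (Finset.ext fun p => ?_) fun _ _ => rfl).trans
        (hsumgg l hl h' hg' hi')).symm
      · exact ⟨fun q => (mem_filt _).mpr ((mem_filt _).mp q),
          fun q => (mem_filt _).mpr ((mem_filt _).mp q)⟩
      · exact ⟨fun q => (mem_filt _).mpr ((mem_filt _).mp q),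
          fun q => (mem_filt _).mpr ((mem_filt _).mp q)⟩)
  -- the two curves
  set l : degreeLT F (e + 1) × degreeLT F (e + 1) :=
    (⟨γ, mem_degreeLT_succ.mpr hγe⟩, ⟨δ, mem_degreeLT_succ.mpr hδe⟩) with hl
  have hlb : ∀ i, OnB (base i) l := fun i => ⟨rfl, rfl⟩
  have hlsp : Split (e * r) ((f.eval (C (l.2 : F[X]))).eval (l.1 : F[X])) := by
    have h1 := hsp
    rw [hcutB γ δ κ α hδ] at h1
    exact h1
  obtain ⟨iu, hiu⟩ := (hbT u).mp hT1
  have hbu : (base iu).2.1 = γ.eval u := by
    rw [← hiu]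
  -- final computation for one curve
  have hfin : ∀ (κ₁ : F) (α₁ : F[X]) (hg : GoodF k f r e A κ₁ α₁), δ = α₁ + C κ₁ * γ →
      fY (fib f κ₁ α₁) u (γ.eval u) ≠ 0 → ∀ z, (cut f κ α γ).eval z = 0 → z ∉ T →
      g κ₁ α₁ (z, γ.eval z) + cc (⟨α₁, mem_degreeLT_succ.mpr hg.deg⟩, κ₁) =
        hh (z, γ.eval z, δ.eval z) := by
    intro κ₁ α₁ hg hδ1 hram z hz hzT
    set h : degreeLT F (e + 1) × F := (⟨α₁, mem_degreeLT_succ.mpr hg.deg⟩, κ₁) with hh1
    have hi : Inc l h := incl_of_eq hδ1
    have hon : ∀ i, OnC (base i) h := fun i => hi.onC (hlb i)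
    have hgd : good h := hmk h hg hon l hi hlb hlsp ⟨iu, by rw [hbu, hiu]; exact hram⟩
    have hpz : OnB (z, γ.eval z, δ.eval z) l := ⟨rfl, rfl⟩
    have hz' : ((f.eval (C (l.2 : F[X]))).eval (l.1 : F[X])).eval z = 0 := by
      rw [hcutB γ δ κ α hδ] at hz
      exact hz
    have hS' : S (z, γ.eval z, δ.eval z) := by
      refine ⟨?_, fun i hi' => hzT ((hbT z).mpr ⟨i, hi'.symm⟩)⟩
      rw [hevl] at hz'
      exact hz'
    exact hhh h (z, γ.eval z, δ.eval z) hgd hS' (hi.onC hpz) (hregl h hg l hi hlsp z hz')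
  have f1 := hfin κ α g1 hδ hr1 x hx hxT
  have f2 := hfin κ α g1 hδ hr1 y hy hyT
  have f3 := hfin κ' α' g2 hγ hr2 x hx hxT
  have f4 := hfin κ' α' g2 hγ hr2 y hy hyT
  linarith

end MPb197b4E.SJ
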