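import Pool.Agent.Lib.MP_b197b4_ntE.EA1

/-!
# Leaf EA2: the marked divisor, Newton's method
-/

set_option autoImplicit false

noncomputable section

namespace MPb197b4E

open Polynomial

variable {K : Type} [Field K]

theorem GG_monic (x : K) (e : ℕ) (T : Finset K) :
    (GG x e T).Monic ∧ (GG x e T).natDegree = e + T.card := by
  have h1 : ((X - C x) ^ e : K[X]).Monic := (monic_X_sub_C x).pow e
  have h2 : (∏ a ∈ T, (X - C a) : K[X]).Monic := monic_prod_of_monic _ _ fun a _ => monic_X_sub_C a
  refine ⟨h1.mul h2, ?_⟩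
  unfold GG
  rw [h1.natDegree_mul h2, (monic_X_sub_C x).natDegree_pow, natDegree_X_sub_C, mul_one,
    natDegree_prod_of_monic _ _ fun a _ => monic_X_sub_C a]
  simp

theorem GG_eval (x : K) (e : ℕ) (T : Finset K) (he : 1 ≤ e) (a : K) :
    (GG x e T).eval a = 0 ↔ a = x ∨ a ∈ T := by
  unfold GG
  rw [eval_mul, eval_pow, eval_prod, mul_eq_zero, pow_eq_zero_iff (by omega), Finset.prod_eq_zero_iff]
  simp only [eval_sub, eval_X, eval_C, sub_eq_zero]
  constructor
  · rintro (h | ⟨b, hb, h⟩)
    · exact Or.inl h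
    · exact Or.inr (h ▸ hb)
  · rintro (h | h)
    · exact Or.inl h
    · exact Or.inr ⟨a, h, rfl⟩

/-- The marked points different from `x` are simple roots. -/
theorem GG_derivative (x : K) (e : ℕ) (T : Finset K) (hx : x ∉ T) (a : K) (ha : a ∈ T) :
    (derivative (GG x e T)).eval a ≠ 0 := by
  classical
  have h1 : GG x e T = (X - C a) * ((X - C x) ^ e * ∏ b ∈ T.erase a, (X - C b)) := by
    unfold GG
    rw [← Finset.mul_prod_erase T _ ha]
    ring
  rw [h1, derivative_mul, eval_add, eval_mul, eval_mul, eval_mul, derivative_sub, derivative_X,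
    derivative_C, eval_sub, eval_sub, eval_X, eval_C, sub_self, zero_mul, add_zero, eval_one,
    eval_zero, sub_zero, one_mul, eval_pow, eval_prod]
  refine mul_ne_zero (pow_ne_zero _ ?_) (Finset.prod_ne_zero_iff.2 fun b hb => ?_)
  · rw [eval_sub, eval_X, eval_C, sub_ne_zero]
    rintro rfl
    exact hx ha
  · rw [eval_sub, eval_X, eval_C, sub_ne_zero]
    exact (Finset.ne_of_mem_erase hb).symm

theorem GG_map {L : Type} [Field L] (φ : K →+* L) (x : K) (e : ℕ) (T : Finset K) :
    (GG x e T).map φ = GG (φ x) e (T.map ⟨φ, φ.injective⟩) := by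
  unfold GG
  rw [Polynomial.map_mul, Polynomial.map_pow, Polynomial.map_prod, Finset.prod_map]
  simp

theorem GG_add (x : K) (e i : ℕ) (T : Finset K) : GG x (e + i) T = GG x e T * (X - C x) ^ i := by
  unfold GG
  rw [pow_add]
  ring

theorem Marked.map {L : Type} [Field L] (φ : K →+* L) {f : K[X][X]} {x : K} {e : ℕ} {T : Finset K}
    {q : K[X]} (h : Marked f x e T q) :
    Marked (f.map (mapRingHom φ)) (φ x) e (T.map ⟨φ, φ.injective⟩) (q.map φ) where
  one := h.one
  not_mem := by
    intro hm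
    obtain ⟨a, ha, he⟩ := Finset.mem_map.1 hm
    have h1 : a = x := φ.injective he
    exact h.not_mem (h1 ▸ ha)
  dvd := by
    rw [← GG_map, eval_map_map]
    exact Polynomial.map_dvd φ h.dvd
  ram := by
    rw [eval_map_apply, fY_map]
    intro h0
    exact h.ram (φ.injective (by rw [h0, map_zero]))
  reg := by
    intro a' ha'
    obtain ⟨a, ha, rfl⟩ := Finset.mem_map.1 ha'
    show fX _ (φ a) ((q.map φ).eval (φ a)) ≠ 0 ∨ fY _ (φ a) ((q.map φ).eval (φ a)) ≠ 0
    rw [eval_map_apply, fY_map, fX_map]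
    rcases h.reg a ha with h1 | h1
    · exact Or.inl fun h0 => h1 (φ.injective (by rw [h0, map_zero]))
    · exact Or.inr fun h0 => h1 (φ.injective (by rw [h0, map_zero]))

/-- Adding a multiple of the marked divisor. -/
theorem Marked.add {f : K[X][X]} {x : K} {e : ℕ} {T : Finset K} {q : K[X]} (h : Marked f x e T q)
    (w : K[X]) : Marked f x e T (q + GG x e T * w) := by
  have hx : (q + GG x e T * w).eval x = q.eval x := by
    rw [eval_add, eval_mul, (GG_eval x e T h.one x).2 (Or.inl rfl), zero_mul, add_zero]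
  have hT : ∀ a ∈ T, (q + GG x e T * w).eval a = q.eval a := by
    intro a ha
    rw [eval_add, eval_mul, (GG_eval x e T h.one a).2 (Or.inr ha), zero_mul, add_zero]
  refine ⟨h.one, h.not_mem, ?_, ?_, ?_⟩
  · have h1 : q + GG x e T * w - q ∣ f.eval (q + GG x e T * w) - f.eval q :=
      Polynomial.sub_dvd_eval_sub _ _ _
    rw [add_sub_cancel_left] at h1
    have h2 : GG x e T ∣ f.eval (q + GG x e T * w) - f.eval q := (dvd_mul_right _ _).trans h1
    have h3 := dvd_add h2 h.dvd
    rwa [sub_add_cancel] at h3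
  · rw [hx]
    exact h.ram
  · intro a ha
    rw [hT a ha]
    exact h.reg a ha

/-- The residual polynomial at a marked point (`Polynomial.binomExpansion`). -/
theorem residual_eval {f : K[X][X]} {q G S w S' : K[X]} (hS : f.eval q = G * S) (hG : G ≠ 0)
    (hS' : f.eval (q + G * w) = G * S') {a : K} (ha : G.eval a = 0) :
    S'.eval a = S.eval a + w.eval a * fY f a (q.eval a) := by
  obtain ⟨k, hk⟩ := f.binomExpansion q (G * w)
  rw [hS', hS] at hk
  have h1 : S' = S + (derivative f).eval q * w + k * (G * w ^ 2) := by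
    apply mul_left_cancel₀ hG
    rw [hk]
    ring
  rw [h1, eval_add, eval_add, eval_mul, eval_mul, eval_mul, ha, zero_mul, mul_zero, add_zero,
    ← fY_eq]
  ring

/-- At a marked point different from `x` the residual polynomial is not zero or `Y` is unramified
(`derivative_eval`: if `f_Y = 0` then `G'(a) S(a) = f_X`). -/
theorem Marked.residual {f : K[X][X]} {x : K} {e : ℕ} {T : Finset K} {q S : K[X]}
    (h : Marked f x e T q) (hS : f.eval q = GG x e T * S) {a : K} (ha : a ∈ T) :
    S.eval a ≠ 0 ∨ fY f a (q.eval a) ≠ 0 := by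
  by_contra hcon
  push Not at hcon
  obtain ⟨h1, h2⟩ := hcon
  have h3 := derivative_eval f q a
  rw [hS, derivative_mul, eval_add, eval_mul, eval_mul, h1, mul_zero,
    (GG_eval x e T h.one a).2 (Or.inr ha), zero_mul, h2, zero_mul, add_zero, add_zero] at h3
  rcases h.reg a ha with h4 | h4
  · exact h4 h3.symm
  · exact h4 h2

/-- Newton's method: the contact at the point over `x` can be raised (`residual_eval`, the value at `x` of
the residual polynomial is made zero). -/
theorem newton_step {f : K[X][X]} {x : K} {e : ℕ} {T : Finset K} {q : K[X]} (h : Marked f x e T q) :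
    ∃ c : K, Marked f x (e + 1) T (q + GG x e T * C c) := by
  obtain ⟨S, hS⟩ := h.dvd
  refine ⟨-(S.eval x / fY f x (q.eval x)), ?_⟩
  obtain ⟨c, hc⟩ : ∃ c : K, c = -(S.eval x / fY f x (q.eval x)) := ⟨_, rfl⟩
  rw [← hc]
  have h1 := h.add (C c)
  obtain ⟨S', hS'⟩ := h1.dvd
  have h2 := residual_eval hS (GG_monic x e T).1.ne_zero hS' ((GG_eval x e T h.one x).2 (Or.inl rfl))
  have h3 : S'.eval x = 0 := by
    rw [h2, eval_C, hc, neg_mul, div_mul_cancel₀ _ h.ram, add_neg_cancel]
  obtain ⟨S'', hS''⟩ := dvd_iff_isRoot.2 h3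
  refine ⟨by omega, h.not_mem, ?_, h1.ram, h1.reg⟩
  refine ⟨S'', ?_⟩
  rw [hS', hS'', GG_add, pow_one, mul_assoc]

theorem newton_two {f : K[X][X]} {x : K} {e : ℕ} {T : Finset K} {q : K[X]} (h : Marked f x e T q) :
    ∃ w : K[X], w.natDegree ≤ 1 ∧ Marked f x (e + 2) T (q + GG x e T * w) := by
  obtain ⟨c, h1⟩ := newton_step h
  obtain ⟨c', h2⟩ := newton_step h1
  refine ⟨C c + (X - C x) * C c', ?_, ?_⟩
  · refine (natDegree_add_le _ _).trans (max_le ?_ ?_)
    · rw [natDegree_C]
      exact Nat.zero_le _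
    · refine (natDegree_mul_C_le _ _).trans ?_
      rw [natDegree_X_sub_C]
  · have h3 : q + GG x e T * (C c + (X - C x) * C c') =
        q + GG x e T * C c + GG x (e + 1) T * C c' := by
      rw [GG_add, pow_one]
      ring
    rw [h3]
    exact h2

end MPb197b4E
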