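import Pool.Agent.Lib.MP_b197b4_ntE.EA2

/-!
# Leaf EB1: pencils
-/

set_option autoImplicit false

noncomputable section

namespace MPb197b4E

open Polynomial

variable {K : Type} [Field K]

theorem EB1_map_C_eval (p : K[X]) (a : K) : (p.map (C : K →+* K[X])).eval (C a) = C (p.eval a) := by
  rw [eval_map, eval₂_at_apply]

theorem EB1_map_C_ne {p : K[X]} (hp : p ≠ 0) : p.map (C : K →+* K[X]) ≠ 0 := by
  intro h
  exact hp ((Polynomial.map_eq_zero_iff C_injective).1 h)

theorem EB1_CC_ne {c : K} (hc : c ≠ 0) : (C (C c) : K[X][X]) ≠ 0 := by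
  rw [Ne, C_eq_zero, C_eq_zero]
  exact hc

theorem EB1_eval_eval {A : Type} [CommRing A] (f : A[X][X]) (q : A[X]) (b : A) :
    (f.eval q).eval b = (f.map (evalRingHom b)).eval (q.eval b) := by
  rw [eval_map]
  have h := Polynomial.hom_eval₂ f (RingHom.id A[X]) (evalRingHom b) q
  rw [RingHom.comp_id] at h
  exact h

/-- Existence of the residual polynomial of a pencil. Divisibility: `Polynomial.sub_dvd_eval_sub`. -/
theorem exists_pencil {f : K[X][X]} {q h G : K[X]} {c : K} (hG : G ∣ f.eval q) (hGh : G ∣ h)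
    (hc : c ≠ 0) : ∃ R, IsPencil f q h G c R := by
  have h1 : (q.map C + C X * h.map C : K[X][X]) - q.map C ∣
      (f.map (mapRingHom (C : K →+* K[X]))).eval (q.map C + C X * h.map C) -
      (f.map (mapRingHom (C : K →+* K[X]))).eval (q.map C) := sub_dvd_eval_sub _ _ _
  rw [add_sub_cancel_left, eval_map_map] at h1
  have h2 : (G.map C : K[X][X]) ∣ C X * h.map C :=
    Dvd.dvd.mul_left (Polynomial.map_dvd C hGh) _
  have h3 : (G.map C : K[X][X]) ∣ (f.eval q).map C := Polynomial.map_dvd C hG
  have h4 : (G.map C : K[X][X]) ∣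
      (f.map (mapRingHom (C : K →+* K[X]))).eval (q.map C + C X * h.map C) := by
    have h5 := dvd_add (h2.trans h1) h3
    rwa [sub_add_cancel] at h5
  obtain ⟨R, hR⟩ := h4
  refine ⟨C (C c⁻¹) * R, ?_⟩
  unfold IsPencil
  rw [hR]
  have h6 : (C (C c) : K[X][X]) * C (C c⁻¹) = 1 := by
    rw [← C_mul, ← C_mul, mul_inv_cancel₀ hc, C_1, C_1]
  calc (G.map C : K[X][X]) * R = (C (C c) * C (C c⁻¹)) * (G.map C * R) := by rw [h6, one_mul]
    _ = C (C c) * (G.map C * (C (C c⁻¹) * R)) := by ring

/-- Apply `eval_wt` over the ring `K[X]` to `f.map (mapRingHom C)`. -/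
theorem IsPencil.monic {m D : ℕ} {f : K[X][X]} (hf : Wt m D f) {q h G : K[X]} {c : K} {R : K[X][X]}
    (hR : IsPencil f q h G c R) (hq : q.natDegree ≤ m) (hh : h.natDegree < m) (hG : G.Monic)
    (hc : (topPol m D f).eval (q.coeff m) = c) (hc0 : c ≠ 0) :
    R.Monic ∧ R.natDegree + G.natDegree = m * D := by
  obtain ⟨hw, htop⟩ := Wt.map hf (C : K →+* K[X])
  have hdeg : (q.map C + C X * h.map C : K[X][X]).natDegree ≤ m := by
    refine (natDegree_add_le _ _).trans (max_le ?_ ?_)
    · exact natDegree_map_le.trans hq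
    · refine natDegree_mul_le.trans ?_
      rw [natDegree_C, zero_add]
      exact natDegree_map_le.trans hh.le
  have hcoeff : (q.map C + C X * h.map C : K[X][X]).coeff m = C (q.coeff m) := by
    rw [coeff_add, coeff_C_mul, coeff_map, coeff_map, coeff_eq_zero_of_natDegree_lt hh, C_0, mul_zero,
      add_zero]
  obtain ⟨h1, h2⟩ := eval_wt hw hdeg
  rw [hcoeff, htop, EB1_map_C_eval, hc] at h2
  unfold IsPencil at hR
  rw [hR] at h1 h2
  rw [coeff_C_mul] at h2
  have hCc : (C c : K[X]) ≠ 0 := by
    rw [Ne, C_eq_zero]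
    exact hc0
  have h3 : (G.map C * R : K[X][X]).coeff (m * D) = 1 := by
    apply mul_left_cancel₀ hCc
    rw [h2, mul_one]
  have h4 : (G.map C * R : K[X][X]).natDegree ≤ m * D := by
    rwa [natDegree_C_mul hCc] at h1
  have h5 : (G.map C * R : K[X][X]).Monic := monic_of_natDegree_le_of_coeff_eq_one _ h4 h3
  have h6 : (G.map C * R : K[X][X]).natDegree = m * D := by
    refine le_antisymm h4 (le_natDegree_of_ne_zero ?_)
    rw [h3]
    exact one_ne_zero
  have hGC : (G.map C : K[X][X]).Monic := hG.map C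
  have hRm : R.Monic := hGC.of_mul_monic_left h5
  refine ⟨hRm, ?_⟩
  rw [← h6, hGC.natDegree_mul hRm, hG.natDegree_map, add_comm]

theorem IsPencil.map {L : Type} [Field L] (φ : K →+* L) {f : K[X][X]} {q h G : K[X]} {c : K}
    {R : K[X][X]} (hR : IsPencil f q h G c R) :
    IsPencil (f.map (mapRingHom φ)) (q.map φ) (h.map φ) (G.map φ) (φ c) (R.map (mapRingHom φ)) := by
  unfold IsPencil at hR ⊢
  have h1 := congrArg (fun p : K[X][X] => p.map (mapRingHom φ)) hR
  rw [← eval_map_map] at h1
  have key : (mapRingHom φ).comp (C : K →+* K[X]) = (C : L →+* L[X]).comp φ := by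
    ext a
    simp
  have e1 : ∀ p : K[X], (p.map (C : K →+* K[X])).map (mapRingHom φ) = (p.map φ).map (C : L →+* L[X]) := by
    intro p
    rw [Polynomial.map_map, Polynomial.map_map, key]
  have e2 : (f.map (mapRingHom (C : K →+* K[X]))).map (mapRingHom (mapRingHom φ)) =
      (f.map (mapRingHom φ)).map (mapRingHom (C : L →+* L[X])) := by
    rw [Polynomial.map_map, Polynomial.map_map, mapRingHom_comp, mapRingHom_comp, key]
  rw [e2, Polynomial.map_add, Polynomial.map_mul, Polynomial.map_mul, Polynomial.map_mul, e1, e1, e1,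
    Polynomial.map_C, Polynomial.map_C, coe_mapRingHom, Polynomial.map_X, Polynomial.map_C] at h1
  exact h1

/-- The member `t` of the pencil. -/
theorem IsPencil.spec {f : K[X][X]} {q h G : K[X]} {c : K} {R : K[X][X]}
    (hR : IsPencil f q h G c R) (t : K) :
    f.eval (q + C t * h) = C c * (G * R.map (evalRingHom t)) := by
  unfold IsPencil at hR
  have h1 := congrArg (fun p : K[X][X] => p.map (evalRingHom t)) hR
  rw [← eval_map_map] at h1
  have key : (evalRingHom t).comp (C : K →+* K[X]) = RingHom.id K := by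
    ext a
    simp
  have e1 : ∀ p : K[X], (p.map (C : K →+* K[X])).map (evalRingHom t) = p := by
    intro p
    rw [Polynomial.map_map, key, Polynomial.map_id]
  have e2 : (f.map (mapRingHom (C : K →+* K[X]))).map (mapRingHom (evalRingHom t)) = f := by
    rw [Polynomial.map_map, mapRingHom_comp, key, mapRingHom_id, Polynomial.map_id]
  rw [e2, Polynomial.map_add, Polynomial.map_mul, Polynomial.map_mul, Polynomial.map_mul, e1, e1, e1,
    Polynomial.map_C, Polynomial.map_C, coe_evalRingHom, eval_X, eval_C] at h1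
  exact h1

/-- The expansion in `t` (`Polynomial.binomExpansion`). -/
theorem IsPencil.taylor {f : K[X][X]} {q v G : K[X]} {c : K} {R : K[X][X]}
    (hR : IsPencil f q (G * v) G c R) (hG : G ≠ 0) {S : K[X]} (hS : f.eval q = G * S) :
    ∃ E : K[X][X], C (C c) * R = S.map C + C X * (v * (derivative f).eval q).map C +
      C X ^ 2 * ((G * (v * v)).map C * E) := by
  unfold IsPencil at hR
  obtain ⟨k, hk⟩ := binomExpansion (f.map (mapRingHom (C : K →+* K[X]))) (q.map C)
    (C X * (G * v).map C)
  rw [hR, eval_map_map, derivative_map, eval_map_map, hS, Polynomial.map_mul, Polynomial.map_mul] at hk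
  refine ⟨k, ?_⟩
  apply mul_left_cancel₀ (EB1_map_C_ne hG)
  rw [Polynomial.map_mul, Polynomial.map_mul, Polynomial.map_mul]
  linear_combination hk

/-- The values of the residual polynomial at the base points of the pencil. -/
theorem IsPencil.eval_base {f : K[X][X]} {q v G : K[X]} {c : K} {R : K[X][X]}
    (hR : IsPencil f q (G * v) G c R) (hG : G ≠ 0) {S : K[X]} (hS : f.eval q = G * S) {a : K}
    (ha : (G * v).eval a = 0) :
    C c * R.eval (C a) = C (S.eval a) + X * C (v.eval a * fY f a (q.eval a)) := by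
  obtain ⟨E, hE⟩ := hR.taylor hG hS
  have h1 := congrArg (fun p : K[X][X] => p.eval (C a)) hE
  have h2 : (G * (v * v)).eval a = 0 := by
    rw [eval_mul, eval_mul, ← mul_assoc, ← eval_mul, ha, zero_mul]
  rw [eval_mul, eval_C, eval_add, eval_add, eval_mul, eval_mul, eval_mul, eval_C, EB1_map_C_eval,
    EB1_map_C_eval, EB1_map_C_eval, h2, C_0, zero_mul, mul_zero, add_zero, eval_mul, ← fY_eq] at h1
  exact h1

/-- The residual polynomial has no fixed zero: if `(G v)(a) ≠ 0`, then `f(a, q(a) + t (G v)(a))` is a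
nonzero polynomial in `t`. -/
theorem IsPencil.prim {f : K[X][X]} (hf : f.Monic) {q v G : K[X]} {c : K} {R : K[X][X]}
    (hR : IsPencil f q (G * v) G c R) (hc : c ≠ 0) (hG : G ≠ 0) {S : K[X]} (hS : f.eval q = G * S)
    (hv : ∀ a, (G * v).eval a = 0 → S.eval a ≠ 0 ∨ v.eval a * fY f a (q.eval a) ≠ 0) (a : K) :
    R.eval (C a) ≠ 0 := by
  intro h0
  by_cases ha : (G * v).eval a = 0
  · have h1 := hR.eval_base hG hS ha
    rw [h0, mul_zero] at h1
    rcases hv a ha with h2 | h2
    · apply h2
      have h3 := congrArg (fun p : K[X] => p.coeff 0) h1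
      simpa using h3.symm
    · apply h2
      have h3 := congrArg (fun p : K[X] => p.coeff 1) h1
      simp only [coeff_zero, coeff_add, coeff_X_mul, coeff_C_zero] at h3
      rw [show (C (S.eval a) : K[X]).coeff 1 = 0 from coeff_C_of_ne_zero one_ne_zero, zero_add] at h3
      exact h3.symm
  · unfold IsPencil at hR
    have h1 := congrArg (fun p : K[X][X] => p.eval (C a)) hR
    rw [eval_mul, eval_mul, h0, mul_zero, mul_zero, EB1_eval_eval] at h1
    rw [eval_add, eval_mul, eval_C, EB1_map_C_eval, EB1_map_C_eval] at h1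
    have key : (evalRingHom (C a : K[X])).comp (mapRingHom (C : K →+* K[X])) =
        (C : K →+* K[X]).comp (evalRingHom a) := by
      ext x
      · simp
      · simp
    rw [Polynomial.map_map, key, ← Polynomial.map_map, eval_map, ← comp] at h1
    rcases comp_eq_zero_iff.1 h1 with h2 | ⟨_, h2⟩
    · exact (hf.map (evalRingHom a)).ne_zero h2
    · apply ha
      have h3 := congrArg (fun p : K[X] => p.coeff 1) h2
      simp only [coeff_add, coeff_X_mul, coeff_C_zero] at h3
      rw [coeff_C_of_ne_zero one_ne_zero, coeff_C_of_ne_zero one_ne_zero, zero_add] at h3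
      exact h3

end MPb197b4E
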