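import Pool.Agent.Lib.MP_b197b4_ntE.EDefs

/-!
# Leaf EB2: pencils, irreducibility
-/

set_option autoImplicit false

noncomputable section

namespace MPb197b4E

open Polynomial

variable {K : Type} [Field K]


/-- The exchange of the variables: both sides are ring homomorphisms in `f`. -/
theorem swap_comp (f : K[X][X]) (q h : K[X]) :
    Bivariate.swap (f.comp (C h * X + C q)) =
      (f.map (mapRingHom (C : K →+* K[X]))).eval (q.map C + C X * h.map C) := by
  have hY : Bivariate.swap (C h * X + C q : K[X][X]) = q.map C + C X * h.map C := by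
    rw [map_add, map_mul, Bivariate.swap_C, Bivariate.swap_C, Bivariate.swap_Y]
    ring
  induction f using Polynomial.induction_on' with
  | add p r hp hr =>
    rw [add_comp, map_add, hp, hr, Polynomial.map_add, eval_add]
  | monomial n a =>
    rw [monomial_comp, map_mul, map_pow, hY, Bivariate.swap_C, map_monomial, eval_monomial]
    rfl

theorem EB2_coeff_swap (p : K[X][X]) (i j : ℕ) :
    ((Bivariate.swap p).coeff i).coeff j = (p.coeff j).coeff i := by
  induction p using Polynomial.induction_on' with
  | add p r hp hr =>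
    rw [map_add, coeff_add, coeff_add, coeff_add, coeff_add, hp, hr]
  | monomial n a =>
    induction a using Polynomial.induction_on' with
    | add p r hp hr =>
      rw [map_add, map_add, coeff_add, coeff_add, coeff_add, coeff_add, hp, hr]
    | monomial m b =>
      rw [Bivariate.swap_monomial_monomial, coeff_monomial, coeff_monomial]
      by_cases h1 : m = i <;> by_cases h2 : n = j <;> simp [h1, h2, coeff_monomial]

/-- The pencil read in the other order of the variables. -/
theorem EB2_comp_eq {f : K[X][X]} {q h G : K[X]} {c : K} {R : K[X][X]}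
    (hR : IsPencil f q h G c R) :
    f.comp (C h * X + C q) = C (C c) * (C G * Bivariate.swap R) := by
  have h1 := swap_comp f q h
  have h2 : (f.map (mapRingHom (C : K →+* K[X]))).eval (q.map C + C X * h.map C) =
      C (C c) * (G.map C * R) := hR
  rw [h2] at h1
  have h3 := congrArg (Bivariate.swap (R := K)) h1
  rw [Bivariate.swap_swap_apply, map_mul, map_mul, Bivariate.swap_C_C, Bivariate.swap_map_C] at h3
  exact h3

/-- The degree in `t` is at most `D` (`swap_comp`, `natDegree_comp`). -/
theorem IsPencil.deg_le {f : K[X][X]} {D : ℕ} (hf : f.natDegree ≤ D) {q h G : K[X]} {c : K} {R : K[X][X]}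
    (hR : IsPencil f q h G c R) (hG : G ≠ 0) (hc0 : c ≠ 0) (j : ℕ) : (R.coeff j).natDegree ≤ D := by
  have h1 := EB2_comp_eq hR
  have h2 : (Bivariate.swap R).natDegree ≤ D := by
    have h3 : (C (C c) * (C G * Bivariate.swap R)).natDegree = (Bivariate.swap R).natDegree := by
      rw [natDegree_C_mul (C_ne_zero.2 hc0), natDegree_C_mul hG]
    rw [← h3, ← h1]
    refine (natDegree_comp_le).trans ?_
    have h4 : (C h * X + C q : K[X][X]).natDegree ≤ 1 := natDegree_linear_le
    calc f.natDegree * (C h * X + C q : K[X][X]).natDegree ≤ D * 1 := Nat.mul_le_mul hf h4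
      _ = D := Nat.mul_one D
  rw [natDegree_le_iff_coeff_eq_zero]
  intro i hi
  rw [← EB2_coeff_swap, coeff_eq_zero_of_natDegree_lt (lt_of_le_of_lt h2 hi), coeff_zero]

/-- The values of `R` at the constants are the specializations of the exchanged polynomial. -/
theorem EB2_eval_C (R : K[X][X]) (a : K) :
    R.eval (C a) = (Bivariate.swap R).map (evalRingHom a) := by
  induction R using Polynomial.induction_on' with
  | add p r hp hr =>
    rw [eval_add, hp, hr, map_add, Polynomial.map_add]
  | monomial n b =>
    rw [eval_monomial, Bivariate.swap_monomial, Polynomial.map_mul, map_C, map_map]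
    have h1 : (evalRingHom a).comp (C : K →+* K[X]) = RingHom.id K := by
      ext x
      simp
    rw [h1, Polynomial.map_id]
    simp

theorem EB2_primitive [IsAlgClosed K] {R : K[X][X]} (hprim : ∀ a, R.eval (C a) ≠ 0) :
    (Bivariate.swap R).IsPrimitive := by
  intro r hr
  by_contra hu
  have hS0 : Bivariate.swap R ≠ 0 := by
    intro h0
    apply hprim 0
    rw [EB2_eval_C, h0, Polynomial.map_zero]
  have hr0 : r ≠ 0 := by
    rintro rfl
    rw [C_0, zero_dvd_iff] at hr
    exact hS0 hr
  have hdeg : r.degree ≠ 0 := by
    intro h0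
    apply hu
    exact isUnit_iff_degree_eq_zero.2 h0
  obtain ⟨a, ha⟩ := IsAlgClosed.exists_root r hdeg
  apply hprim a
  obtain ⟨s, hs⟩ := hr
  rw [EB2_eval_C, hs, Polynomial.map_mul, map_C, coe_evalRingHom, ha.eq_zero, C_0, zero_mul]

/-- Irreducibility. `f` is irreducible over `K(X)` (Gauss), also after the linear change of the variable
`Y = q + t h` (`Polynomial.algEquivCMulXAddC`), `swap R` is primitive over `K[X]` (`hprim`), so it is
irreducible in `K[X][t]`; swap, `R` is monic in `X`, Gauss again. -/
theorem IsPencil.irreducible [IsAlgClosed K] {f : K[X][X]} (hf : f.Monic) (hfi : Irreducible f)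
    {q h G : K[X]} {c : K} {R : K[X][X]} (hR : IsPencil f q h G c R) (hh : h ≠ 0) (hc : c ≠ 0)
    (hG : G ≠ 0) (hRm : R.Monic) (hprim : ∀ a, R.eval (C a) ≠ 0) :
    Irreducible (R.map (algebraMap K[X] (RatFunc K))) := by
  have h1 : Irreducible (f.map (algebraMap K[X] (RatFunc K))) :=
    (hf.irreducible_iff_irreducible_map_fraction_map).1 hfi
  have hh' : algebraMap K[X] (RatFunc K) h ≠ 0 := by
    intro h0
    exact hh ((FaithfulSMul.algebraMap_injective K[X] (RatFunc K)) (h0.trans (map_zero _).symm))
  have hG' : algebraMap K[X] (RatFunc K) G ≠ 0 := by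
    intro h0
    exact hG ((FaithfulSMul.algebraMap_injective K[X] (RatFunc K)) (h0.trans (map_zero _).symm))
  have hc' : algebraMap K[X] (RatFunc K) (C c) ≠ 0 := by
    intro h0
    exact (C_ne_zero.2 hc)
      ((FaithfulSMul.algebraMap_injective K[X] (RatFunc K)) (h0.trans (map_zero _).symm))
  let _ : Invertible (algebraMap K[X] (RatFunc K) h) := invertibleOfNonzero hh'
  have h2 : Irreducible ((f.map (algebraMap K[X] (RatFunc K))).comp
      (C (algebraMap K[X] (RatFunc K) h) * X + C (algebraMap K[X] (RatFunc K) q))) := by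
    have h3 := (MulEquiv.irreducible_iff
      (algEquivCMulXAddC (algebraMap K[X] (RatFunc K) h) (algebraMap K[X] (RatFunc K) q))).2 h1
    have h4 : (algEquivCMulXAddC (algebraMap K[X] (RatFunc K) h) (algebraMap K[X] (RatFunc K) q))
        (f.map (algebraMap K[X] (RatFunc K))) = (f.map (algebraMap K[X] (RatFunc K))).comp
        (C (algebraMap K[X] (RatFunc K) h) * X + C (algebraMap K[X] (RatFunc K) q)) := by
      rw [algEquivCMulXAddC_apply, comp_eq_aeval]
    rw [h4] at h3
    exact h3
  have h5 : (f.map (algebraMap K[X] (RatFunc K))).comp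
      (C (algebraMap K[X] (RatFunc K) h) * X + C (algebraMap K[X] (RatFunc K) q)) =
      C (algebraMap K[X] (RatFunc K) (C c)) * (C (algebraMap K[X] (RatFunc K) G) *
        (Bivariate.swap R).map (algebraMap K[X] (RatFunc K))) := by
    have h6 := congrArg (Polynomial.map (algebraMap K[X] (RatFunc K))) (EB2_comp_eq hR)
    rw [map_comp, Polynomial.map_mul, Polynomial.map_mul, Polynomial.map_add, Polynomial.map_mul,
      map_X, map_C, map_C, map_C, map_C] at h6
    exact h6
  have h7 : Irreducible ((Bivariate.swap R).map (algebraMap K[X] (RatFunc K))) := by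
    rw [h5] at h2
    rw [irreducible_isUnit_mul (isUnit_C.2 (isUnit_iff_ne_zero.2 hc')),
      irreducible_isUnit_mul (isUnit_C.2 (isUnit_iff_ne_zero.2 hG'))] at h2
    exact h2
  have h8 : Irreducible (Bivariate.swap R) :=
    ((EB2_primitive hprim).irreducible_iff_irreducible_map_fraction_map (K := RatFunc K)).2 h7
  have h9 : Irreducible R := by
    have h10 := (MulEquiv.irreducible_iff (Bivariate.swap (R := K))).2 h8
    rw [Bivariate.swap_swap_apply] at h10
    exact h10
  exact (hRm.irreducible_iff_irreducible_map_fraction_map).1 h9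

end MPb197b4E
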