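import Pool.Agent.Lib.MP_b197b4_ntE.EB1
import Pool.Agent.Lib.MP_b197b4_ntE.EB2
import Pool.Agent.Lib.MP_b197b4_ntP.Mono

/-!
# Leaf EC1: the Galois group of a pencil through a special member
-/

set_option autoImplicit false

noncomputable section

namespace MPb197b4E

open Polynomial

variable {k : Type} [Field k] [IsAlgClosed k]

/-- The pencil through a special member: Theorem M (`MPb197b4P.monodromy` with `F := RatFunc k`). `v` is
prime to the marked divisor and to the residual divisor. Separability: `R(0, X)` has a simple root (a root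
of `S`). -/
theorem full_gal {m D : ℕ} {f : k[X][X]} (hf : Wt m D f) (hfi : Irreducible f) {x : k} {e : ℕ}
    {T : Finset k} {q : k[X]} (hM : Marked f x e T q) (hq : q.natDegree ≤ m) {c : k}
    (hc : (topPol m D f).eval (q.coeff m) = c) (hc0 : c ≠ 0)
    (hs : (m * D - (e + T.card)).Prime) (h3 : 3 ≤ m * D - (e + T.card)) {S : k[X]}
    (hS : f.eval q = GG x e T * ((X - C x) ^ 2 * S)) (hSs : S.Separable) (hSx : S.eval x ≠ 0)
    {v : k[X]} (hv0 : v ≠ 0) (hv : IsCoprime v (GG x e T * S)) (hvd : v.natDegree + (e + T.card) < m)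
    {R : k[X][X]} (hR : IsPencil f q (GG x e T * v) (GG x e T) c R) :
    (R.map (algebraMap k[X] (RatFunc k))).Separable ∧
      Nat.card (R.map (algebraMap k[X] (RatFunc k))).Gal = (m * D - (e + T.card)).factorial := by
  classical
  obtain ⟨hGm, hGd⟩ := GG_monic x e T
  have hG0 : GG x e T ≠ 0 := hGm.ne_zero
  have hhd : (GG x e T * v).natDegree < m := by
    rw [natDegree_mul hG0 hv0, hGd]; omega
  obtain ⟨hRm, hRd⟩ := hR.monic hf hq hhd hGm hc hc0
  rw [hGd] at hRd
  have hRs : R.natDegree = m * D - (e + T.card) := by omega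
  -- coprimality at points
  have hcop : ∀ a, v.eval a = 0 → (GG x e T * S).eval a ≠ 0 := by
    intro a ha h
    obtain ⟨u, w, huw⟩ := hv
    have := congrArg (eval a) huw
    rw [eval_add, eval_mul, eval_mul (p := w), ha, h, mul_zero, mul_zero, add_zero, eval_one] at this
    exact zero_ne_one this
  have hvx : v.eval x ≠ 0 := by
    intro h
    refine hcop x h ?_
    rw [eval_mul, (GG_eval x e T hM.one x).2 (Or.inl rfl), zero_mul]
  have hprim : ∀ a, R.eval (C a) ≠ 0 := by
    refine hR.prim hf.monic hc0 hG0 hS ?_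
    intro a ha
    rw [eval_mul, mul_eq_zero] at ha
    by_cases hva : v.eval a = 0
    · left
      have h1 := hcop a hva
      rw [eval_mul] at h1
      have hax : a ≠ x := fun h => left_ne_zero_of_mul h1 ((GG_eval x e T hM.one a).2 (Or.inl h))
      rw [eval_mul, eval_pow, eval_sub, eval_X, eval_C]
      exact mul_ne_zero (pow_ne_zero _ (sub_ne_zero.2 hax)) (right_ne_zero_of_mul h1)
    · have hGa : (GG x e T).eval a = 0 := ha.resolve_right hva
      rcases (GG_eval x e T hM.one a).1 hGa with h | h
      · right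
        rw [h] at hva ⊢
        exact mul_ne_zero hva hM.ram
      · rcases hM.residual hS h with h1 | h1
        · exact Or.inl h1
        · exact Or.inr (mul_ne_zero hva h1)
  have hh0 : GG x e T * v ≠ 0 := mul_ne_zero hG0 hv0
  have hirr := hR.irreducible hf.monic hfi hh0 hc0 hG0 hRm hprim
  -- the special member
  have hR0 : R.map (evalRingHom (0 : k)) = (X - C x) ^ 2 * (C c⁻¹ * S) := by
    have h1 := hR.spec 0
    rw [C_0, zero_mul, add_zero, hS] at h1
    have h2 : C c * R.map (evalRingHom (0 : k)) = (X - C x) ^ 2 * S := by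
      refine mul_left_cancel₀ hG0 ?_
      rw [h1]; ring
    calc R.map (evalRingHom (0 : k)) = C c⁻¹ * (C c * R.map (evalRingHom (0 : k))) := by
          rw [← mul_assoc, ← C_mul, inv_mul_cancel₀ hc0, C_1, one_mul]
      _ = (X - C x) ^ 2 * (C c⁻¹ * S) := by rw [h2]; ring
  have hci : c⁻¹ ≠ 0 := inv_ne_zero hc0
  have hS1s : (C c⁻¹ * S).Separable := by
    have hu : IsUnit (C c⁻¹ : k[X]) := isUnit_C.2 (isUnit_iff_ne_zero.2 hci)
    exact Separable.unit_mul hu hSs
  have hS1x : (C c⁻¹ * S).eval x ≠ 0 := by
    rw [eval_mul, eval_C]; exact mul_ne_zero hci hSx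
  -- separable
  have hder : derivative (R.map (algebraMap k[X] (RatFunc k))) ≠ 0 := by
    intro h
    rw [derivative_map] at h
    have h0 : derivative R = 0 := by
      have := (Polynomial.map_injective (algebraMap k[X] (RatFunc k))
        (IsFractionRing.injective k[X] (RatFunc k)))
      exact this (by rw [h, Polynomial.map_zero])
    have h1 : derivative (R.map (evalRingHom (0 : k))) = 0 := by
      rw [derivative_map, h0, Polynomial.map_zero]
    have hdeg : S.natDegree ≠ 0 := by
      intro hz
      have h2 : (R.map (evalRingHom (0 : k))).natDegree = m * D - (e + T.card) := by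
        rw [hRm.natDegree_map, hRs]
      have hS0 : S ≠ 0 := hSs.ne_zero
      rw [hR0, natDegree_mul (pow_ne_zero _ (X_sub_C_ne_zero x)) (mul_ne_zero (C_ne_zero.2 hci) hS0),
        natDegree_pow, natDegree_X_sub_C, natDegree_C_mul hci, hz] at h2
      omega
    obtain ⟨b, hb⟩ := IsAlgClosed.exists_root S (fun h => hdeg (natDegree_eq_of_degree_eq_some h))
    have hbx : b ≠ x := fun h => hSx (by rw [← h]; exact hb)
    have hb' : (derivative S).eval b ≠ 0 := by
      intro h2
      obtain ⟨u, w, huw⟩ := hSs
      have := congrArg (eval b) huw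
      rw [eval_add, eval_mul, eval_mul, h2, hb.eq_zero, mul_zero, mul_zero, add_zero, eval_one] at this
      exact zero_ne_one this
    have h3' := congrArg (eval b) h1
    rw [hR0, derivative_mul, derivative_C_mul, eval_add, eval_mul, eval_mul, eval_mul, eval_mul,
      hb.eq_zero, mul_zero, mul_zero, zero_add, eval_pow, eval_sub, eval_X, eval_C, eval_C,
      eval_zero] at h3'
    exact mul_ne_zero (pow_ne_zero _ (sub_ne_zero.2 hbx)) (mul_ne_zero hci hb') h3'
  have hsep : (R.map (algebraMap k[X] (RatFunc k))).Separable :=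
    (separable_iff_derivative_ne_zero hirr).2 hder
  refine ⟨hsep, ?_⟩
  rw [← hRs]
  refine MPb197b4P.monodromy R hRm (by rw [hRs]; exact hs) hirr hsep x (C c⁻¹ * S) hS1s hS1x hR0 ?_
  intro h
  have h1 := hR.eval_base hG0 hS (a := x)
    (by rw [eval_mul, (GG_eval x e T hM.one x).2 (Or.inl rfl), zero_mul])
  have h2 := congrArg (fun r : k[X] => r.coeff 1) h1
  simp only [coeff_C_mul, coeff_add, coeff_X_mul, coeff_C_zero] at h2
  rw [h, mul_zero, coeff_C_succ, zero_add] at h2
  exact mul_ne_zero hvx hM.ram h2.symm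

end MPb197b4E
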