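import Pool.Agent.Lib.MP_b197b4_ntE.EB1
import Pool.Agent.Lib.MP_b197b4_ntE.EB2

/-!
# Leaf EC2: generic lines are separable
-/

set_option autoImplicit false

noncomputable section

namespace MPb197b4E

open Polynomial

variable {k : Type} [Field k] [IsAlgClosed k]

/-- Comparison of the coefficients of `t`: if `R = S + t W + t ^ 2 E` has derivative zero with respect to
the outer variable, then `W` has derivative zero. -/
theorem EC2_coeff {R E : k[X][X]} {S W : k[X]} {c : k} (hc : c ≠ 0) {M : k[X]}
    (h : C (C c) * R = S.map C + C X * W.map C + C X ^ 2 * (M.map C * E)) (hR : derivative R = 0) :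
    derivative W = 0 := by
  have h1 := congrArg derivative h
  rw [derivative_mul, hR, mul_zero, add_zero, derivative_C, zero_mul] at h1
  rw [derivative_add, derivative_add] at h1
  rw [derivative_C_mul] at h1
  rw [← C_pow, derivative_C_mul, derivative_map, derivative_map] at h1
  ext n
  have h2 := congrArg (fun p : k[X][X] => (p.coeff n).coeff 1) h1
  simp only [coeff_zero, coeff_add, coeff_map, coeff_C_mul] at h2
  rw [coeff_C_ne_zero (by norm_num), coeff_X_mul, coeff_C_zero] at h2
  rw [pow_two, mul_assoc, coeff_X_mul, mul_coeff_zero, coeff_X_zero, zero_mul] at h2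
  simpa using h2.symm

/-- One of the two lines with the directions `1` and `X - ξ` is separable: both are irreducible over `k(t)`
(`IsPencil.prim`, `IsPencil.irreducible`); if both have derivative zero, then the coefficients of `t`
(`IsPencil.taylor`), that is `f_Y(X, q)` and `(X - ξ) f_Y(X, q)`, have derivative zero, so
`f_Y(X, q) = 0`. -/
theorem generic_line {m D : ℕ} {f : k[X][X]} (hf : Wt m D f) (hfi : Irreducible f) {x : k} {e : ℕ}
    {T : Finset k} {q : k[X]} (hM : Marked f x e T q) (hq : q.natDegree ≤ m) {c : k}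
    (hc : (topPol m D f).eval (q.coeff m) = c) (hc0 : c ≠ 0) {ξ : k} (hξ : (f.eval q).eval ξ ≠ 0)
    (hdeg : e + T.card + 1 < m) {R₁ R₂ : k[X][X]}
    (h1 : IsPencil f q (GG x e T * 1) (GG x e T) c R₁)
    (h2 : IsPencil f q (GG x e T * (X - C ξ)) (GG x e T) c R₂) :
    (R₁.map (algebraMap k[X] (RatFunc k))).Separable ∨
      (R₂.map (algebraMap k[X] (RatFunc k))).Separable := by
  obtain ⟨hGm, hGd⟩ := GG_monic x e T
  have hG0 : GG x e T ≠ 0 := hGm.ne_zero
  obtain ⟨S, hS⟩ := hM.dvd
  have hGξ : (GG x e T).eval ξ ≠ 0 ∧ S.eval ξ ≠ 0 := by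
    rw [hS, eval_mul] at hξ
    exact ⟨left_ne_zero_of_mul hξ, right_ne_zero_of_mul hξ⟩
  have hres : ∀ a, (GG x e T).eval a = 0 → S.eval a ≠ 0 ∨ fY f a (q.eval a) ≠ 0 := by
    intro a ha
    rcases (GG_eval x e T hM.one a).1 ha with h | h
    · subst h
      exact Or.inr hM.ram
    · exact hM.residual hS h
  -- the two pencils are irreducible
  have hd1 : (GG x e T * 1).natDegree < m := by
    rw [mul_one, hGd]; omega
  have hd2 : (GG x e T * (X - C ξ)).natDegree < m := by
    rw [hGm.natDegree_mul (monic_X_sub_C ξ), hGd, natDegree_X_sub_C]; omega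
  have hm1 := (h1.monic hf hq hd1 hGm hc hc0).1
  have hm2 := (h2.monic hf hq hd2 hGm hc hc0).1
  have hp1 : ∀ a, R₁.eval (C a) ≠ 0 := by
    refine h1.prim hf.monic hc0 hG0 hS ?_
    intro a ha
    rw [mul_one] at ha
    rcases hres a ha with h | h
    · exact Or.inl h
    · right; rw [eval_one, one_mul]; exact h
  have hp2 : ∀ a, R₂.eval (C a) ≠ 0 := by
    refine h2.prim hf.monic hc0 hG0 hS ?_
    intro a ha
    by_cases haξ : a = ξ
    · left; rw [haξ]; exact hGξ.2
    · rw [eval_mul] at ha
      have ha' : (GG x e T).eval a = 0 := by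
        rcases mul_eq_zero.1 ha with h | h
        · exact h
        · exact absurd (sub_eq_zero.1 (by simpa using h)) haξ
      rcases hres a ha' with h | h
      · exact Or.inl h
      · right
        refine mul_ne_zero ?_ h
        rw [eval_sub, eval_X, eval_C]
        exact sub_ne_zero.2 haξ
  have hX : (X - C ξ : k[X]) ≠ 0 := (monic_X_sub_C ξ).ne_zero
  have hi1 := h1.irreducible hf.monic hfi (by rw [mul_one]; exact hG0) hc0 hG0 hm1 hp1
  have hi2 := h2.irreducible hf.monic hfi (mul_ne_zero hG0 hX) hc0 hG0 hm2 hp2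
  rw [separable_iff_derivative_ne_zero hi1, separable_iff_derivative_ne_zero hi2]
  by_contra hcon
  push_neg at hcon
  obtain ⟨hz1, hz2⟩ := hcon
  have hinj : Function.Injective (mapRingHom (algebraMap k[X] (RatFunc k))) :=
    map_injective _ (RatFunc.algebraMap_injective k)
  have hz1' : derivative R₁ = 0 := by
    apply hinj
    rw [map_zero, coe_mapRingHom, ← derivative_map]
    exact hz1
  have hz2' : derivative R₂ = 0 := by
    apply hinj
    rw [map_zero, coe_mapRingHom, ← derivative_map]
    exact hz2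
  obtain ⟨E1, hE1⟩ := h1.taylor hG0 hS
  obtain ⟨E2, hE2⟩ := h2.taylor hG0 hS
  have hW1 := EC2_coeff hc0 hE1 hz1'
  have hW2 := EC2_coeff hc0 hE2 hz2'
  rw [one_mul] at hW1
  rw [derivative_mul, hW1, mul_zero, add_zero, derivative_sub, derivative_X, derivative_C, sub_zero,
    one_mul] at hW2
  apply hM.ram
  rw [fY_eq, hW2, eval_zero]

end MPb197b4E
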