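import Mathlib

/-!
# Equidistribution of the split members: definitions

`f : K[X][X]` is a polynomial `f(X, Y)`, the inner variable is `X`, the outer variable is `Y`. For
`q : K[X]` the polynomial `f.eval q` is `f(X, q(X))`.
-/

set_option autoImplicit false

noncomputable section

namespace MPb197b4E

open Polynomial

variable {K : Type} [Field K]

/-- `f` is monic of degree `D` in `Y`, of weighted degree `m * D`, where `X` has weight `1` and `Y` has
weight `m`. -/
structure Wt {A : Type} [CommRing A] (m D : ℕ) (f : A[X][X]) : Prop where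
  monic : f.Monic
  deg : f.natDegree = D
  wt : ∀ i ≤ D, (f.coeff i).natDegree ≤ m * (D - i)

/-- The top polynomial `f_top(Y)`. -/
def topPol {A : Type} [CommRing A] (m D : ℕ) (f : A[X][X]) : A[X] :=
  ∑ i ∈ Finset.range (D + 1), C ((f.coeff i).coeff (m * (D - i))) * X ^ i

/-- The value of the derivative with respect to `Y` at the point `(a, b)`. -/
def fY (f : K[X][X]) (a b : K) : K := evalEval a b (derivative f)

/-- The value of the derivative with respect to `X` at the point `(a, b)`. -/
def fX (f : K[X][X]) (a b : K) : K := (derivative (f.eval (C b))).eval a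

/-- `f (X, q + t h) = c G(X) R(t, X)`: in `R` the inner variable is `t`, the outer variable is `X`. -/
def IsPencil (f : K[X][X]) (q h G : K[X]) (c : K) (R : K[X][X]) : Prop :=
  (f.map (mapRingHom (C : K →+* K[X]))).eval (q.map C + C X * h.map C) = C (C c) * (G.map C * R)

/-- The marked divisor. -/
def GG (x : K) (e : ℕ) (T : Finset K) : K[X] := (X - C x) ^ e * ∏ a ∈ T, (X - C a)

/-- The curve `Y = q(X)` meets the curve `f = 0` in the marked divisor; `Y` is unramified at the marked
point over `x`, the other marked points are regular points. -/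
structure Marked (f : K[X][X]) (x : K) (e : ℕ) (T : Finset K) (q : K[X]) : Prop where
  one : 1 ≤ e
  not_mem : x ∉ T
  dvd : GG x e T ∣ f.eval q
  ram : fY f x (q.eval x) ≠ 0
  reg : ∀ a ∈ T, fX f a (q.eval a) ≠ 0 ∨ fY f a (q.eval a) ≠ 0

/-- The polynomials of degree `< r` over a finite field. -/
def pol (F : Type) [Field F] [Fintype F] (r : ℕ) : Finset F[X] := by
  classical
  exact Finset.univ.image fun c : Fin r → F => ∑ i, C (c i) * X ^ (i : ℕ)

section Count

variable {F : Type} [Field F] [Fintype F] [DecidableEq F]

/-- `g` has `n` different roots in `F`. -/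
def Split (n : ℕ) (g : F[X]) : Prop := g.roots.toFinset.card = n

open Classical in
/-- The number of the `w` of degree `< r` such that the residual polynomial `f(X, q + G w) / G` has `s`
different roots in `F`. -/
def resCount (f : F[X][X]) (q G : F[X]) (r s : ℕ) : ℕ :=
  ((pol F r).filter fun w => Split s (f.eval (q + G * w) /ₘ G)).card

open Classical in
/-- The number of the `q` of degree `≤ m` through the points of `M` such that `f(X, q(X))` has `m * D`
different roots in `F`. -/
def cnt (m D : ℕ) (f : F[X][X]) (M : Finset (F × F)) : ℕ :=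
  ((pol F (m + 1)).filter fun q => (∀ b ∈ M, q.eval b.1 = b.2) ∧ Split (m * D) (f.eval q)).card

/-- The regular `F`-points of the curve `f = 0` which are not over the base points. -/
def pts (f : F[X][X]) (B : Finset (F × F)) : Finset (F × F) := by
  classical
  exact Finset.univ.filter fun y => evalEval y.1 y.2 f = 0 ∧ (fX f y.1 y.2 ≠ 0 ∨ fY f y.1 y.2 ≠ 0) ∧
    ∀ b ∈ B, b.1 ≠ y.1

/-- A set of marked points: regular points of the curve over different `x`, at one of them `Y` is
unramified. -/
structure Base (f : F[X][X]) (B : Finset (F × F)) : Prop where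
  inj : ∀ b ∈ B, ∀ b' ∈ B, b.1 = b'.1 → b = b'
  on : ∀ b ∈ B, evalEval b.1 b.2 f = 0
  reg : ∀ b ∈ B, fX f b.1 b.2 ≠ 0 ∨ fY f b.1 b.2 ≠ 0
  ram : ∃ b ∈ B, fY f b.1 b.2 ≠ 0

end Count

end MPb197b4E
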