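import Pool.Agent.Lib.MP_b197b4_ntE.EE1

/-!
# Leaf EE2: counting polynomials over a finite field, lines and cosets
-/

set_option autoImplicit false

noncomputable section

namespace MPb197b4E

open Polynomial Finset

variable {F : Type} [Field F] [Fintype F]

theorem EE2_mem {r : ℕ} {w : F[X]} : w ∈ pol F r ↔ ∀ n, r ≤ n → w.coeff n = 0 := by
  rw [mem_pol, degree_lt_iff_coeff_zero]

open Classical in
theorem EE2_root {r : ℕ} {K : Type} [Field K] [Algebra F K] (α : K) :
    ((pol F (r + 1)).filter fun w => aeval α w = 0).card ≤ Fintype.card F ^ r := by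
  rw [← card_pol (F := F) r]
  refine Finset.card_le_card_of_injOn divX ?_ ?_
  · intro w hw
    rw [mem_coe, mem_filter, EE2_mem] at hw
    rw [mem_coe, EE2_mem]
    intro n hn
    rw [coeff_divX]
    exact hw.1 (n + 1) (by omega)
  · intro w hw w' hw' h
    rw [mem_coe, mem_filter] at hw hw'
    have h1 : ∀ v : F[X], aeval α v = 0 →
        algebraMap F K (v.coeff 0) = -(aeval α (divX v) * α) := by
      intro v hv
      rw [← divX_mul_X_add v, map_add, map_mul, aeval_X, aeval_C] at hv
      linear_combination hv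
    have h2 : algebraMap F K (w.coeff 0) = algebraMap F K (w'.coeff 0) := by
      rw [h1 w hw.2, h1 w' hw'.2, h]
    rw [← divX_mul_X_add w, ← divX_mul_X_add w', h, (algebraMap F K).injective h2]

open Classical in
/-- The elements `w` which are not prime to `g` have a common root `α` with `g` in a splitting field of
`g`, at most `natDegree g` of them; `w(α) = 0` determines the constant coefficient of `w` by the others. -/
theorem card_not_coprime {r : ℕ} {g : F[X]} (hg : g ≠ 0) :
    ((pol F (r + 1)).filter fun w => ¬ IsCoprime w g).card ≤ g.natDegree * Fintype.card F ^ r := by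
  have h1 : ((pol F (r + 1)).filter fun w => ¬ IsCoprime w g) ⊆
      (g.aroots (AlgebraicClosure F)).toFinset.biUnion
        fun α => (pol F (r + 1)).filter fun w => aeval α w = 0 := by
    intro w hw
    rw [mem_filter] at hw
    obtain ⟨hw1, hw2⟩ := hw
    rw [isCoprime_iff_aeval_ne_zero_of_isAlgClosed F (AlgebraicClosure F)] at hw2
    push Not at hw2
    obtain ⟨a, ha1, ha2⟩ := hw2
    rw [mem_biUnion]
    refine ⟨a, ?_, ?_⟩
    · rw [Multiset.mem_toFinset, mem_aroots]
      exact ⟨hg, ha2⟩
    · rw [mem_filter]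
      exact ⟨hw1, ha1⟩
  have h3 : (g.aroots (AlgebraicClosure F)).toFinset.card ≤ g.natDegree := by
    refine (Multiset.toFinset_card_le _).trans ((card_roots' _).trans ?_)
    rw [natDegree_map]
  calc ((pol F (r + 1)).filter fun w => ¬ IsCoprime w g).card
      ≤ ((g.aroots (AlgebraicClosure F)).toFinset.biUnion
        fun α => (pol F (r + 1)).filter fun w => aeval α w = 0).card := card_le_card h1
    _ ≤ ∑ α ∈ (g.aroots (AlgebraicClosure F)).toFinset,
        ((pol F (r + 1)).filter fun w => aeval α w = 0).card := card_biUnion_le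
    _ ≤ ∑ α ∈ (g.aroots (AlgebraicClosure F)).toFinset, Fintype.card F ^ r :=
        sum_le_sum fun α _ => EE2_root α
    _ = (g.aroots (AlgebraicClosure F)).toFinset.card * Fintype.card F ^ r := by
        rw [sum_const, smul_eq_mul]
    _ ≤ g.natDegree * Fintype.card F ^ r := Nat.mul_le_mul_right _ h3

open Classical in
theorem EE2_line {r : ℕ} (P : F[X] → Prop) {w₀ : F[X]} (h₀ : w₀ ∈ pol F r) {t : F} (ht : t ≠ 0) :
    ((pol F r).filter fun v => P (w₀ + C t * v)).card = ((pol F r).filter P).card := by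
  rw [EE2_mem] at h₀
  refine Finset.card_nbij' (fun v => w₀ + C t * v) (fun w => C t⁻¹ * (w - w₀)) ?_ ?_ ?_ ?_
  · intro v hv
    rw [mem_coe, mem_filter, EE2_mem] at hv
    rw [mem_coe, mem_filter, EE2_mem]
    refine ⟨fun n hn => ?_, hv.2⟩
    rw [coeff_add, coeff_C_mul, h₀ n hn, hv.1 n hn, mul_zero, add_zero]
  · intro w hw
    rw [mem_coe, mem_filter, EE2_mem] at hw
    rw [mem_coe, mem_filter, EE2_mem]
    refine ⟨fun n hn => ?_, ?_⟩
    · rw [coeff_C_mul, coeff_sub, h₀ n hn, hw.1 n hn, sub_zero, mul_zero]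
    · have h1 : w₀ + C t * (C t⁻¹ * (w - w₀)) = w := by
        rw [← mul_assoc, ← C_mul, mul_inv_cancel₀ ht, C_1, one_mul, add_sub_cancel]
      rw [h1]
      exact hw.2
  · intro v _
    show C t⁻¹ * (w₀ + C t * v - w₀) = v
    rw [add_sub_cancel_left, ← mul_assoc, ← C_mul, inv_mul_cancel₀ ht, C_1, one_mul]
  · intro w _
    show w₀ + C t * (C t⁻¹ * (w - w₀)) = w
    rw [← mul_assoc, ← C_mul, mul_inv_cancel₀ ht, C_1, one_mul, add_sub_cancel]

open Classical in
/-- The lines through `w₀`: for `t ≠ 0` the map `v ↦ w₀ + t v` is a bijection. -/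
theorem sum_lines {r : ℕ} (P : F[X] → Prop) {w₀ : F[X]} (h₀ : w₀ ∈ pol F r) (hP : ¬ P w₀) :
    ∑ v ∈ pol F r, ((univ : Finset F).filter fun t => P (w₀ + C t * v)).card =
      (Fintype.card F - 1) * ((pol F r).filter P).card := by
  have h1 : ∑ v ∈ pol F r, ((univ : Finset F).filter fun t => P (w₀ + C t * v)).card =
      ∑ t ∈ (univ : Finset F), ((pol F r).filter fun v => P (w₀ + C t * v)).card :=
    Finset.sum_card_bipartiteAbove_eq_sum_card_bipartiteBelow (fun v t => P (w₀ + C t * v))
  have h2 : ((pol F r).filter fun v => P (w₀ + C (0 : F) * v)).card = 0 := by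
    rw [card_eq_zero, filter_eq_empty_iff]
    intro v _
    rw [C_0, zero_mul, add_zero]
    exact hP
  rw [h1, ← Finset.add_sum_erase _ _ (mem_univ (0 : F)), h2, zero_add,
    Finset.sum_congr rfl fun t ht => EE2_line P h₀ (Finset.ne_of_mem_erase ht), sum_const,
    card_erase_of_mem (mem_univ _), card_univ, smul_eq_mul]

open Classical in
/-- The polynomials of degree `≤ m` which agree with `q₀` modulo the monic polynomial `G` of degree
`g ≤ m`, are `q₀ + G (C μ X ^ (m - g) + w)`, `w` of degree `< m - g`; `q₀` has degree `< m`. -/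
theorem sum_coset {m g : ℕ} {q₀ G : F[X]} (hG : G.Monic) (hg : G.natDegree = g) (hgm : g ≤ m)
    (hq₀ : q₀.natDegree < m) (P : F[X] → Prop) :
    ((pol F (m + 1)).filter fun q => G ∣ q - q₀ ∧ P q).card =
      ∑ μ : F, ((pol F (m - g)).filter fun w => P (q₀ + G * (C μ * X ^ (m - g)) + G * w)).card := by
  have hG0 : G ≠ 0 := hG.ne_zero
  rw [← Finset.card_sigma]
  symm
  refine Finset.card_bij (fun s _ => q₀ + G * (C s.1 * X ^ (m - g)) + G * s.2) ?_ ?_ ?_
  · rintro ⟨μ, w⟩ hs
    rw [mem_sigma, mem_filter] at hs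
    obtain ⟨-, hw, hP⟩ := hs
    simp only at hw hP
    rw [mem_filter]
    refine ⟨?_, ⟨C μ * X ^ (m - g) + w, by ring⟩, hP⟩
    rw [mem_pol] at hw ⊢
    have e1 : q₀ + G * (C μ * X ^ (m - g)) + G * w = q₀ + G * (C μ * X ^ (m - g) + w) := by ring
    show (q₀ + G * (C μ * X ^ (m - g)) + G * w).degree < _
    rw [e1]
    have h1 : q₀.degree < ((m + 1 : ℕ) : WithBot ℕ) :=
      lt_of_le_of_lt degree_le_natDegree (by exact_mod_cast (by omega : q₀.natDegree < m + 1))
    have h2 : (C μ * X ^ (m - g) + w).natDegree ≤ m - g := by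
      refine (natDegree_add_le _ _).trans (max_le (natDegree_C_mul_X_pow_le _ _) ?_)
      exact natDegree_le_of_degree_le hw.le
    have h3 : (G * (C μ * X ^ (m - g) + w)).natDegree ≤ m := by
      refine natDegree_mul_le.trans ?_
      omega
    have h4 : (G * (C μ * X ^ (m - g) + w)).degree < ((m + 1 : ℕ) : WithBot ℕ) :=
      lt_of_le_of_lt degree_le_natDegree
        (by exact_mod_cast (by omega : (G * (C μ * X ^ (m - g) + w)).natDegree < m + 1))
    exact lt_of_le_of_lt (degree_add_le _ _) (max_lt h1 h4)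
  · rintro ⟨μ, w⟩ hs ⟨μ', w'⟩ hs' h
    rw [mem_sigma, mem_filter, EE2_mem] at hs hs'
    have hw := hs.2.1
    have hw' := hs'.2.1
    simp only at h hw hw'
    have h1 : G * (C μ * X ^ (m - g) + w) = G * (C μ' * X ^ (m - g) + w') := by
      linear_combination h
    have h2 := mul_left_cancel₀ hG0 h1
    have h3 := congrArg (fun p : F[X] => p.coeff (m - g)) h2
    simp only [coeff_add, coeff_C_mul, coeff_X_pow_self, mul_one] at h3
    rw [hw _ le_rfl, hw' _ le_rfl, add_zero, add_zero] at h3
    subst h3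
    rw [add_right_inj] at h2
    rw [h2]
  · intro q hq
    rw [mem_filter, mem_pol] at hq
    obtain ⟨hq1, ⟨h, hh⟩, hP⟩ := hq
    have hd : (q - q₀).natDegree ≤ m := by
      refine (natDegree_sub_le _ _).trans (max_le ?_ hq₀.le)
      rw [degree_lt_iff_coeff_zero] at hq1
      exact natDegree_le_iff_coeff_eq_zero.2 fun n hn => hq1 n hn
    have hd2 : h.natDegree ≤ m - g := by
      by_cases h0 : h = 0
      · rw [h0, natDegree_zero]
        exact Nat.zero_le _
      · rw [hh, natDegree_mul hG0 h0, hg] at hd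
        omega
    have e1 : q₀ + G * (C (h.coeff (m - g)) * X ^ (m - g)) +
        G * (h - C (h.coeff (m - g)) * X ^ (m - g)) = q := by
      linear_combination -hh
    refine ⟨⟨h.coeff (m - g), h - C (h.coeff (m - g)) * X ^ (m - g)⟩, ?_, e1⟩
    rw [mem_sigma, mem_filter]
    refine ⟨mem_univ _, ?_, ?_⟩
    · rw [EE2_mem]
      intro n hn
      show (h - C (h.coeff (m - g)) * X ^ (m - g)).coeff n = 0
      rw [coeff_sub, coeff_C_mul, coeff_X_pow]
      by_cases hn2 : n = m - g
      · rw [if_pos hn2, hn2, mul_one, sub_self]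
      · rw [if_neg hn2, mul_zero, sub_zero]
        exact coeff_eq_zero_of_natDegree_lt (by omega)
    · show P (q₀ + G * (C (h.coeff (m - g)) * X ^ (m - g)) +
        G * (h - C (h.coeff (m - g)) * X ^ (m - g)))
      rw [e1]
      exact hP

end MPb197b4E
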