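import Pool.Agent.Lib.MP_b197b4_ntE.EDefs
import Pool.Agent.Lib.MP_b197b4_ntW.WI

/-!
# Leaf EF1: Chebotarev over a finite field `F`
-/

set_option autoImplicit false

noncomputable section

namespace MPb197b4E

open Polynomial Finset

section
variable {F k : Type} [Field F] [Fintype F] [Field k] [IsAlgClosed k] [Algebra F k]

omit [Fintype F] [IsAlgClosed k] in
theorem EF1_spec (R : F[X][X]) (t : F) :
    MPb197b4W.spec (R.map (mapRingHom (algebraMap F k))) (algebraMap F k t) =
      (R.map (evalRingHom t)).map (algebraMap F k) := by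
  rw [MPb197b4W.spec, Polynomial.map_map, Polynomial.map_map]
  congr 1
  ext a
  · simp
  · simp

theorem EF1_mem_range {p n : ℕ} [Fact p.Prime] [CharP k p] (hn : n ≠ 0)
    (hF : Fintype.card F = p ^ n) (t : k) (ht : t ^ p ^ n = t) : ∃ s : F, algebraMap F k s = t := by
  classical
  obtain ⟨A, hA, hAc⟩ := MPb197b4W.exists_fixed (k := k) (p := p) hn
  have hsub : (univ : Finset F).image (algebraMap F k) ⊆ A := by
    intro x hx
    obtain ⟨s, _, rfl⟩ := Finset.mem_image.1 hx
    rw [hA, ← map_pow, ← hF, FiniteField.pow_card]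
  have heq : (univ : Finset F).image (algebraMap F k) = A := by
    refine Finset.eq_of_subset_of_card_le hsub ?_
    rw [hAc, Finset.card_image_of_injective _ (algebraMap F k).injective, Finset.card_univ, hF]
  have h1 : t ∈ (univ : Finset F).image (algebraMap F k) := by
    rw [heq, hA]
    exact ht
  obtain ⟨s, _, hs⟩ := Finset.mem_image.1 h1
  exact ⟨s, hs⟩

theorem EF1_split_iff [DecidableEq F] {p n N : ℕ} [Fact p.Prime] [CharP k p] (hn : n ≠ 0)
    (hF : Fintype.card F = p ^ n) {R : F[X][X]} (hm : R.Monic) (hN : R.natDegree = N) (t : F) :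
    MPb197b4W.IsSplitAt N (p ^ n) (R.map (mapRingHom (algebraMap F k))) (algebraMap F k t) ↔
      Split N (R.map (evalRingHom t)) := by
  have hmt : (R.map (evalRingHom t)).Monic := hm.map _
  have hdeg : (R.map (evalRingHom t)).natDegree = N := by
    rw [hm.natDegree_map, hN]
  have hcard : (R.map (evalRingHom t)).roots.toFinset.card ≤ N := by
    refine (Multiset.toFinset_card_le _).trans ?_
    rw [← hdeg]
    exact Polynomial.card_roots' _
  constructor
  · rintro ⟨y, hy, hy2⟩
    choose z hz using fun i => EF1_mem_range (F := F) hn hF (y i) (hy2 i).1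
    have hzinj : Function.Injective z := by
      intro i j hij
      apply hy
      rw [← hz i, ← hz j, hij]
    have hroot : ∀ i, z i ∈ (R.map (evalRingHom t)).roots.toFinset := by
      intro i
      rw [Multiset.mem_toFinset, mem_roots hmt.ne_zero, IsRoot.def]
      apply (algebraMap F k).injective
      have h1 := (hy2 i).2
      rw [EF1_spec, ← hz i, eval_map_algebraMap, aeval_algebraMap_apply] at h1
      rw [map_zero, ← h1]
      congr 1
    have h2 : N ≤ (R.map (evalRingHom t)).roots.toFinset.card := by
      have h3 : (univ.image z).card ≤ (R.map (evalRingHom t)).roots.toFinset.card := by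
        refine Finset.card_le_card ?_
        intro x hx
        obtain ⟨i, _, rfl⟩ := Finset.mem_image.1 hx
        exact hroot i
      rw [Finset.card_image_of_injective _ hzinj, Finset.card_univ, Fintype.card_fin] at h3
      exact h3
    exact le_antisymm hcard h2
  · intro h
    have h' : (R.map (evalRingHom t)).roots.toFinset.card = N := h
    obtain ⟨e⟩ : Nonempty (Fin N ≃ (R.map (evalRingHom t)).roots.toFinset) :=
      ⟨(Finset.equivFinOfCardEq h').symm⟩
    refine ⟨fun i => algebraMap F k (e i), ?_, fun i => ⟨?_, ?_⟩⟩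
    · intro i j hij
      exact e.injective (Subtype.ext ((algebraMap F k).injective hij))
    · rw [← map_pow, ← hF, FiniteField.pow_card]
    · have h1 := (e i).2
      rw [Multiset.mem_toFinset, mem_roots hmt.ne_zero, IsRoot.def] at h1
      rw [EF1_spec, eval_map_algebraMap, aeval_algebraMap_apply]
      have h2 : aeval ((e i : F)) (R.map (evalRingHom t)) = 0 := h1
      rw [h2, map_zero]

end

open Classical in
/-- `MPb197b4W.chebotarev_card` for a finite field `F` inside `k` (the image of `F` is the set of the
solutions of `t ^ Q = t`). -/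
theorem chebF (N D : ℕ) : ∃ c : ℝ, 0 ≤ c ∧ ∀ (p μ : ℕ) [Fact p.Prime] (F k : Type) [Field F] [Fintype F]
    [Field k] [CharP k p] [IsAlgClosed k] [Algebra F k] (R : F[X][X]), Fintype.card F = p ^ (2 * μ) →
    R.Monic → R.natDegree = N → (∀ j, (R.coeff j).natDegree ≤ D) →
    (((R.map (mapRingHom (algebraMap F k))).map (algebraMap k[X] (RatFunc k))).Separable) →
    Nat.card ((R.map (mapRingHom (algebraMap F k))).map (algebraMap k[X] (RatFunc k))).Gal =
      N.factorial →
    |(N.factorial : ℝ) * (((univ : Finset F).filter fun t => Split N (R.map (evalRingHom t))).card : ℝ)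
      - (p : ℝ) ^ (2 * μ)| ≤ c * (p : ℝ) ^ μ := by
  obtain ⟨c, hc⟩ := MPb197b4W.chebotarev_card N D
  refine ⟨max c 0, le_max_right _ _, ?_⟩
  intro p μ _ F k _ _ _ _ _ _ R hF hm hN hD hs hG
  have hμ : μ ≠ 0 := by
    rintro rfl
    have h1 : 1 < Fintype.card F := Fintype.one_lt_card
    rw [hF, mul_zero, pow_zero] at h1
    exact lt_irrefl _ h1
  have hμ2 : 2 * μ ≠ 0 := by omega
  have h1 := hc p μ k (R.map (mapRingHom (algebraMap F k))) hμ (hm.map _)
    (by rw [hm.natDegree_map, hN])
    (by
      intro j
      rw [coeff_map]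
      exact (natDegree_map_le).trans (hD j))
    (by
      intro i j
      rw [coeff_map, coe_mapRingHom, coeff_map, ← map_pow, ← hF, FiniteField.pow_card]) hs hG
  have hset : {t : k | t ^ p ^ (2 * μ) = t ∧
      MPb197b4W.IsSplitAt N (p ^ (2 * μ)) (R.map (mapRingHom (algebraMap F k))) t} =
      (((univ : Finset F).filter fun t => Split N (R.map (evalRingHom t))).image
        (algebraMap F k) : Finset k) := by
    ext t
    rw [Finset.mem_coe, Finset.mem_image]
    constructor
    · rintro ⟨h2, h3⟩
      obtain ⟨s, rfl⟩ := EF1_mem_range (F := F) hμ2 hF t h2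
      exact ⟨s, Finset.mem_filter.2 ⟨Finset.mem_univ _, (EF1_split_iff hμ2 hF hm hN s).1 h3⟩, rfl⟩
    · rintro ⟨s, hs1, rfl⟩
      refine ⟨?_, (EF1_split_iff hμ2 hF hm hN s).2 (Finset.mem_filter.1 hs1).2⟩
      rw [← map_pow, ← hF, FiniteField.pow_card]
  rw [hset, Set.ncard_coe_finset, Finset.card_image_of_injective _ (algebraMap F k).injective] at h1
  refine h1.trans ?_
  exact mul_le_mul_of_nonneg_right (le_max_left _ _) (by positivity)

end MPb197b4E
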