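import Pool.Agent.Lib.MP_b197b4_ntE.EC1
import Pool.Agent.Lib.MP_b197b4_ntE.ED
import Pool.Agent.Lib.MP_b197b4_ntE.EE2
import Pool.Agent.Lib.MP_b197b4_ntE.EF1

/-!
# Leaf EF2: the split members with a given leading coefficient
-/

set_option autoImplicit false

noncomputable section

namespace MPb197b4E

open Polynomial Finset

/-- The degree of a member. -/
theorem EF2_coeff {F : Type} [Field F] {m g : ℕ} {q G w : F[X]} (hG : G.natDegree = g)
    (hw : w.natDegree + g < m) : (q + G * w).coeff m = q.coeff m := by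
  have h1 : (G * w).natDegree < m := by
    have := natDegree_mul_le (p := G) (q := w)
    omega
  rw [coeff_add, coeff_eq_zero_of_natDegree_lt h1, add_zero]

theorem EF2_split_smul {F : Type} [Field F] [Fintype F] [DecidableEq F] {n : ℕ} {c : F} (hc : c ≠ 0)
    (g : F[X]) : Split n (C c * g) ↔ Split n g := by
  unfold Split
  rw [roots_C_mul g hc]

/-- The special member is not split. -/
theorem EF2_special_not_split {F : Type} [Field F] [Fintype F] [DecidableEq F] {n : ℕ} {x : F}
    {S : F[X]} (hS : S ≠ 0) (hn : ((X - C x) ^ 2 * S).natDegree = n) :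
    ¬ Split n ((X - C x) ^ 2 * S) := by
  classical
  intro h
  unfold Split at h
  have h0 : ((X - C x) ^ 2 * S) ≠ 0 := mul_ne_zero (pow_ne_zero _ (X_sub_C_ne_zero x)) hS
  have h1 : ((X - C x) ^ 2 * S).roots.toFinset ⊆ insert x S.roots.toFinset := by
    intro y hy
    rw [Multiset.mem_toFinset, mem_roots h0, IsRoot, eval_mul, eval_pow, eval_sub, eval_X, eval_C,
      mul_eq_zero] at hy
    rw [Finset.mem_insert, Multiset.mem_toFinset, mem_roots hS]
    rcases hy with hy | hy
    · left
      exact sub_eq_zero.1 (pow_eq_zero_iff (two_ne_zero) |>.1 hy)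
    · right; exact hy
  have h2 := (Finset.card_le_card h1).trans (Finset.card_insert_le _ _)
  have h3 : S.roots.toFinset.card ≤ S.natDegree := (Multiset.toFinset_card_le _).trans (card_roots' S)
  have h4 : n = 2 + S.natDegree := by
    rw [← hn, natDegree_mul (pow_ne_zero _ (X_sub_C_ne_zero x)) hS, natDegree_pow,
      natDegree_X_sub_C]
  omega

open Classical in
/-- The count on one pencil. -/
theorem EF2_pencil {m D : ℕ} {p μ : ℕ} [Fact p.Prime] {F k : Type} [Field F] [Fintype F] [Field k]
    [CharP k p] [IsAlgClosed k] [Algebra F k] {f : F[X][X]} {x : F} {e : ℕ} {T : Finset F} {q : F[X]}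
    (hf : Wt m D f)
    (hfi : Irreducible (f.map (mapRingHom (algebraMap F k)))) (hM : Marked f x e T q)
    (hq : q.natDegree ≤ m) (htop : (topPol m D f).eval (q.coeff m) ≠ 0) (hm : e + T.card + 4 ≤ m)
    (hs : (m * D - (e + T.card)).Prime) (h3 : 3 ≤ m * D - (e + T.card)) {c : ℝ}
    (hc : ∀ (R : F[X][X]), R.Monic → R.natDegree = m * D - (e + T.card) →
      (∀ j, (R.coeff j).natDegree ≤ D) →
      (((R.map (mapRingHom (algebraMap F k))).map (algebraMap k[X] (RatFunc k))).Separable) →
      Nat.card ((R.map (mapRingHom (algebraMap F k))).map (algebraMap k[X] (RatFunc k))).Gal =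
        (m * D - (e + T.card)).factorial →
      |((m * D - (e + T.card)).factorial : ℝ) * (((univ : Finset F).filter fun t =>
        Split (m * D - (e + T.card)) (R.map (evalRingHom t))).card : ℝ)
        - (p : ℝ) ^ (2 * μ)| ≤ c * (p : ℝ) ^ μ)
    {w₀ S : F[X]} (hw : w₀.natDegree ≤ 3)
    (hS : f.eval (q + GG x e T * w₀) = GG x e T * ((X - C x) ^ 2 * S)) (hSs : S.Separable)
    (hSx : S.eval x ≠ 0) {v : F[X]} (hvr : v ∈ pol F (m - (e + T.card)))
    (hv : IsCoprime v (GG x e T * S)) :
    |((m * D - (e + T.card)).factorial : ℝ) * (((univ : Finset F).filter fun t =>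
      Split (m * D - (e + T.card)) (f.eval (q + GG x e T * (w₀ + C t * v)) /ₘ GG x e T)).card : ℝ)
      - (p : ℝ) ^ (2 * μ)| ≤ c * (p : ℝ) ^ μ := by
  set G := GG x e T with hGdef
  have hGm := (GG_monic x e T).1
  have hGd := (GG_monic x e T).2
  have hG0 : G ≠ 0 := hGm.ne_zero
  set q' := q + G * w₀ with hq'
  have hM' : Marked f x e T q' := hM.add w₀
  have hcoef : q'.coeff m = q.coeff m := EF2_coeff hGd (by omega)
  have hq'd : q'.natDegree ≤ m := by
    refine (natDegree_add_le _ _).trans (max_le hq ?_)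
    refine natDegree_mul_le.trans ?_
    rw [hGd]; omega
  have hvd : v.natDegree + (e + T.card) < m := by
    rw [mem_pol] at hvr
    by_cases hv0 : v = 0
    · rw [hv0, natDegree_zero]; omega
    · have := (natDegree_lt_iff_degree_lt hv0).2 hvr
      omega
  have hGpos : 0 < G.natDegree := by
    rw [hGd]
    have := hM.one
    omega
  have hS0 : S ≠ 0 := by
    rintro rfl
    simp at hSx
  have hv0 : v ≠ 0 := by
    rintro rfl
    rw [isCoprime_zero_left] at hv
    have h1 := natDegree_eq_zero_of_isUnit hv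
    rw [natDegree_mul hG0 hS0] at h1
    omega
  set c₁ := (topPol m D f).eval (q'.coeff m) with hc₁
  have hc₁0 : c₁ ≠ 0 := by rw [hc₁, hcoef]; exact htop
  obtain ⟨R, hR⟩ := exists_pencil (f := f) (q := q') (h := G * v) (G := G) (c := c₁)
    hM'.dvd (dvd_mul_right _ _) hc₁0
  have hhd : (G * v).natDegree < m := by
    refine natDegree_mul_le.trans_lt ?_
    rw [hGd]; omega
  obtain ⟨hRm, hRd⟩ := hR.monic hf hq'd hhd hGm rfl hc₁0
  have hRd' : R.natDegree = m * D - (e + T.card) := by
    rw [hGd] at hRd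
    omega
  have hRD := hR.deg_le hf.deg.le hG0 hc₁0
  -- over `k`
  set φ := algebraMap F k with hφ
  have hRk := hR.map φ
  have hwk := hf.map φ
  rw [Polynomial.map_mul, hGdef, GG_map] at hRk
  have hSk : (f.map (mapRingHom φ)).eval (q'.map φ)
      = GG (φ x) e (T.map ⟨φ, φ.injective⟩) * ((X - C (φ x)) ^ 2 * S.map φ) := by
    rw [eval_map_map, hq', hS, Polynomial.map_mul, Polynomial.map_mul, Polynomial.map_pow,
      Polynomial.map_sub, Polynomial.map_X, Polynomial.map_C, GG_map]
  have hgal := full_gal hwk.1 hfi (hM'.map φ) (natDegree_map_le.trans hq'd)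
    (c := φ c₁) (by rw [hwk.2, coeff_map, eval_map_apply, hc₁]) (by
      rwa [Ne, map_eq_zero]) (by rwa [Finset.card_map]) (by rwa [Finset.card_map]) hSk hSs.map (by
      rw [eval_map_apply, Ne, map_eq_zero]; exact hSx) (v := v.map φ)
      ((Polynomial.map_ne_zero_iff φ.injective).2 hv0) (by
      have := hv.map (mapRingHom φ)
      rw [map_mul, coe_mapRingHom, GG_map] at this
      exact this) (by
      rw [Finset.card_map, natDegree_map]
      exact hvd) hRk
  rw [Finset.card_map] at hgal
  have hmain := hc R hRm hRd' hRD hgal.1 hgal.2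
  have heq : ∀ t : F, (f.eval (q + G * (w₀ + C t * v)) /ₘ G) = C c₁ * R.map (evalRingHom t) := by
    intro t
    have e1 : q + G * (w₀ + C t * v) = q' + C t * (G * v) := by rw [hq']; ring
    rw [e1, hR.spec t, show C c₁ * (G * R.map (evalRingHom t)) = G * (C c₁ * R.map (evalRingHom t)) by
      ring]
    exact mul_divByMonic_cancel_left _ hGm
  simp only [heq, EF2_split_smul hc₁0]
  exact hmain

open Classical in
/-- **One leading coefficient.** `r = m - (e + #T)`, `s = m D - (e + #T)`. For `Q ≤ c₀` (leaf ED) the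
estimate is trivial. For `Q > c₀` take the special member `w₀` (`special`), it is not split. The lines
through `w₀` (`sum_lines`): for the `v` prime to `G S` (all but `m D Q ^ (r - 1)`, `card_not_coprime`) the
pencil `q + G w₀ + t G v` has the full Galois group (`full_gal`) and `chebF` gives
`s! #{t} = Q + O(√Q)`; trivial bound `Q` for the others. The constants of `chebF` are needed for
`N ≤ m D` only. -/
theorem pencil_count (m D : ℕ) : ∃ c : ℝ, 0 ≤ c ∧ ∀ (p μ : ℕ) [Fact p.Prime] (F k : Type) [Field F]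
    [Fintype F] [Field k] [CharP k p] [IsAlgClosed k] [Algebra F k] (f : F[X][X]) (x : F) (e : ℕ)
    (T : Finset F) (q : F[X]), Fintype.card F = p ^ (2 * μ) → Wt m D f →
    Irreducible (f.map (mapRingHom (algebraMap F k))) → Marked f x e T q → q.natDegree ≤ m →
    (topPol m D f).eval (q.coeff m) ≠ 0 → e + T.card + 4 ≤ m → (m * D - (e + T.card)).Prime →
    3 ≤ m * D - (e + T.card) →
    (p : ℝ) ^ μ * |((m * D - (e + T.card)).factorial : ℝ) *
      (resCount f q (GG x e T) (m - (e + T.card)) (m * D - (e + T.card)) : ℝ) -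
        (p : ℝ) ^ (2 * μ * (m - (e + T.card)))| ≤ c * (p : ℝ) ^ (2 * μ * (m - (e + T.card))) := by
  obtain ⟨c₀, hc₀⟩ := special m D
  choose cN hcN0 hcN using fun N => chebF N D
  set cc : ℝ := ∑ N ∈ range (m * D + 1), cN N with hcc
  have hcc0 : 0 ≤ cc := Finset.sum_nonneg fun N _ => hcN0 N
  set K : ℝ := ((m * D).factorial : ℝ) with hK
  have hK1 : 1 ≤ K := by
    rw [hK]
    exact_mod_cast (m * D).factorial_pos
  refine ⟨c₀ * K + 2 * (cc + m * D * K + 1), by positivity, ?_⟩
  intro p μ _ F k _ _ _ _ _ _ f x e T q hcard hf hfi hM hq htop hm hs h3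
  set g := e + T.card with hg
  set s := m * D - g with hsdef
  obtain ⟨r, hr⟩ : ∃ r, m - g = r + 1 := ⟨m - g - 1, by omega⟩
  rw [hr]
  have hp : 1 < p := (Fact.out : p.Prime).one_lt
  have hgpos : 1 ≤ g := by rw [hg]; exact hM.one.trans (Nat.le_add_right _ _)
  set q₁ : ℝ := (p : ℝ) ^ μ with hq₁
  set Q : ℝ := (p : ℝ) ^ (2 * μ) with hQ
  have hQq : Q = q₁ * q₁ := by rw [hQ, hq₁, ← pow_add, two_mul]
  have hq1 : 1 ≤ q₁ := one_le_pow₀ (by exact_mod_cast hp.le)
  have hcardR : (Fintype.card F : ℝ) = Q := by rw [hcard, hQ]; push_cast; rfl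
  have hQ2 : 2 ≤ Q := by
    rw [← hcardR]
    exact_mod_cast (Fintype.one_lt_card (α := F))
  have hpow : (p : ℝ) ^ (2 * μ * (r + 1)) = Q ^ (r + 1) := by rw [hQ, ← pow_mul]
  rw [hpow]
  set A : ℕ := resCount f q (GG x e T) (r + 1) s with hA
  have hAle : (A : ℝ) ≤ Q ^ (r + 1) := by
    have h1 : A ≤ Fintype.card F ^ (r + 1) := by
      rw [← card_pol (F := F) (r + 1), hA, resCount]
      exact Finset.card_filter_le _ _
    rw [← hcardR]
    exact_mod_cast h1
  have hsK : (s.factorial : ℝ) ≤ K := by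
    rw [hK]
    exact_mod_cast Nat.factorial_le (by omega)
  have hs1 : (1 : ℝ) ≤ (s.factorial : ℝ) := by exact_mod_cast s.factorial_pos
  have hQr : 0 < Q ^ (r + 1) := by positivity
  by_cases hsmall : Fintype.card F ≤ c₀
  · -- the trivial case
    have h1 : |(s.factorial : ℝ) * (A : ℝ) - Q ^ (r + 1)| ≤ K * Q ^ (r + 1) := by
      rw [abs_le]
      have hA0 : (0 : ℝ) ≤ A := Nat.cast_nonneg _
      constructor
      · have : 0 ≤ (s.factorial : ℝ) * (A : ℝ) := by positivity
        nlinarith
      · have : (s.factorial : ℝ) * (A : ℝ) ≤ K * Q ^ (r + 1) := by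
          apply mul_le_mul hsK hAle hA0 (by positivity)
        linarith
    have h2 : q₁ ≤ c₀ := by
      have : Q ≤ c₀ := by rw [← hcardR]; exact_mod_cast hsmall
      nlinarith
    calc q₁ * |(s.factorial : ℝ) * (A : ℝ) - Q ^ (r + 1)|
        ≤ c₀ * (K * Q ^ (r + 1)) := by
          apply mul_le_mul h2 h1 (abs_nonneg _) (by positivity)
      _ ≤ (c₀ * K + 2 * (cc + m * D * K + 1)) * Q ^ (r + 1) := by
          have : 0 ≤ 2 * (cc + m * D * K + 1) * Q ^ (r + 1) := by positivity
          nlinarith
  · push Not at hsmall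
    obtain ⟨w₀, S, hw, hS, hSs, hSx⟩ := hc₀ F k f x e T q hsmall hf hfi hM hq htop hm
    have hGm := (GG_monic x e T).1
    have hGd := (GG_monic x e T).2
    set G := GG x e T with hGdef
    have hG0 : G ≠ 0 := hGm.ne_zero
    have hS0 : S ≠ 0 := by
      rintro rfl
      simp at hSx
    let P : F[X] → Prop := fun w => Split s (f.eval (q + G * w) /ₘ G)
    -- the degree of the special member
    have hw₀r : w₀ ∈ pol F (r + 1) := by
      rw [mem_pol]
      refine degree_le_natDegree.trans_lt ?_
      exact_mod_cast (by omega : w₀.natDegree < r + 1)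
    have hcoef : (q + G * w₀).coeff m = q.coeff m := EF2_coeff hGd (by omega)
    have hq'd : (q + G * w₀).natDegree ≤ m := by
      refine (natDegree_add_le _ _).trans (max_le hq ?_)
      refine natDegree_mul_le.trans ?_
      rw [hGd]; omega
    have hdeg : (f.eval (q + G * w₀)).natDegree = m * D := by
      obtain ⟨h1, h2⟩ := eval_wt hf hq'd
      apply le_antisymm h1
      apply le_natDegree_of_ne_zero
      rw [h2, hcoef]
      exact htop
    have hdeg2 : ((X - C x) ^ 2 * S).natDegree = s := by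
      have h0 : ((X - C x) ^ 2 * S) ≠ 0 := mul_ne_zero (pow_ne_zero _ (X_sub_C_ne_zero x)) hS0
      rw [hS, natDegree_mul hG0 h0, hGd] at hdeg
      omega
    have hSdeg : S.natDegree + 2 = s := by
      rw [← hdeg2, natDegree_mul (pow_ne_zero _ (X_sub_C_ne_zero x)) hS0, natDegree_pow,
        natDegree_X_sub_C]
      ring
    have hPw₀ : ¬ P w₀ := by
      simp only [P]
      rw [hS, mul_divByMonic_cancel_left _ hGm]
      exact EF2_special_not_split hS0 hdeg2
    have hlines := sum_lines P hw₀r hPw₀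
    have hAP : ((pol F (r + 1)).filter P).card = A := by rw [hA, resCount]
    rw [hAP] at hlines
    -- the good and the bad lines
    set n : F[X] → ℕ := fun v => ((univ : Finset F).filter fun t => P (w₀ + C t * v)).card with hn
    have hgood : ∀ v ∈ pol F (r + 1), IsCoprime v (G * S) →
        |(s.factorial : ℝ) * (n v : ℝ) - Q| ≤ cc * q₁ := by
      intro v hv hvc
      have h1 := EF2_pencil (k := k) (p := p) (μ := μ) hf hfi hM hq htop hm hs h3 (c := cN s)
        (fun R h1 h2 h3 h4 h5 => hcN s p μ F k R hcard h1 h2 h3 h4 h5) hw hS hSs hSx (v := v)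
        (by rw [hr]; exact hv) hvc
      refine h1.trans ?_
      apply mul_le_mul_of_nonneg_right _ (by positivity)
      exact Finset.single_le_sum (f := cN) (fun N _ => hcN0 N) (Finset.mem_range.2 (by omega))
    have htriv : ∀ v, |(s.factorial : ℝ) * (n v : ℝ) - Q| ≤ K * Q := by
      intro v
      have h1 : (n v : ℝ) ≤ Q := by
        rw [← hcardR]
        exact_mod_cast (Finset.card_le_univ _)
      rw [abs_le]
      have h0 : (0 : ℝ) ≤ n v := Nat.cast_nonneg _
      constructor
      · have : 0 ≤ (s.factorial : ℝ) * (n v : ℝ) := by positivity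
        nlinarith
      · have : (s.factorial : ℝ) * (n v : ℝ) ≤ K * Q := by
          apply mul_le_mul hsK h1 h0 (by positivity)
        linarith
    have hbad : (((pol F (r + 1)).filter fun w => ¬ IsCoprime w (G * S)).card : ℝ)
        ≤ m * D * Q ^ r := by
      have h1 := card_not_coprime (r := r) (mul_ne_zero hG0 hS0)
      have h2 : (G * S).natDegree ≤ m * D := by
        rw [natDegree_mul hG0 hS0, hGd]; omega
      have h3 := h1.trans (Nat.mul_le_mul_right _ h2)
      rw [← hcardR]
      exact_mod_cast h3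
    have hsum : |∑ v ∈ pol F (r + 1), ((s.factorial : ℝ) * (n v : ℝ) - Q)|
        ≤ Q ^ (r + 1) * (cc * q₁) + m * D * Q ^ r * (K * Q) := by
      refine (Finset.abs_sum_le_sum_abs _ _).trans ?_
      rw [← Finset.sum_filter_add_sum_filter_not (pol F (r + 1)) (fun v => IsCoprime v (G * S))]
      apply add_le_add
      · have h1 : ∑ v ∈ (pol F (r + 1)).filter (fun v => IsCoprime v (G * S)),
            |(s.factorial : ℝ) * (n v : ℝ) - Q|
            ≤ ∑ _v ∈ (pol F (r + 1)).filter (fun v => IsCoprime v (G * S)), cc * q₁ := by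
          apply Finset.sum_le_sum
          intro v hv
          rw [Finset.mem_filter] at hv
          exact hgood v hv.1 hv.2
        rw [Finset.sum_const, nsmul_eq_mul] at h1
        refine h1.trans ?_
        apply mul_le_mul_of_nonneg_right _ (by positivity)
        have h2 : ((pol F (r + 1)).filter (fun v => IsCoprime v (G * S))).card
            ≤ Fintype.card F ^ (r + 1) := by
          rw [← card_pol (F := F) (r + 1)]
          exact Finset.card_filter_le _ _
        rw [← hcardR]
        exact_mod_cast h2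
      · have h1 : ∑ v ∈ (pol F (r + 1)).filter (fun v => ¬ IsCoprime v (G * S)),
            |(s.factorial : ℝ) * (n v : ℝ) - Q|
            ≤ ∑ _v ∈ (pol F (r + 1)).filter (fun v => ¬ IsCoprime v (G * S)), K * Q :=
          Finset.sum_le_sum fun v _ => htriv v
        rw [Finset.sum_const, nsmul_eq_mul] at h1
        exact h1.trans (mul_le_mul_of_nonneg_right hbad (by positivity))
    -- the sum over the lines
    have hsum2 : ∑ v ∈ pol F (r + 1), ((s.factorial : ℝ) * (n v : ℝ) - Q)
        = (s.factorial : ℝ) * ((Q - 1) * A) - Q ^ (r + 1) * Q := by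
      rw [Finset.sum_sub_distrib, ← Finset.mul_sum, Finset.sum_const, card_pol, nsmul_eq_mul]
      have h1 : (∑ v ∈ pol F (r + 1), (n v : ℝ)) = (Q - 1) * A := by
        have h2 : ((∑ v ∈ pol F (r + 1), n v : ℕ) : ℝ)
            = (((Fintype.card F - 1) * A : ℕ) : ℝ) := by rw [← hlines]
        rw [Nat.cast_sum, Nat.cast_mul, Nat.cast_sub (Fintype.card_pos), hcardR] at h2
        rw [h2]
        push_cast
        ring
      rw [h1]
      push_cast
      rw [hcardR]
    rw [hsum2] at hsum
    set B : ℝ := (s.factorial : ℝ) * (A : ℝ) - Q ^ (r + 1) with hB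
    have e1 : (s.factorial : ℝ) * ((Q - 1) * A) - Q ^ (r + 1) * Q = (Q - 1) * B - Q ^ (r + 1) := by
      rw [hB]; ring
    rw [e1] at hsum
    have e2 : (Q - 1) * |B| ≤ Q ^ (r + 1) * (cc * q₁ + m * D * K + 1) := by
      have h1 : (Q - 1) * |B| = |(Q - 1) * B| := by
        rw [abs_mul, abs_of_nonneg (by linarith : (0 : ℝ) ≤ Q - 1)]
      have h2 : |(Q - 1) * B| ≤ |(Q - 1) * B - Q ^ (r + 1)| + Q ^ (r + 1) := by
        have := abs_add_le ((Q - 1) * B - Q ^ (r + 1)) (Q ^ (r + 1))
        rwa [sub_add_cancel, abs_of_pos hQr] at this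
      rw [h1]
      refine h2.trans ((add_le_add_left hsum _).trans (le_of_eq ?_))
      rw [pow_succ]
      ring
    have e3 : Q * |B| ≤ 2 * (Q ^ (r + 1) * (cc * q₁ + m * D * K + 1)) := by
      have : 0 ≤ |B| := abs_nonneg B
      nlinarith
    have e4 : cc * q₁ + m * D * K + 1 ≤ q₁ * (cc + m * D * K + 1) := by
      have h1 : 0 ≤ (m : ℝ) * D * K := by positivity
      nlinarith
    have e5 : q₁ * (q₁ * |B|) ≤ q₁ * (2 * (cc + m * D * K + 1) * Q ^ (r + 1)) := by
      have h1 : q₁ * (q₁ * |B|) = Q * |B| := by rw [hQq]; ring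
      rw [h1]
      refine e3.trans ?_
      have : Q ^ (r + 1) * (cc * q₁ + m * D * K + 1)
          ≤ Q ^ (r + 1) * (q₁ * (cc + m * D * K + 1)) := mul_le_mul_of_nonneg_left e4 hQr.le
      nlinarith
    have e6 : q₁ * |B| ≤ 2 * (cc + m * D * K + 1) * Q ^ (r + 1) :=
      le_of_mul_le_mul_left e5 (by linarith)
    refine e6.trans ?_
    have : 0 ≤ (c₀ : ℝ) * K * Q ^ (r + 1) := by positivity
    nlinarith

end MPb197b4E
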