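import Pool.Agent.Lib.MP_b197b4_ntE.EF2
import Pool.Agent.Lib.MP_b197b4_ntE.EG1

/-!
# Leaf EG2: the number of the split members through `D + 1` marked points
-/

set_option autoImplicit false

noncomputable section

namespace MPb197b4E

open Polynomial Finset

/-- If the leading coefficient is a zero of `f_top`, then the member is not split. -/
theorem EG2_top {F : Type} [Field F] [DecidableEq F] {m D : ℕ} (hD : 0 < m * D)
    {f : F[X][X]} (hf : Wt m D f) {q : F[X]} (hq : q.natDegree ≤ m)
    (h0 : (topPol m D f).eval (q.coeff m) = 0) : ¬ Split (m * D) (f.eval q) := by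
  obtain ⟨h1, h2⟩ := eval_wt hf hq
  rw [h0] at h2
  intro hs
  unfold Split at hs
  have h3 : (f.eval q).roots.toFinset.card ≤ (f.eval q).natDegree :=
    (Multiset.toFinset_card_le _).trans (card_roots' _)
  rw [hs] at h3
  have h4 : (f.eval q).natDegree = m * D := le_antisymm h1 h3
  have h5 : (f.eval q).leadingCoeff = 0 := by rw [leadingCoeff, h4, h2]
  rw [leadingCoeff_eq_zero] at h5
  rw [h5, natDegree_zero] at h4
  omega

open Classical in
/-- The members with a given leading coefficient and the residual polynomials. -/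
theorem EG2_one {F : Type} [Field F] [Fintype F] [DecidableEq F] {m D : ℕ} {f : F[X][X]}
    (hf : Wt m D f) {x : F} {T : Finset F} {q : F[X]} (h : Marked f x 1 T q) (hq : q.natDegree ≤ m)
    {r : ℕ} (hr : r + 1 + (1 + T.card) = m) (hn : 1 + T.card ≤ m * D) :
    ((pol F (r + 1)).filter fun w => Split (m * D) (f.eval (q + GG x 1 T * w))).card ≤
        resCount f q (GG x 1 T) (r + 1) (m * D - (1 + T.card)) ∧
      resCount f q (GG x 1 T) (r + 1) (m * D - (1 + T.card)) ≤
        ((pol F (r + 1)).filter fun w => Split (m * D) (f.eval (q + GG x 1 T * w))).card +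
          (1 + T.card) * Fintype.card F ^ r := by
  have hdeg : ∀ w ∈ pol F (r + 1), (f.eval (q + GG x 1 T * w)).natDegree ≤ m * D := by
    intro w hw
    refine (eval_wt hf ?_).1
    refine (natDegree_add_le _ _).trans (max_le hq ?_)
    refine natDegree_mul_le.trans ?_
    rw [(GG_monic x 1 T).2]
    have h1 : w.natDegree ≤ r := by
      have h2 := mem_pol.1 hw
      rcases eq_or_ne w 0 with rfl | h0
      · simp
      · have := (natDegree_lt_iff_degree_lt h0).2 h2
        omega
    omega
  constructor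
  · unfold resCount
    refine card_le_card fun w hw => ?_
    rw [mem_filter] at hw ⊢
    exact ⟨hw.1, ((split_iff h hn (hdeg w hw.1)).1 hw.2).1⟩
  · unfold resCount
    have hsub : ((pol F (r + 1)).filter fun w =>
        Split (m * D - (1 + T.card)) (f.eval (q + GG x 1 T * w) /ₘ GG x 1 T)) ⊆
        ((pol F (r + 1)).filter fun w => Split (m * D) (f.eval (q + GG x 1 T * w))) ∪
          (insert x T).biUnion fun a => (pol F (r + 1)).filter fun w =>
            (f.eval (q + GG x 1 T * w) /ₘ GG x 1 T).eval a = 0 := by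
      intro w hw
      rw [mem_filter] at hw
      rw [mem_union, mem_biUnion]
      by_cases hall : ∀ a, a = x ∨ a ∈ T → (f.eval (q + GG x 1 T * w) /ₘ GG x 1 T).eval a ≠ 0
      · exact Or.inl (mem_filter.2 ⟨hw.1, (split_iff h hn (hdeg w hw.1)).2 ⟨hw.2, hall⟩⟩)
      · push Not at hall
        obtain ⟨a, ha, h0⟩ := hall
        exact Or.inr ⟨a, mem_insert.2 ha, mem_filter.2 ⟨hw.1, h0⟩⟩
    refine (card_le_card hsub).trans ((card_union_le _ _).trans ?_)
    gcongr
    refine card_biUnion_le.trans ?_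
    refine (sum_le_sum fun a ha => card_meet h (mem_insert.1 ha)).trans ?_
    rw [sum_const, smul_eq_mul, card_insert_of_notMem h.not_mem, add_comm]

/-- `sum_coset` with `G = GG x 1 T`, `#T + 1 = D + 1`: sum over the leading coefficients `μ`; if
`f_top(μ) = 0` (at most `D` values) nothing is split (`eval_wt`); otherwise `pencil_count`, and `split_iff`,
`card_meet` for the members which meet the marked points again. -/
theorem cnt_two (m D : ℕ) (hm : D + 5 ≤ m) (hs : (m * D - (D + 1)).Prime) : ∃ c : ℝ, 0 ≤ c ∧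
    ∀ (p μ : ℕ) [Fact p.Prime] (F k : Type) [Field F] [Fintype F] [DecidableEq F] [Field k] [CharP k p]
    [IsAlgClosed k] [Algebra F k] (f : F[X][X]) (M : Finset (F × F)), Fintype.card F = p ^ (2 * μ) →
    Wt m D f → Irreducible (f.map (mapRingHom (algebraMap F k))) → Base f M → M.card = D + 1 →
    (p : ℝ) ^ μ * |((m * D - (D + 1)).factorial : ℝ) * (cnt m D f M : ℝ) -
      (p : ℝ) ^ (2 * μ * (m - D))| ≤ c * (p : ℝ) ^ (2 * μ * (m - D)) := by
  classical
  obtain ⟨c₁, hc₁, hP⟩ := pencil_count m D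
  have hD : 1 ≤ D := by
    rcases Nat.eq_zero_or_pos D with rfl | h
    · rw [Nat.mul_zero, Nat.zero_sub] at hs
      exact absurd hs Nat.not_prime_zero
    · exact h
  have hmD : (D + 5) * D ≤ m * D := Nat.mul_le_mul_right D hm
  have hDD : 1 ≤ D * D := Nat.mul_pos hD hD
  have hmD' : 4 * D + 1 + D ≤ m * D := by nlinarith
  set s : ℕ := m * D - (D + 1) with hsdef
  refine ⟨c₁ + s.factorial * (D + 1) + D, by positivity, ?_⟩
  intro p μ _ F k _ _ inst _ _ _ _ f M hF hf hfi hM hMc
  obtain rfl : inst = fun a b => Classical.propDecidable (a = b) := Subsingleton.elim _ _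
  obtain ⟨x, T, q₀, hmk, hT, hq₀, hint, -, hcong⟩ := hM.marked
  have hTD : T.card = D := by omega
  obtain ⟨r, hr⟩ : ∃ r, r + 1 + (D + 1) = m := ⟨m - (D + 2), by omega⟩
  have hGm := GG_monic x 1 T
  have hg : (GG x 1 T).natDegree = D + 1 := by rw [hGm.2]; omega
  have hq₀m : q₀.natDegree < m := by
    rcases eq_or_ne q₀ 0 with rfl | h0
    · rw [natDegree_zero]; omega
    · have := (natDegree_lt_iff_degree_lt h0).2 hq₀
      omega
  -- the sum over the leading coefficients
  set qν : F → F[X] := fun ν => q₀ + GG x 1 T * (C ν * X ^ (r + 1)) with hqν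
  set A : F → ℕ := fun ν => ((pol F (r + 1)).filter fun w =>
    Split (m * D) (f.eval (qν ν + GG x 1 T * w))).card with hA
  have hcnt : cnt m D f M = ∑ ν : F, A ν := by
    have h1 := sum_coset (m := m) (q₀ := q₀) (G := GG x 1 T) hGm.1 hg (by omega) hq₀m
      (fun q => Split (m * D) (f.eval q))
    rw [show m - (D + 1) = r + 1 by omega] at h1
    rw [hA, hqν, ← h1]
    unfold cnt
    congr 1
    refine filter_congr fun q _ => ?_
    rw [hcong]
  -- degree and leading coefficient
  have hdeg : ∀ ν, (qν ν).natDegree ≤ m := by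
    intro ν
    refine (natDegree_add_le _ _).trans (max_le hq₀m.le ?_)
    refine natDegree_mul_le.trans ?_
    rw [hg]
    have := natDegree_C_mul_X_pow_le ν (r + 1)
    omega
  have hcoef : ∀ ν, (qν ν).coeff m = ν := by
    intro ν
    have h1 : (GG x 1 T).coeff (D + 1) = 1 := by
      have := hGm.1.coeff_natDegree
      rwa [hg] at this
    rw [hqν]
    simp only [coeff_add]
    rw [coeff_eq_zero_of_natDegree_lt hq₀m, zero_add, mul_left_comm, coeff_C_mul,
      show m = (D + 1) + (r + 1) by omega, coeff_mul_X_pow, h1, mul_one]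
  have hmark : ∀ ν, Marked f x 1 T (qν ν) := fun ν => hmk.add _
  -- real bounds
  set Q : ℝ := (p : ℝ) ^ (2 * μ) with hQ
  set P : ℝ := (p : ℝ) ^ μ with hPdef
  have hp1 : (1 : ℝ) ≤ p := by exact_mod_cast (Fact.out : p.Prime).one_lt.le
  have hP1 : 1 ≤ P := one_le_pow₀ hp1
  have hQP : Q = P * P := by rw [hQ, hPdef, two_mul, pow_add]
  have hPQ : P ≤ Q := by rw [hQP]; nlinarith
  have hQ0 : 0 < Q := by rw [hQ]; positivity
  have hFQ : (Fintype.card F : ℝ) = Q := by rw [hF, hQ]; push_cast; rfl
  have hpow : ∀ j : ℕ, (p : ℝ) ^ (2 * μ * j) = Q ^ j := fun j => by rw [hQ, ← pow_mul]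
  have hmDr : m - D = r + 1 + 1 := by omega
  have hmDr' : m - (1 + T.card) = r + 1 := by omega
  have hsT : m * D - (1 + T.card) = s := by rw [hsdef, hTD, add_comm 1 D]
  -- one leading coefficient
  have hone : ∀ ν, (topPol m D f).eval ν ≠ 0 →
      P * |(s.factorial : ℝ) * (A ν : ℝ) - Q ^ (r + 1)| ≤
        (c₁ + s.factorial * (D + 1)) * Q ^ (r + 1) := by
    intro ν hν
    have h1 := hP p μ F k f x 1 T (qν ν) hF hf hfi (hmark ν) (hdeg ν) (by rwa [hcoef]) (by omega)
      (by rwa [hsT]) (by rw [hsT]; omega)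
    rw [hmDr', hsT, hpow] at h1
    obtain ⟨h2, h3⟩ := EG2_one hf (hmark ν) (hdeg ν) (r := r) (by omega) (by omega)
    rw [hsT] at h2 h3
    set R : ℕ := resCount f (qν ν) (GG x 1 T) (r + 1) s with hR
    have h2' : (A ν : ℝ) ≤ R := by exact_mod_cast h2
    have h3' : (R : ℝ) ≤ A ν + (D + 1) * Q ^ r := by
      have : (R : ℝ) ≤ ((A ν + (1 + T.card) * Fintype.card F ^ r : ℕ) : ℝ) := by exact_mod_cast h3
      push_cast at this
      rw [hFQ, hTD] at this
      linarith
    have h4 : |(s.factorial : ℝ) * (A ν : ℝ) - Q ^ (r + 1)| ≤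
        |(s.factorial : ℝ) * (R : ℝ) - Q ^ (r + 1)| + s.factorial * ((D + 1) * Q ^ r) := by
      have h5 : (s.factorial : ℝ) * (A ν : ℝ) - Q ^ (r + 1) =
          ((s.factorial : ℝ) * (R : ℝ) - Q ^ (r + 1)) - s.factorial * (R - A ν) := by ring
      rw [h5]
      refine (abs_sub _ _).trans ?_
      have h6 : |(s.factorial : ℝ) * ((R : ℝ) - A ν)| = s.factorial * (R - A ν) :=
        abs_of_nonneg (mul_nonneg (Nat.cast_nonneg _) (by linarith))
      rw [h6]
      have : (s.factorial : ℝ) * (R - A ν) ≤ s.factorial * ((D + 1) * Q ^ r) :=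
        mul_le_mul_of_nonneg_left (by linarith) (Nat.cast_nonneg _)
      linarith
    have h7 : P * |(s.factorial : ℝ) * (A ν : ℝ) - Q ^ (r + 1)| ≤
        P * |(s.factorial : ℝ) * (R : ℝ) - Q ^ (r + 1)| + P * (s.factorial * ((D + 1) * Q ^ r)) := by
      rw [← mul_add]
      exact mul_le_mul_of_nonneg_left h4 (by linarith)
    have h8 : P * (s.factorial * ((D + 1) * Q ^ r)) ≤ s.factorial * (D + 1) * Q ^ (r + 1) := by
      have : P * Q ^ r ≤ Q ^ (r + 1) := by
        rw [pow_succ, mul_comm]
        exact mul_le_mul_of_nonneg_left hPQ (by positivity)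
      calc P * (s.factorial * ((D + 1) * Q ^ r)) = s.factorial * (D + 1) * (P * Q ^ r) := by ring
        _ ≤ s.factorial * (D + 1) * Q ^ (r + 1) := mul_le_mul_of_nonneg_left this (by positivity)
    linarith
  -- the exceptional leading coefficients
  have hzero : ∀ ν, (topPol m D f).eval ν = 0 → A ν = 0 := by
    intro ν hν
    rw [hA]
    simp only
    rw [card_eq_zero, filter_eq_empty_iff]
    intro w hw
    have hwd : (GG x 1 T * w).natDegree < m := by
      refine natDegree_mul_le.trans_lt ?_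
      rw [hg]
      have h1 : w.natDegree ≤ r := by
        have h2 := mem_pol.1 hw
        rcases eq_or_ne w 0 with rfl | h0
        · simp
        · have := (natDegree_lt_iff_degree_lt h0).2 h2
          omega
      omega
    refine EG2_top (by omega) hf ((natDegree_add_le _ _).trans (max_le (hdeg ν) hwd.le)) ?_
    rw [coeff_add, hcoef, coeff_eq_zero_of_natDegree_lt hwd, add_zero, hν]
  have hterm : ∀ ν : F, |(s.factorial : ℝ) * (A ν : ℝ) - Q ^ (r + 1)| * P ≤
      (c₁ + s.factorial * (D + 1)) * Q ^ (r + 1) +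
        if (topPol m D f).eval ν = 0 then P * Q ^ (r + 1) else 0 := by
    intro ν
    have hnn : 0 ≤ (c₁ + s.factorial * (D + 1)) * Q ^ (r + 1) := by positivity
    by_cases hν : (topPol m D f).eval ν = 0
    · rw [if_pos hν, hzero ν hν, Nat.cast_zero, mul_zero, zero_sub, abs_neg,
        abs_of_nonneg (by positivity)]
      linarith [mul_comm P (Q ^ (r + 1))]
    · rw [if_neg hν, add_zero, mul_comm]
      exact hone ν hν
  -- the number of the exceptional leading coefficients
  have hexc : ((univ : Finset F).filter fun ν => (topPol m D f).eval ν = 0).card ≤ D := by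
    obtain ⟨ht, htd⟩ := topPol_monic hf
    have h1 : ((univ : Finset F).filter fun ν => (topPol m D f).eval ν = 0) ⊆
        (topPol m D f).roots.toFinset := by
      intro ν hν
      rw [Multiset.mem_toFinset, mem_roots ht.ne_zero]
      exact (mem_filter.1 hν).2
    refine (card_le_card h1).trans ((Multiset.toFinset_card_le _).trans ((card_roots' _).trans ?_))
    rw [htd]
  rw [hcnt, hpow, hmDr]
  have hsum : (s.factorial : ℝ) * ((∑ ν : F, A ν : ℕ) : ℝ) - Q ^ (r + 1 + 1) =
      ∑ ν : F, ((s.factorial : ℝ) * (A ν : ℝ) - Q ^ (r + 1)) := by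
    rw [sum_sub_distrib, sum_const, card_univ, nsmul_eq_mul, hFQ, ← mul_sum, pow_succ' Q (r + 1)]
    push_cast
    ring
  rw [hsum]
  calc P * |∑ ν : F, ((s.factorial : ℝ) * (A ν : ℝ) - Q ^ (r + 1))|
      ≤ P * ∑ ν : F, |(s.factorial : ℝ) * (A ν : ℝ) - Q ^ (r + 1)| :=
        mul_le_mul_of_nonneg_left (abs_sum_le_sum_abs _ _) (by linarith)
    _ = ∑ ν : F, |(s.factorial : ℝ) * (A ν : ℝ) - Q ^ (r + 1)| * P := by
        rw [mul_comm, sum_mul]
    _ ≤ ∑ ν : F, ((c₁ + s.factorial * (D + 1)) * Q ^ (r + 1) +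
        if (topPol m D f).eval ν = 0 then P * Q ^ (r + 1) else 0) := sum_le_sum fun ν _ => hterm ν
    _ = Q * ((c₁ + s.factorial * (D + 1)) * Q ^ (r + 1)) +
        (((univ : Finset F).filter fun ν => (topPol m D f).eval ν = 0).card : ℝ) *
          (P * Q ^ (r + 1)) := by
        rw [sum_add_distrib, sum_const, card_univ, nsmul_eq_mul, hFQ, ← sum_filter, sum_const,
          nsmul_eq_mul]
    _ ≤ Q * ((c₁ + s.factorial * (D + 1)) * Q ^ (r + 1)) + D * (Q * Q ^ (r + 1)) := by
        have h1 : (((univ : Finset F).filter fun ν => (topPol m D f).eval ν = 0).card : ℝ) ≤ D := by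
          exact_mod_cast hexc
        have h2 : P * Q ^ (r + 1) ≤ Q * Q ^ (r + 1) :=
          mul_le_mul_of_nonneg_right hPQ (by positivity)
        have h3 : (((univ : Finset F).filter fun ν => (topPol m D f).eval ν = 0).card : ℝ) *
            (P * Q ^ (r + 1)) ≤ D * (Q * Q ^ (r + 1)) :=
          mul_le_mul h1 h2 (by positivity) (by positivity)
        linarith
    _ = (c₁ + s.factorial * (D + 1) + D) * Q ^ (r + 1 + 1) := by rw [pow_succ Q (r + 1)]; ring

end MPb197b4E
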