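import Pool.Agent.Lib.MP_b197b4_ntP.Bert4
import Pool.Agent.Lib.MP_b197b4_ntC.CDefs
import Pool.Agent.Lib.MP_b197b4_ntE.EA1

/-!
# Leaf SJ0: the plane curves `fib f κ α`
-/

set_option autoImplicit false

namespace MPb197b4E.SJ

open Polynomial MPb197b4P

variable {K : Type} [Field K]

theorem eval_eval_hom {A B : Type*} [CommRing A] [CommRing B] (φ : A[X] →+* B) (f : A[X][X])
    (P : A[X]) : φ (f.eval P) = (f.map φ).eval (φ P) := by
  rw [eval_map, hom_eval₂_eq]
where
  hom_eval₂_eq : φ (f.eval P) = f.eval₂ φ (φ P) := by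
    rw [eval, hom_eval₂]
    rfl

theorem fib_eval (f : K[X][X][X]) (κ : K) (α γ : K[X]) :
    (fib f κ α).eval γ = (f.eval (C (α + C κ * γ))).eval γ := by
  have h1 := hom_eval₂ f (RingHom.id K[X][X]) (evalRingHom γ) (C (C κ) * X + C α)
  have h2 := hom_eval₂ f (RingHom.id K[X][X]) (evalRingHom γ) (C (α + C κ * γ))
  have h3 : evalRingHom γ (C (C κ) * X + C α : K[X][X]) = evalRingHom γ (C (α + C κ * γ)) := by
    simp
    ring
  rw [h3, ← h2] at h1
  exact h1

theorem fib_evalEval (f : K[X][X][X]) (κ : K) (α : K[X]) (a b : K) :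
    evalEval a b (fib f κ α) = ev3 f a b (α.eval a + κ * b) := by
  have h1 := hom_eval₂ f (RingHom.id K[X][X]) (evalEvalRingHom a b) (C (C κ) * X + C α)
  have h2 := hom_eval₂ f (RingHom.id K[X][X]) (evalEvalRingHom a b) (C (C (α.eval a + κ * b)))
  have h3 : evalEvalRingHom a b (C (C κ) * X + C α : K[X][X]) =
      evalEvalRingHom a b (C (C (α.eval a + κ * b))) := by
    simp
    ring
  rw [h3, ← h2] at h1
  exact h1

theorem fib_map {F : Type} [Field F] (φ : F →+* K) (f : F[X][X][X]) (κ : F) (α : F[X]) :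
    (fib f κ α).map (mapRingHom φ) =
      fib (f.map (mapRingHom (mapRingHom φ))) (φ κ) (α.map φ) := by
  have h1 := eval_map_map (mapRingHom φ) f (C (C κ) * X + C α)
  rw [fib, ← h1, fib]
  congr 1
  simp

/-- weight bound: `x` has weight `1`, `y` has weight `e` -/
def WB (e N : ℕ) (g : K[X][X]) : Prop := ∀ i, g.coeff i ≠ 0 → (g.coeff i).natDegree + e * i ≤ N

theorem WB.add {e N : ℕ} {g h : K[X][X]} (hg : WB e N g) (hh : WB e N h) : WB e N (g + h) := by
  intro i hi
  rw [coeff_add] at hi ⊢
  by_cases h1 : g.coeff i = 0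
  · rw [h1, zero_add] at hi ⊢
    exact hh i hi
  · by_cases h2 : h.coeff i = 0
    · rw [h2, add_zero]
      exact hg i h1
    · have h3 := natDegree_add_le (g.coeff i) (h.coeff i)
      have h4 := hg i h1
      have h5 := hh i h2
      have h6 : max (g.coeff i).natDegree (h.coeff i).natDegree + e * i ≤ N := by
        rcases max_choice (g.coeff i).natDegree (h.coeff i).natDegree with h7 | h7 <;> rw [h7] <;>
          assumption
      lia

theorem WB.zero (e N : ℕ) : WB e N (0 : K[X][X]) := fun i hi => absurd (coeff_zero i) hi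

theorem WB.sum {ι : Type*} {e N : ℕ} (s : Finset ι) (g : ι → K[X][X])
    (hg : ∀ i ∈ s, WB e N (g i)) : WB e N (∑ i ∈ s, g i) := by
  classical
  induction s using Finset.induction_on with
  | empty => exact WB.zero e N
  | insert a s ha ih =>
    rw [Finset.sum_insert ha]
    exact (hg a (Finset.mem_insert_self a s)).add
      (ih fun i hi => hg i (Finset.mem_insert_of_mem hi))

theorem WB.mul {e N M : ℕ} {g h : K[X][X]} (hg : WB e N g) (hh : WB e M h) :
    WB e (N + M) (g * h) := by
  intro i hi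
  have key : ∀ x ∈ Finset.HasAntidiagonal.antidiagonal i, (g.coeff x.1 * h.coeff x.2).natDegree ≤ N + M - e * i ∧
      (g.coeff x.1 * h.coeff x.2 ≠ 0 → e * i ≤ N + M) := by
    intro x hx
    have hx' := Finset.HasAntidiagonal.mem_antidiagonal.mp hx
    by_cases h1 : g.coeff x.1 = 0
    · rw [h1]
      simp
    · by_cases h2 : h.coeff x.2 = 0
      · rw [h2]
        simp
      · have h4 := hg x.1 h1
        have h5 := hh x.2 h2
        have h6 : e * i = e * x.1 + e * x.2 := by rw [← hx']; ring
        have h7 := natDegree_mul_le (p := g.coeff x.1) (q := h.coeff x.2)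
        constructor
        · lia
        · intro _
          lia
  rw [coeff_mul] at hi ⊢
  have h8 : ∃ x ∈ Finset.HasAntidiagonal.antidiagonal i, g.coeff x.1 * h.coeff x.2 ≠ 0 := by
    by_contra h9
    push Not at h9
    exact hi (Finset.sum_eq_zero h9)
  obtain ⟨x, hx, hx0⟩ := h8
  have h10 := (key x hx).2 hx0
  have h11 : (∑ x ∈ Finset.HasAntidiagonal.antidiagonal i, g.coeff x.1 * h.coeff x.2).natDegree ≤
      N + M - e * i := natDegree_sum_le_of_forall_le _ _ fun x hx => (key x hx).1
  lia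

theorem WB.pow {e N : ℕ} {g : K[X][X]} (hg : WB e N g) (j : ℕ) : WB e (j * N) (g ^ j) := by
  induction j with
  | zero =>
    intro i hi
    rw [pow_zero, coeff_one] at hi ⊢
    by_cases h : i = 0
    · rw [h]
      simp
    · rw [if_neg h] at hi
      exact absurd rfl hi
  | succ j ih =>
    rw [pow_succ, add_mul, one_mul]
    exact ih.mul hg

theorem WB.lin {e : ℕ} {κ : K} {α : K[X]} (hα : α.natDegree ≤ e) :
    WB e e (C (C κ) * X + C α : K[X][X]) := by
  refine WB.add ?_ ?_
  · intro i hi
    rw [coeff_C_mul, coeff_X] at hi ⊢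
    by_cases h : 1 = i
    · rw [← h]
      simp
    · rw [if_neg h, mul_zero] at hi
      exact absurd rfl hi
  · intro i hi
    rw [coeff_C] at hi ⊢
    by_cases h : i = 0
    · rw [if_pos h, h]
      simpa using hα
    · rw [if_neg h] at hi
      exact absurd rfl hi

theorem WB_fib {f : K[X][X][X]} {r e : ℕ} (hdeg : f.natDegree = r) (hW : Bert.Wt3 e r f) (κ : K)
    {α : K[X]} (hα : α.natDegree ≤ e) : WB e (e * r) (fib f κ α) := by
  rw [fib, eval_eq_sum_range, hdeg]
  refine WB.sum _ _ fun j hj => ?_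
  have hj' : j ≤ r := by
    rw [Finset.mem_range] at hj
    lia
  have h1 : WB e (e * (r - j)) (f.coeff j) := by
    intro i hi
    by_cases hij : i + j ≤ r
    · have h2 := hW.deg i j hij
      have h3 : e * (r - (i + j)) + e * i = e * (r - j) := by
        rw [← mul_add]
        congr 1
        lia
      lia
    · exact absurd (hW.zero i j (by lia)) hi
  have h2 := h1.mul ((WB.lin (κ := κ) hα).pow j)
  have h3 : e * (r - j) + j * e = e * r := by
    rw [mul_comm j e, ← mul_add]
    congr 1
    lia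
  rw [h3] at h2
  exact h2

/-- the normalised plane curve -/
noncomputable def nfib (f : K[X][X][X]) (r : ℕ) (κ : K) (α : K[X]) : K[X][X] :=
  C (C ((((fib f κ α).coeff r).coeff 0)⁻¹)) * fib f κ α

theorem lead_fib {f : K[X][X][X]} {r e : ℕ} (hdeg : f.natDegree = r) (hW : Bert.Wt3 e r f) {κ : K}
    {α : K[X]} (hr : 0 < r) (hn : (fib f κ α).natDegree = r) :
    ((fib f κ α).coeff r).coeff 0 ≠ 0 ∧ (fib f κ α).coeff r =
      C (((fib f κ α).coeff r).coeff 0) := by
  have h1 := (Bert.coeff_fib hdeg hW κ α).2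
  have h2 : (fib f κ α).coeff r = C (((fib f κ α).coeff r).coeff 0) := by
    rw [fib, h1, coeff_C_zero]
  refine ⟨fun h0 => ?_, h2⟩
  rw [h0, C_0] at h2
  have h3 : (fib f κ α).leadingCoeff = 0 := by
    rw [leadingCoeff, hn, h2]
  rw [leadingCoeff_eq_zero] at h3
  rw [h3, natDegree_zero] at hn
  omega

theorem nfib_wt {f : K[X][X][X]} {r e : ℕ} (hdeg : f.natDegree = r) (hW : Bert.Wt3 e r f) {κ : K}
    {α : K[X]} (hr : 0 < r) (hα : α.natDegree ≤ e) (hn : (fib f κ α).natDegree = r) :
    Wt e r (nfib f r κ α) := by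
  obtain ⟨h1, h2⟩ := lead_fib hdeg hW hr hn
  set c := ((fib f κ α).coeff r).coeff 0 with hc
  have hc' : c⁻¹ ≠ 0 := inv_ne_zero h1
  have hdegn : (nfib f r κ α).natDegree = r := by
    rw [nfib, ← hc, natDegree_C_mul (C_ne_zero.mpr hc'), hn]
  refine ⟨?_, hdegn, ?_⟩
  · rw [Monic, leadingCoeff, hdegn, nfib, ← hc, coeff_C_mul, h2, ← C_mul, inv_mul_cancel₀ h1, C_1]
  · intro i hi
    rw [nfib, coeff_C_mul]
    refine (natDegree_C_mul_le _ _).trans ?_
    by_cases h0 : (fib f κ α).coeff i = 0
    · rw [h0]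
      simp
    · have h3 := WB_fib hdeg hW κ hα i h0
      have h4 : e * (r - i) + e * i = e * r := by
        rw [← mul_add]
        congr 1
        lia
      lia

section Scale

theorem evalEval_scale (c : K) (g : K[X][X]) (a b : K) :
    evalEval a b (C (C c) * g) = c * evalEval a b g := by
  simp [evalEval]

theorem fY_scale (c : K) (g : K[X][X]) (a b : K) : fY (C (C c) * g) a b = c * fY g a b := by
  rw [fY, fY, derivative_mul, derivative_C, zero_mul, zero_add, evalEval_scale]

theorem fX_scale (c : K) (g : K[X][X]) (a b : K) : fX (C (C c) * g) a b = c * fX g a b := by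
  rw [fX, fX, eval_mul, eval_C, derivative_mul, derivative_C, zero_mul, zero_add, eval_mul, eval_C]

theorem split_scale {F : Type} [Field F] [DecidableEq F] {n : ℕ} {c : F}
    (hc : c ≠ 0) (g : F[X]) : Split n (C c * g) ↔ Split n g := by
  rw [Split, Split, roots_C_mul g hc]

end Scale

end MPb197b4E.SJ
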